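import Pool.Agent.Helper3.JK.FitTileK

/-!
# Jigsaw tiles on the rhombille tiling: from a good matching relation to a repeating unit

Copy of `JD/AssembleD.lean` (`repeating_of_good`) with places and allowed labels: the symmetries are
the pairs with `SymK g z a` (closed under composition and inverse by `okK_mul`, `okK_inv`, `VK_mv`),
`fitK_iff` and `tilesK_of_fitAt` in place of `fitAt_iff` and `tiles_of_fitAt`. The placements `pl` of
`gridHex` and `gridTri` are the same. The representatives `rep hexDir d i` are places (`VK_zero`,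
`nbK_iff` at `0` with label `(0, false)`).
-/

namespace Pool.H3JG

open Set

private theorem AssembleK_shrink {X ι : Type*} [TopologicalSpace X] (A : ι → Set X)
    (hA : ∀ i, IsClosed (A i)) (s : Finset ι) {O : Set X} (hO : IsOpen O) (hne : O.Nonempty)
    (h : ∀ i ∈ s, ¬ (O ∩ interior (A i)).Nonempty) :
    ∃ O' : Set X, IsOpen O' ∧ O'.Nonempty ∧ O' ⊆ O ∧ ∀ i ∈ s, Disjoint O' (A i) := by
  classical
  induction s using Finset.induction_on with
  | empty => exact ⟨O, hO, hne, Subset.rfl, by simp⟩
  | insert i s _ ih =>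
    obtain ⟨O', h1, h2, h3, h4⟩ := ih fun j hj => h j (Finset.mem_insert_of_mem hj)
    refine ⟨O' \ A i, h1.sdiff (hA i), ?_, fun x hx => h3 hx.1, ?_⟩
    · by_contra hcon
      rw [not_nonempty_iff_eq_empty, sdiff_eq_empty] at hcon
      obtain ⟨x, hx⟩ := h2
      exact h i (Finset.mem_insert_self i s) ⟨x, h3 hx, interior_maximal hcon h1 hx⟩
    · intro j hj
      rcases Finset.mem_insert.1 hj with rfl | hj
      · exact disjoint_sdiff_left
      · exact (h4 j hj).mono_left sdiff_subset

private theorem AssembleK_meet {X ι : Type*} [TopologicalSpace X] [Fintype ι] (A : ι → Set X)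
    (hA : ∀ i, IsClosed (A i)) {O : Set X} (hO : IsOpen O) (hne : O.Nonempty)
    (h : O ⊆ ⋃ i, A i) : ∃ i, (O ∩ interior (A i)).Nonempty := by
  by_contra hcon
  push Not at hcon
  obtain ⟨O', -, ⟨x, hx⟩, h3, h4⟩ := AssembleK_shrink A hA Finset.univ hO hne
    (fun i _ => by rw [hcon i]; exact not_nonempty_empty)
  obtain ⟨i, hi⟩ := mem_iUnion.1 (h (h3 hx))
  exact disjoint_left.1 (h4 i (Finset.mem_univ i)) hx hi

private theorem AssembleK_disj {X ι κ : Type*} [TopologicalSpace X] [Fintype ι] [Fintype κ]
    (A : ι → Set X) (B : κ → Set X) (hA : ∀ i, IsClosed (A i)) (hB : ∀ i, IsClosed (B i))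
    (h : ∀ i j, Disjoint (interior (A i)) (interior (B j))) :
    Disjoint (interior (⋃ i, A i)) (interior (⋃ j, B j)) := by
  rw [disjoint_iff_inter_eq_empty, ← not_nonempty_iff_eq_empty]
  intro hne
  obtain ⟨i, hi⟩ := AssembleK_meet A hA (isOpen_interior.inter isOpen_interior) hne
    (fun x hx => interior_subset hx.1)
  obtain ⟨j, x, hx, hj⟩ := AssembleK_meet B hB
    ((isOpen_interior.inter isOpen_interior).inter isOpen_interior) hi
    (fun x hx => interior_subset hx.1.2)
  exact disjoint_left.1 (h i j) hx.2 hj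

private theorem AssembleK_mv_mv (z w v : Z2) (a b : Lab 6) :
    mvR hexMat (mvR hexMat z a w) (lmul a b) v = mvR hexMat z a (mvR hexMat w b v) := by
  have h : hexMat (lmul a b) = (hexMat a).mul (hexMat b) := gridHex.mat_mul a b
  unfold mvR
  rw [h, Mat.apZ_mul, Mat.apZ_add, add_assoc]

private theorem AssembleK_mv_inv (z w : Z2) (a : Lab 6) :
    mvR hexMat z a (mvR hexMat (-((hexMat (linv a)).apZ z)) (linv a) w) = w := by
  have h : ∀ p : Z2, (hexMat a).apZ ((hexMat (linv a)).apZ p) = p :=
    fun p => gridHex.apZ_apZ_linv a p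
  unfold mvR
  rw [Mat.apZ_add, Mat.apZ_neg, h, h, add_neg_cancel_left]

private theorem AssembleK_inv_mv (z w : Z2) (a : Lab 6) :
    mvR hexMat (-((hexMat (linv a)).apZ z)) (linv a) (mvR hexMat z a w) = w := by
  have h : ∀ p : Z2, (hexMat (linv a)).apZ ((hexMat a).apZ p) = p :=
    fun p => gridHex.apZ_linv_apZ a p
  unfold mvR
  rw [Mat.apZ_add, h, neg_add_cancel_left]

private theorem AssembleK_comp {g : Z2 → Lab 6} {z w : Z2} {a b : Lab 6}
    (h1 : SymK g z a) (h2 : SymK g w b) : SymK g (mvR hexMat z a w) (lmul a b) := by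
  refine ⟨okK_mul h1.1 h2.1, fun v hv => ?_⟩
  rw [AssembleK_mv_mv, h1.2 _ (VK_mv h2.1 hv), h2.2 v hv, lmul_assoc']

private theorem AssembleK_inv {g : Z2 → Lab 6} {z : Z2} {a : Lab 6} (h1 : SymK g z a) :
    SymK g (-((hexMat (linv a)).apZ z)) (linv a) := by
  refine ⟨okK_inv h1.1, fun v hv => ?_⟩
  have h := h1.2 (mvR hexMat (-((hexMat (linv a)).apZ z)) (linv a) v)
    (VK_mv (okK_inv h1.1) hv)
  rw [AssembleK_mv_inv] at h
  rw [h, ← lmul_assoc', linv_lmul, one_lmul]

private theorem AssembleK_mv_one (w : Z2) : mvR hexMat 0 (0, false) w = w := by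
  have h : hexMat (0, false) = Mat.one := gridHex.mat_one
  unfold mvR
  rw [h, Mat.apZ_one, zero_add]

private theorem AssembleK_one (g : Z2 → Lab 6) : SymK g 0 (0, false) := by
  refine ⟨OkK_zero, fun v _ => ?_⟩
  rw [AssembleK_mv_one, one_lmul]

private theorem AssembleK_iso_comp (re : Realiz gridHex) (z w : Z2) (a b : Lab 6) (x : E) :
    re.iso (mvR hexMat z a w) (lmul a b) x = re.iso z a (re.iso w b x) := by
  obtain ⟨p, rfl⟩ := re.F.surjective x
  rw [re.iso_F, re.iso_F, re.iso_F]
  exact congrArg re.F (gridHex.pl_pl z w a b p).symm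

private theorem AssembleK_iso_inv (re : Realiz gridHex) (z : Z2) (a : Lab 6) (x : E) :
    re.iso (-((hexMat (linv a)).apZ z)) (linv a) x = (re.iso z a).symm x := by
  rw [IsometryEquiv.eq_symm_apply, ← AssembleK_iso_comp]
  obtain ⟨p, rfl⟩ := re.F.surjective x
  rw [re.iso_F, lmul_linv, gridHex.pl_one]
  congr 1
  have h : mvR hexMat z a (-((hexMat (linv a)).apZ z)) = 0 := by
    have := AssembleK_mv_inv z 0 a
    rw [show mvR hexMat (-((hexMat (linv a)).apZ z)) (linv a) 0 =
      -((hexMat (linv a)).apZ z) from by unfold mvR; rw [Mat.apZ_zero, add_zero]] at this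
    exact this
  rw [h, toV_zero, zero_add]

private theorem AssembleK_iso_image (re : Realiz gridHex) (z : Z2) (a : Lab 6)
    (X : Set V) : re.iso z a '' (re.F '' X) = re.F '' (gridHex.pl z a '' X) := by
  rw [image_image, image_image]
  exact image_congr fun p _ => re.iso_F z a p

private theorem AssembleK_rep {d : ZMod 6} (hd : ek d = true) {m : ℕ} (i : Fin m) :
    VK (rep hexDir d i) := by
  unfold rep
  split
  · exact VK_zero
  · have key : ∀ d : ZMod 6, ek d = true → ek (act (linv ((0, false) : Lab 6)) d) = true := by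
      decide
    have h := (nbK_iff OkK_zero d).2 (key d hd)
    rwa [zero_add] at h

theorem repeating_of_goodK (re : Realiz gridHex) {T : Set V} (hT : IsClosed T) (hB : T ⊆ kagB)
    (hgood : GoodK (relK T)) :
    ∃ g : Z2 → Lab 6, (∀ z, VK z → OkK z (g z)) ∧
      (∀ z d, VK z → VK (z + hexDir d) → FitK T z d (g z) (g (z + hexDir d))) ∧
      ∃ m : ℕ, 1 ≤ m ∧ m ≤ 2 ∧ ∃ d : ZMod 6, ek d = true ∧
        IsRepeating (re.F '' T)
          (fun i : Fin m => re.iso (rep hexDir d i) (g (rep hexDir d i))) := by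
  obtain ⟨g, ⟨hok, hcon⟩, m, hm1, hm2, d, hd, hcov, hdis⟩ := hgood
  obtain ⟨c, hc0⟩ : ∃ c : Fin m → Z2, c = fun i => rep hexDir d i := ⟨_, rfl⟩
  have hpl : ∀ i, VK (c i) := by
    intro i
    rw [hc0]
    exact AssembleK_rep hd i
  replace hcov : ∀ w, VK w → ∃ z a, ∃ i : Fin m, SymK g z a ∧ mvR hexMat z a (c i) = w := by
    rw [hc0]; exact hcov
  replace hdis : ∀ (i j : Fin m) (z : Z2) (a : Lab 6), SymK g z a →
      mvR hexMat z a (c i) = c j → i = j := by
    rw [hc0]; exact hdis
  have hfit : ∀ z d, VK z → VK (z + hexDir d) → FitK T z d (g z) (g (z + hexDir d)) :=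
    fun z d h1 h2 => (fitK_iff T (hok z h1) (hok _ h2)).2 (hcon z d h1 h2)
  obtain ⟨htcov, htdis⟩ := tilesK_of_fitAt hT hB hok hfit
  refine ⟨g, hok, hfit, m, hm1, hm2, d, hd, ?_⟩
  suffices hrep : IsRepeating (re.F '' T) (fun i : Fin m => re.iso (c i) (g (c i))) by
    rw [hc0] at hrep; exact hrep
  refine ⟨?_, ?_⟩
  · intro i j hij
    have hc : c i ≠ c j := by
      intro h
      apply hij
      refine hdis i j 0 (0, false) (AssembleK_one g) ?_
      rw [AssembleK_mv_one, h]
    show Disjoint (interior (re.iso (c i) (g (c i)) '' (re.F '' T)))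
      (interior (re.iso (c j) (g (c j)) '' (re.F '' T)))
    rw [AssembleK_iso_image, AssembleK_iso_image, ← re.F.image_interior, ← re.F.image_interior,
      disjoint_image_iff re.F.injective]
    exact htdis _ _ (hpl i) (hpl j) hc
  · set P : Set E := ⋃ i, re.iso (c i) (g (c i)) '' (re.F '' T) with hP
    -- the copies of `P`
    let Q : Z2 → Lab 6 → Set V := fun z b =>
      ⋃ i, gridHex.tile T (mvR hexMat z b (c i)) (g (mvR hexMat z b (c i)))
    have hQ : ∀ z b, SymK g z b → re.iso z b '' P = re.F '' Q z b := by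
      intro z b hs
      show _ = re.F '' (⋃ i, _)
      rw [hP, image_iUnion, image_iUnion]
      refine iUnion_congr fun i => ?_
      rw [AssembleK_iso_image, AssembleK_iso_image, hs.2 (c i) (hpl i)]
      congr 1
      exact gridHex.pl_tile T z (c i) b (g (c i))
    refine ⟨{A | ∃ z b, SymK g z b ∧ A = re.iso z b '' P}, ?_, ?_, ?_, ?_⟩
    · rintro A ⟨z, b, _, rfl⟩
      exact ⟨re.iso z b, rfl⟩
    · rw [eq_univ_iff_forall]
      intro x
      obtain ⟨p, rfl⟩ := re.F.surjective x
      obtain ⟨w, hwV, hw⟩ := htcov p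
      obtain ⟨z, b, i, hs, rfl⟩ := hcov w hwV
      refine ⟨re.iso z b '' P, ⟨z, b, hs, rfl⟩, ?_⟩
      rw [hQ z b hs]
      exact ⟨p, mem_iUnion.2 ⟨i, hw⟩, rfl⟩
    · rintro A ⟨z, b, hs, rfl⟩ B ⟨z', b', hs', rfl⟩ hne
      rw [hQ z b hs, hQ z' b' hs', ← re.F.image_interior, ← re.F.image_interior,
        disjoint_image_iff re.F.injective]
      refine AssembleK_disj _ _ (fun i => ?_) (fun i => ?_) fun i j =>
        htdis _ _ (VK_mv hs.1 (hpl i)) (VK_mv hs'.1 (hpl j)) ?_
      · exact (gridHex.plH (mvR hexMat z b (c i)) (g (mvR hexMat z b (c i)))).isClosedMap _ hT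
      · exact (gridHex.plH (mvR hexMat z' b' (c i)) (g (mvR hexMat z' b' (c i)))).isClosedMap _ hT
      · intro heq
        apply hne
        have hcomp := AssembleK_comp (AssembleK_inv hs') hs
        have h1 : mvR hexMat (mvR hexMat (-((hexMat (linv b')).apZ z')) (linv b') z)
            (lmul (linv b') b) (c i) = c j := by
          rw [AssembleK_mv_mv, heq, AssembleK_inv_mv]
        have hij := hdis i j _ _ hcomp h1
        subst hij
        have h2 : lmul b (g (c i)) = lmul b' (g (c i)) := by
          rw [← hs.2 (c i) (hpl i), ← hs'.2 (c i) (hpl i), heq]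
        have h3 : b = b' := by
          have := congrArg (fun t => lmul t (linv (g (c i)))) h2
          simpa only [lmul_assoc', lmul_linv, lmul_one] using this
        subst h3
        have h4 : z = z' := by
          unfold mvR at heq
          exact add_right_cancel heq
        rw [h4]
    · rintro A ⟨z, b, hs, rfl⟩ B ⟨z', b', hs', rfl⟩
      have key : ∀ (z z' w : Z2) (b b' e : Lab 6),
          (re.iso z' b') '' ((re.iso z b).symm '' (re.iso w e '' P)) =
            re.iso (mvR hexMat z' b' (mvR hexMat (-((hexMat (linv b)).apZ z)) (linv b) w))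
              (lmul b' (lmul (linv b) e)) '' P := by
        intro z z' w b b' e
        rw [image_image, image_image]
        refine image_congr fun x _ => ?_
        rw [AssembleK_iso_comp, AssembleK_iso_comp, AssembleK_iso_inv]
      refine ⟨(re.iso z b).symm.trans (re.iso z' b'), ?_, ?_⟩
      · have htr : ∀ C : Set E, ⇑((re.iso z b).symm.trans (re.iso z' b')) '' C =
            (re.iso z' b') '' ((re.iso z b).symm '' C) := by
          intro C
          rw [image_image]
          rfl
        apply Subset.antisymm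
        · rintro _ ⟨_, ⟨w, e, hw, rfl⟩, rfl⟩
          refine ⟨_, _, AssembleK_comp hs' (AssembleK_comp (AssembleK_inv hs) hw), ?_⟩
          show ⇑((re.iso z b).symm.trans (re.iso z' b')) '' (re.iso w e '' P) = _
          rw [htr, key]
        · rintro _ ⟨w, e, hw, rfl⟩
          refine ⟨re.iso z b '' ((re.iso z' b').symm '' (re.iso w e '' P)), ?_, ?_⟩
          · rw [key]
            exact ⟨_, _, AssembleK_comp hs (AssembleK_comp (AssembleK_inv hs') hw), rfl⟩
          · show ⇑((re.iso z b).symm.trans (re.iso z' b')) ''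
              (re.iso z b '' ((re.iso z' b').symm '' (re.iso w e '' P))) = _
            rw [htr, image_image, image_image, image_image]
            have hid : (fun x => (re.iso z' b') ((re.iso z b).symm ((re.iso z b)
                ((re.iso z' b').symm x)))) = id := by
              funext x
              rw [IsometryEquiv.symm_apply_apply, IsometryEquiv.apply_symm_apply]
              rfl
            rw [hid, image_id]
      · rw [image_image]
        refine image_congr fun x _ => ?_
        show re.iso z' b' ((re.iso z b).symm (re.iso z b x)) = _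
        rw [IsometryEquiv.symm_apply_apply]

end Pool.H3JG
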