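import Pool.Agent.Helper3.JK.OkK
import Pool.Agent.Helper3.JT.CellT

/-!
# Jigsaw tiles on the rhombille tiling: Voronoi cell and order two cells of the centres

Compare `JT/CellT.lean` (same fine lattice, other set of centres) and `JD/CellHex.lean`
(`CellHex_lt`, `CellHex_le`).

`kag_vor`: necessary: the four neighbours `(1,0), (-1,1), (-1,0), (1,-1)`; sufficient: linear in `p`,
check at the vertices `(0,1), (2/3,-1/3), (0,-1), (-2/3,1/3)` of the rhombus for all `(a, b)` not
congruent to `(0, 1)` modulo `2`: `|a + 2b| ≤ a^2 + a b + b^2` and `|a| ≤ a^2 + a b + b^2`.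

`kag_cell2` for `e = 0` (transport with the matrices of `aK e`, `RealHex_inv`): necessary: the centres
`(-1,1)`, `(1,-1)`, `(1,1)` and the further neighbours of `(1,0)`: `kagU0` is given by `x > 0`
(`(1,0)` nearer than `(-1,1)`), `x + 2y > 0` (`(1,0)` nearer than `(1,-1)`), `x + y < 1` (`0` nearer than
`(1,1)`), `x - y < 1` (`0` nearer than `(1,-1)`); sufficient: affine in `p`, check at the vertices
`0, (0,1), (1,0), (2/3,-1/3)`.
-/

namespace Pool.H3JG

open Set

theorem CellK_a (a b : ℤ) : a ≤ a ^ 2 + a * b + b ^ 2 := by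
  have h4 : 4 * (a ^ 2 + a * b + b ^ 2) = (a + 2 * b) ^ 2 + 3 * a ^ 2 := by ring
  rcases lt_trichotomy a 1 with h | h | h
  · nlinarith [sq_nonneg (a + 2 * b), sq_nonneg a]
  · subst h
    rcases le_or_gt 0 b with hb | hb
    · nlinarith
    · nlinarith
  · nlinarith [sq_nonneg (a + 2 * b)]

theorem CellK_facts {a b : ℤ} (h : ¬ (a % 2 = 0 ∧ b % 2 = 1)) :
    a ≤ a ^ 2 + a * b + b ^ 2 ∧ -a ≤ a ^ 2 + a * b + b ^ 2 ∧
      a + 2 * b ≤ a ^ 2 + a * b + b ^ 2 ∧ -(a + 2 * b) ≤ a ^ 2 + a * b + b ^ 2 := by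
  have h1 := CellT_Q (a := a) (b := b - 1) (by omega)
  have h2 := CellT_Q (a := a) (b := b + 1) (by omega)
  have h3 := CellK_a a b
  have h4 := CellK_a (-a) (-b)
  refine ⟨h3, by nlinarith, by nlinarith, by nlinarith⟩

theorem kag_vor : Vor RhombusCentres = hexF '' kagQ := by
  ext e
  obtain ⟨p, rfl⟩ := RealHex_F.surjective e
  rw [CellT_mem, rhombusCentres_eq]
  have hcond : RealHex_F p ∈ Vor ((fun z : Z2 => hexF (toV z)) '' {z | VK z}) ↔
      ∀ z : Z2, VK z → ‖hexF p‖ ≤ ‖hexF (p - toV z)‖ := by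
    constructor
    · intro h z hz
      have := h _ ⟨z, hz, rfl⟩
      rw [RealHex_sub]
      exact this
    · rintro h _ ⟨z, hz, rfl⟩
      have := h z hz
      rw [RealHex_sub] at this
      exact this
  rw [hcond]
  obtain ⟨x, y⟩ := p
  simp only [CellHex_le, toV, Prod.mk_sub_mk]
  constructor
  · intro h
    have k1 := h (1, 0) (by decide)
    have k2 := h (-1, 1) (by decide)
    have k3 := h (-1, 0) (by decide)
    have k4 := h (1, -1) (by decide)
    push_cast at k1 k2 k3 k4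
    refine ⟨?_, ?_⟩ <;> simp only [abs_le] <;> constructor <;> nlinarith
  · rintro ⟨h1, h2⟩ ⟨a, b⟩ hz
    simp only [abs_le] at h1 h2 ⊢
    obtain ⟨f1, f2, f3, f4⟩ := CellK_facts ((VK_iff (a, b)).1 hz)
    obtain ⟨Q, hQ⟩ : ∃ Q : ℝ, Q = (a : ℝ) ^ 2 + a * b + (b : ℝ) ^ 2 := ⟨_, rfl⟩
    have g1 : (a : ℝ) ≤ Q := by rw [hQ]; exact_mod_cast f1
    have g2 : -(a : ℝ) ≤ Q := by rw [hQ]; exact_mod_cast f2
    have g3 : (a : ℝ) + 2 * b ≤ Q := by rw [hQ]; exact_mod_cast f3
    have g4 : -((a : ℝ) + 2 * b) ≤ Q := by rw [hQ]; exact_mod_cast f4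
    have w1 : 0 ≤ (1 + (2 * x + y)) * (1 + (x - y)) :=
      mul_nonneg (by linarith [h1.1]) (by linarith [h2.1])
    have w2 : 0 ≤ (1 + (2 * x + y)) * (1 - (x - y)) :=
      mul_nonneg (by linarith [h1.1]) (by linarith [h2.2])
    have w3 : 0 ≤ (1 - (2 * x + y)) * (1 + (x - y)) :=
      mul_nonneg (by linarith [h1.2]) (by linarith [h2.1])
    have w4 : 0 ≤ (1 - (2 * x + y)) * (1 - (x - y)) :=
      mul_nonneg (by linarith [h1.2]) (by linarith [h2.2])
    have m1 := mul_nonneg w1 (sub_nonneg.2 g1)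
    have m2 := mul_nonneg w2 (sub_nonneg.2 g3)
    have m3 := mul_nonneg w3 (sub_nonneg.2 g4)
    have m4 := mul_nonneg w4 (sub_nonneg.2 g2)
    have key : (2 * x + y) * a + (x + 2 * y) * b ≤ Q := by
      have e1 : 4 * (Q - ((2 * x + y) * a + (x + 2 * y) * b)) =
          (1 + (2 * x + y)) * (1 + (x - y)) * (Q - a) +
          (1 + (2 * x + y)) * (1 - (x - y)) * (Q - (a + 2 * b)) +
          (1 - (2 * x + y)) * (1 + (x - y)) * (Q - -(a + 2 * b)) +
          (1 - (2 * x + y)) * (1 - (x - y)) * (Q - -a) := by ring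
      linarith
    rw [hQ] at key
    push_cast
    linarith [key]

/-- the order two cell in lattice coordinates -/
def CellK_P (w : Z2) (p : V) : Prop :=
  ∀ z : Z2, VK z → z ≠ 0 → z ≠ w →
    ‖hexF p‖ < ‖hexF (p - toV z)‖ ∧ ‖hexF (p - toV w)‖ < ‖hexF (p - toV z)‖

theorem CellK_cell (w : Z2) : Cell RhombusCentres (hexF (toV w)) =
    hexF '' {p | CellK_P w p} := by
  ext e
  obtain ⟨p, rfl⟩ := RealHex_F.surjective e
  rw [CellT_mem, rhombusCentres_eq]
  constructor
  · intro h z hc hz hzw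
    have h1 := h (hexF (toV z)) ⟨z, hc, rfl⟩ (by
      intro h2
      apply hz
      apply CellHex_toV_inj
      rw [h2, toV_zero, CellHex_hexF_zero]) (fun h2 => hzw (CellHex_toV_inj h2))
    rw [RealHex_sub, RealHex_sub]
    exact h1
  · rintro h _ ⟨z, hc, rfl⟩ hz hzw
    have h1 := h z hc (by
      rintro rfl
      apply hz
      simp only
      rw [toV_zero, CellHex_hexF_zero]) (by
      rintro rfl
      exact hzw rfl)
    rw [RealHex_sub, RealHex_sub] at h1
    exact h1

theorem CellK_P_zero (p : V) : CellK_P (hexDir 0) p ↔ p ∈ kagU0 := by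
  obtain ⟨x, y⟩ := p
  rw [show hexDir 0 = (1, 0) from rfl]
  unfold CellK_P
  simp only [CellHex_lt, toV, Prod.mk_sub_mk]
  constructor
  · intro h
    have k1 := (h (-1, 1) (by decide) (by decide) (by decide)).2
    have k2 := (h (1, 1) (by decide) (by decide) (by decide)).1
    have k3 := (h (1, -1) (by decide) (by decide) (by decide)).1
    have k4 := (h (1, -1) (by decide) (by decide) (by decide)).2
    push_cast at k1 k2 k3 k4
    refine ⟨?_, ?_, ?_, ?_⟩ <;> simp only <;> nlinarith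
  · rintro ⟨h1, h2, h3, h4⟩ ⟨a, b⟩ hc hz hzw
    simp only at h1 h2 h3 h4
    have n0 : ¬ (a = 0 ∧ b = 0) := by
      rintro ⟨e1, e2⟩
      apply hz
      exact Prod.ext e1 e2
    have n1 : ¬ (a - 1 = 0 ∧ b = 0) := by
      rintro ⟨e1, e2⟩
      apply hzw
      exact Prod.ext (by simp only; omega) e2
    obtain ⟨f1, -, f2, -⟩ := CellK_facts ((VK_iff (a, b)).1 hc)
    have f0 := CellT_Q n0
    have f3 : 2 * a + b ≤ a ^ 2 + a * b + b ^ 2 := by
      have := CellT_Q n1
      nlinarith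
    obtain ⟨Q, hQ⟩ : ∃ Q : ℝ, Q = (a : ℝ) ^ 2 + a * b + (b : ℝ) ^ 2 := ⟨_, rfl⟩
    have g0 : (1 : ℝ) ≤ Q := by rw [hQ]; exact_mod_cast f0
    have g1 : (a : ℝ) ≤ Q := by rw [hQ]; exact_mod_cast f1
    have g2 : (a : ℝ) + 2 * b ≤ Q := by rw [hQ]; exact_mod_cast f2
    have g3 : 2 * (a : ℝ) + b ≤ Q := by rw [hQ]; exact_mod_cast f3
    have key : (2 * x + y) * a + (x + 2 * y) * b < Q ∧
        (2 * x + y) * (a - 1) + (x + 2 * y) * b < Q - 1 := by
      rcases le_or_gt 0 y with hy | hy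
      · have c0 : 0 < 1 - x - y := by linarith
        have m0 := mul_nonneg c0.le (sub_nonneg.2 g0)
        have m1 := mul_nonneg h1.le (sub_nonneg.2 g3)
        have m2 := mul_nonneg hy (sub_nonneg.2 g2)
        have e1 : Q - ((2 * x + y) * a + (x + 2 * y) * b) =
            (1 - x - y) * (Q - 1) + x * (Q - (2 * a + b)) + y * (Q - (a + 2 * b)) +
            (1 - x - y) := by ring
        have e2 : Q - 1 - ((2 * x + y) * (a - 1) + (x + 2 * y) * b) =
            (1 - x - y) * (Q - 1) + x * (Q - (2 * a + b)) + y * (Q - (a + 2 * b)) + x := by ring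
        exact ⟨by linarith, by linarith⟩
      · have c0 : 0 < 1 - x + y := by linarith
        have m0 := mul_nonneg c0.le (sub_nonneg.2 g0)
        have m1 := mul_nonneg h4.le (sub_nonneg.2 g3)
        have m2 := mul_nonneg (show (0 : ℝ) ≤ -3 * y by linarith) (sub_nonneg.2 g1)
        have e1 : Q - ((2 * x + y) * a + (x + 2 * y) * b) =
            (1 - x + y) * (Q - 1) + (x + 2 * y) * (Q - (2 * a + b)) + -3 * y * (Q - a) +
            (1 - x + y) := by ring
        have e2 : Q - 1 - ((2 * x + y) * (a - 1) + (x + 2 * y) * b) =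
            (1 - x + y) * (Q - 1) + (x + 2 * y) * (Q - (2 * a + b)) + -3 * y * (Q - a) +
            (x + 2 * y) := by ring
        exact ⟨by linarith, by linarith⟩
    obtain ⟨r1, r2⟩ := key
    rw [hQ] at r1 r2
    push_cast
    constructor <;> nlinarith

theorem CellK_transport (e : ZMod 6) (he : ek e = true) (p : V) :
    CellK_P (hexDir e) ((hexMat (aK e)).ap p) ↔ CellK_P (hexDir 0) p := by
  have hdir : hexDir e = (hexMat (aK e)).apZ (hexDir 0) := by
    have h := gridHex.mat_dir (aK e) 0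
    rw [act_aK] at h
    exact h.symm
  have hlin : linv (aK e) = aK e := linv_aK he
  have hv1 : ∀ z : Z2, VK z → VK ((hexMat (aK e)).apZ z) := by
    intro z hz
    have h := VK_mv (okK_aK he) hz
    unfold mvR at h
    rwa [zero_add] at h
  have hv2 : ∀ z : Z2, VK ((hexMat (aK e)).apZ z) → VK z := by
    intro z hz
    have h := hv1 _ hz
    have h2 := gridHex.apZ_linv_apZ (aK e) z
    rw [hlin] at h2
    have h3 : (hexMat (aK e)).apZ ((hexMat (aK e)).apZ z) = z := h2
    rwa [h3] at h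
  have hnorm : ∀ z : Z2, ‖hexF ((hexMat (aK e)).ap p - toV ((hexMat (aK e)).apZ z))‖ =
      ‖hexF (p - toV z)‖ := by
    intro z
    rw [toV_apZ, ← Mat.ap_sub, RealHex_inv]
  have hinj : ∀ z z' : Z2, (hexMat (aK e)).apZ z = (hexMat (aK e)).apZ z' → z = z' := by
    intro z z' h
    have h1 := congrArg (gridHex.mat (linv (aK e))).apZ h
    have h2 := gridHex.apZ_linv_apZ (aK e) z
    have h3 := gridHex.apZ_linv_apZ (aK e) z'
    exact h2.symm.trans (h1.trans h3)
  constructor
  · intro h z hc hz hz0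
    have h1 := h ((hexMat (aK e)).apZ z) (hv1 z hc) (by
      intro h2
      apply hz
      apply hinj
      rw [h2, Mat.apZ_zero]) (by
      intro h2
      rw [hdir] at h2
      exact hz0 (hinj _ _ h2))
    rw [hdir, hnorm, hnorm, RealHex_inv] at h1
    exact h1
  · intro h z hc hz hz0
    obtain ⟨z', rfl⟩ : ∃ z', z = (hexMat (aK e)).apZ z' :=
      ⟨_, (gridHex.apZ_apZ_linv (aK e) z).symm⟩
    have h1 := h z' (hv2 z' hc) (by
      rintro rfl
      apply hz
      rw [Mat.apZ_zero]) (by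
      rintro rfl
      exact hz0 hdir.symm)
    rw [hdir, hnorm, hnorm, RealHex_inv]
    exact h1

theorem kag_cell2 (e : ZMod 6) (he : ek e = true) :
    Cell RhombusCentres (hexF (toV (hexDir e))) = hexF '' UK e := by
  rw [CellK_cell]
  congr 1
  ext p
  constructor
  · intro h
    have h1 : (hexMat (aK e)).ap ((gridTri.mat (linv (aK e))).ap p) = p :=
      gridTri.ap_ap_linv (aK e) p
    refine ⟨(gridTri.mat (linv (aK e))).ap p, ?_, h1⟩
    have h2 : CellK_P (hexDir e) p := h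
    rw [← h1, CellK_transport e he, CellK_P_zero] at h2
    exact h2
  · rintro ⟨q, hq, rfl⟩
    have h2 : q ∈ kagU0 := hq
    rw [← CellK_P_zero, ← CellK_transport e he] at h2
    exact h2

end Pool.H3JG
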