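import Pool.Agent.Helper3.JK.RelK

/-!
# Jigsaw tiles on the rhombille tiling: separation and covering

Coordinates `(x, y)` of the fine hexagonal lattice; the places are the points of the fine lattice not
congruent to `(0, 1)` modulo `2` (vertices of the kagome tiling; the points congruent to `(0, 1)` are
the centres of the hexagons). `kagU0 = {0 < x, x + y < 1, x - y < 1, 0 < x + 2y}` is a kite with
vertices `0, (0, 1), (1, 0), (2/3, -1/3)` between the places `0` and `(1, 0)`.

`kag_sep`: transport to `z = 0`, `a = (0, false)`, `i = 0` by the inverse of `pl z (lmul a (aK i))`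
(`okK_inv`, `okK_mul`, `okK_aK`). For `p ∈ kagU0` and a copy at `w` with label `b` allowed at `w`: `p` is
in `pl w b` of a closed kite `(hexMat (aK k)).ap '' kagD0`, that is in `pl w c '' kagD0` with `c`
allowed at `w` (`c = lmul b (aK k)`): for each of the twelve `c` two linear forms of `w` are in open
intervals of length at most three, which leaves finitely many `w`; the condition `OkK w c` kills all
but `w = 0` and `w = (1, 0)`. Compare `tri_sep` in `JT/SepT.lean`.

`kag_cover`: with `z0 = (⌊x⌋, ⌊x + y⌋ - ⌊x⌋)` the point `p - z0` is in `0 ≤ x ≤ 1, 0 ≤ x + y ≤ 1`; or use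
the six forms: every point is in a closed unit triangle of the fine lattice, which is either a triangle
of the kagome tiling (three places, no hexagon centre: split it by its three medians, each part is in
a closed kite) or contains a hexagon centre `h` as a vertex (then it is contained in the closed kite of
the edge opposite to `h`). Compare `tri_cover` in `JT/SepT.lean`.
-/

namespace Pool.H3JG

open Set

theorem SepK_ok {m n : ℤ} {c : Lab 6} (h : OkK (m, n) c) :
    (m + (hexDir (act c 1)).1) % 2 = 0 ∧ (n + (hexDir (act c 1)).2) % 2 = 1 := by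
  have h1 : ¬ VK ((m, n) + hexDir (act c 1)) := by
    intro h2
    apply h2
    rw [kap_add]
    exact h
  rw [VK_iff, not_not] at h1
  exact h1

theorem SepK_cases (c : Lab 6) : c = (0, false) ∨ c = (1, false) ∨ c = (2, false) ∨
    c = (3, false) ∨ c = (4, false) ∨ c = (5, false) ∨ c = (0, true) ∨ c = (1, true) ∨
    c = (2, true) ∨ c = (3, true) ∨ c = (4, true) ∨ c = (5, true) := by
  revert c
  decide

theorem SepK_core {u v s t : ℝ} (hq : ((u, v) : V) ∈ kagU0) (hy : ((s, t) : V) ∈ kagD0)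
    {m n : ℤ} {c : Lab 6} (hc : OkK (m, n) c)
    (he : ((u, v) : V) = toV (m, n) + (hexMat c).ap (s, t)) :
    (m = 0 ∧ n = 0) ∨ (m = 1 ∧ n = 0) := by
  obtain ⟨hm, hn⟩ := SepK_ok hc
  obtain ⟨h1, h2, h3, h4⟩ := hq
  obtain ⟨k1, k2, k3, k4⟩ := hy
  simp only at h1 h2 h3 h4 k1 k2 k3 k4
  have he1 : u = (m : ℝ) + (((hexMat c).a : ℝ) * s + ((hexMat c).b : ℝ) * t) :=
    congrArg Prod.fst he
  have he2 : v = (n : ℝ) + (((hexMat c).c : ℝ) * s + ((hexMat c).d : ℝ) * t) :=
    congrArg Prod.snd he
  clear he hc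
  rcases SepK_cases c with rfl | rfl | rfl | rfl | rfl | rfl | rfl | rfl | rfl | rfl | rfl | rfl
  · rw [show hexMat (0, false) = ⟨1, 0, 0, 1⟩ from rfl] at he1 he2
    rw [show hexDir (act ((0, false) : Lab 6) 1) = (0, 1) from by decide] at hm hn
    simp only at he1 he2 hm hn
    push_cast at he1 he2
    have e1 : -2 < m + 2 * n := by
      exact_mod_cast (by linarith : (-2 : ℝ) < (m : ℝ) + 2 * n)
    have e2 : m + 2 * n < 2 := by
      exact_mod_cast (by linarith : (m : ℝ) + 2 * n < (2 : ℝ))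
    have e3 : -2 < 2 * m + n := by
      exact_mod_cast (by linarith : (-2 : ℝ) < 2 * (m : ℝ) + n)
    have e4 : 2 * m + n < 2 := by
      exact_mod_cast (by linarith : 2 * (m : ℝ) + n < (2 : ℝ))
    omega
  · rw [show hexMat (1, false) = ⟨0, -1, 1, 1⟩ from rfl] at he1 he2
    rw [show hexDir (act ((1, false) : Lab 6) 1) = (-1, 1) from by decide] at hm hn
    simp only at he1 he2 hm hn
    push_cast at he1 he2
    have e1 : m + n < 1 := by
      exact_mod_cast (by linarith : (m : ℝ) + n < (1 : ℝ))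
    have e2 : -2 < m + 2 * n := by
      exact_mod_cast (by linarith : (-2 : ℝ) < (m : ℝ) + 2 * n)
    have e3 : -1 < 2 * m + n := by
      exact_mod_cast (by linarith : (-1 : ℝ) < 2 * (m : ℝ) + n)
    omega
  · rw [show hexMat (2, false) = ⟨-1, -1, 1, 0⟩ from rfl] at he1 he2
    rw [show hexDir (act ((2, false) : Lab 6) 1) = (-1, 0) from by decide] at hm hn
    simp only at he1 he2 hm hn
    push_cast at he1 he2
    have e1 : -1 < m + 2 * n := by
      exact_mod_cast (by linarith : (-1 : ℝ) < (m : ℝ) + 2 * n)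
    have e2 : m + 2 * n < 3 := by
      exact_mod_cast (by linarith : (m : ℝ) + 2 * n < (3 : ℝ))
    have e3 : 0 < 2 * m + n := by
      exact_mod_cast (by linarith : (0 : ℝ) < 2 * (m : ℝ) + n)
    have e4 : 2 * m + n < 4 := by
      exact_mod_cast (by linarith : 2 * (m : ℝ) + n < (4 : ℝ))
    omega
  · rw [show hexMat (3, false) = ⟨-1, 0, 0, -1⟩ from rfl] at he1 he2
    rw [show hexDir (act ((3, false) : Lab 6) 1) = (0, -1) from by decide] at hm hn
    simp only at he1 he2 hm hn
    push_cast at he1 he2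
    have e1 : 0 < m + 2 * n := by
      exact_mod_cast (by linarith : (0 : ℝ) < (m : ℝ) + 2 * n)
    have e2 : m + 2 * n < 4 := by
      exact_mod_cast (by linarith : (m : ℝ) + 2 * n < (4 : ℝ))
    have e3 : 0 < 2 * m + n := by
      exact_mod_cast (by linarith : (0 : ℝ) < 2 * (m : ℝ) + n)
    have e4 : 2 * m + n < 4 := by
      exact_mod_cast (by linarith : 2 * (m : ℝ) + n < (4 : ℝ))
    omega
  · rw [show hexMat (4, false) = ⟨0, 1, -1, -1⟩ from rfl] at he1 he2
    rw [show hexDir (act ((4, false) : Lab 6) 1) = (1, -1) from by decide] at hm hn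
    simp only at he1 he2 hm hn
    push_cast at he1 he2
    have e1 : -3 < m - n := by
      exact_mod_cast (by linarith : (-3 : ℝ) < (m : ℝ) - n)
    have e2 : m - n < 1 := by
      exact_mod_cast (by linarith : (m : ℝ) - n < (1 : ℝ))
    have e3 : -1 < 2 * m + n := by
      exact_mod_cast (by linarith : (-1 : ℝ) < 2 * (m : ℝ) + n)
    have e4 : 2 * m + n < 3 := by
      exact_mod_cast (by linarith : 2 * (m : ℝ) + n < (3 : ℝ))
    omega
  · rw [show hexMat (5, false) = ⟨1, 1, -1, 0⟩ from rfl] at he1 he2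
    rw [show hexDir (act ((5, false) : Lab 6) 1) = (1, 0) from by decide] at hm hn
    simp only at he1 he2 hm hn
    push_cast at he1 he2
    have e1 : -1 < m := by
      exact_mod_cast (by linarith : (-1 : ℝ) < (m : ℝ))
    have e2 : -1 < m + 2 * n := by
      exact_mod_cast (by linarith : (-1 : ℝ) < (m : ℝ) + 2 * n)
    have e3 : 2 * m + n < 2 := by
      exact_mod_cast (by linarith : 2 * (m : ℝ) + n < (2 : ℝ))
    omega
  · rw [show hexMat (0, true) = ⟨1, 1, 0, -1⟩ from rfl] at he1 he2
    rw [show hexDir (act ((0, true) : Lab 6) 1) = (1, -1) from by decide] at hm hn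
    simp only at he1 he2 hm hn
    push_cast at he1 he2
    have e1 : -1 < m + 2 * n := by
      exact_mod_cast (by linarith : (-1 : ℝ) < (m : ℝ) + 2 * n)
    have e2 : m + 2 * n < 3 := by
      exact_mod_cast (by linarith : (m : ℝ) + 2 * n < (3 : ℝ))
    have e3 : -2 < 2 * m + n := by
      exact_mod_cast (by linarith : (-2 : ℝ) < 2 * (m : ℝ) + n)
    have e4 : 2 * m + n < 2 := by
      exact_mod_cast (by linarith : 2 * (m : ℝ) + n < (2 : ℝ))
    omega
  · rw [show hexMat (1, true) = ⟨0, 1, 1, 0⟩ from rfl] at he1 he2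
    rw [show hexDir (act ((1, true) : Lab 6) 1) = (1, 0) from by decide] at hm hn
    simp only at he1 he2 hm hn
    push_cast at he1 he2
    have e1 : -2 < m - n := by
      exact_mod_cast (by linarith : (-2 : ℝ) < (m : ℝ) - n)
    have e2 : m - n < 2 := by
      exact_mod_cast (by linarith : (m : ℝ) - n < (2 : ℝ))
    have e3 : -2 < 2 * m + n := by
      exact_mod_cast (by linarith : (-2 : ℝ) < 2 * (m : ℝ) + n)
    have e4 : 2 * m + n < 2 := by
      exact_mod_cast (by linarith : 2 * (m : ℝ) + n < (2 : ℝ))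
    omega
  · rw [show hexMat (2, true) = ⟨-1, 0, 1, 1⟩ from rfl] at he1 he2
    rw [show hexDir (act ((2, true) : Lab 6) 1) = (0, 1) from by decide] at hm hn
    simp only at he1 he2 hm hn
    push_cast at he1 he2
    have e1 : 0 < m := by
      exact_mod_cast (by linarith : (0 : ℝ) < (m : ℝ))
    have e2 : -2 < m + 2 * n := by
      exact_mod_cast (by linarith : (-2 : ℝ) < (m : ℝ) + 2 * n)
    have e3 : 2 * m + n < 3 := by
      exact_mod_cast (by linarith : 2 * (m : ℝ) + n < (3 : ℝ))
    omega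
  · rw [show hexMat (3, true) = ⟨-1, -1, 0, 1⟩ from rfl] at he1 he2
    rw [show hexDir (act ((3, true) : Lab 6) 1) = (-1, 1) from by decide] at hm hn
    simp only at he1 he2 hm hn
    push_cast at he1 he2
    have e1 : -1 < m + 2 * n := by
      exact_mod_cast (by linarith : (-1 : ℝ) < (m : ℝ) + 2 * n)
    have e2 : m + 2 * n < 3 := by
      exact_mod_cast (by linarith : (m : ℝ) + 2 * n < (3 : ℝ))
    have e3 : 0 < 2 * m + n := by
      exact_mod_cast (by linarith : (0 : ℝ) < 2 * (m : ℝ) + n)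
    have e4 : 2 * m + n < 4 := by
      exact_mod_cast (by linarith : 2 * (m : ℝ) + n < (4 : ℝ))
    omega
  · rw [show hexMat (4, true) = ⟨0, -1, -1, 0⟩ from rfl] at he1 he2
    rw [show hexDir (act ((4, true) : Lab 6) 1) = (-1, 0) from by decide] at hm hn
    simp only at he1 he2 hm hn
    push_cast at he1 he2
    have e1 : m + n < 2 := by
      exact_mod_cast (by linarith : (m : ℝ) + n < (2 : ℝ))
    have e2 : 0 < m + 2 * n := by
      exact_mod_cast (by linarith : (0 : ℝ) < (m : ℝ) + 2 * n)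
    have e3 : 0 < 2 * m + n := by
      exact_mod_cast (by linarith : (0 : ℝ) < 2 * (m : ℝ) + n)
    omega
  · rw [show hexMat (5, true) = ⟨1, 0, -1, -1⟩ from rfl] at he1 he2
    rw [show hexDir (act ((5, true) : Lab 6) 1) = (0, -1) from by decide] at hm hn
    simp only at he1 he2 hm hn
    push_cast at he1 he2
    have e1 : 0 < m + 2 * n := by
      exact_mod_cast (by linarith : (0 : ℝ) < (m : ℝ) + 2 * n)
    have e2 : m + 2 * n < 4 := by
      exact_mod_cast (by linarith : (m : ℝ) + 2 * n < (4 : ℝ))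
    have e3 : -1 < 2 * m + n := by
      exact_mod_cast (by linarith : (-1 : ℝ) < 2 * (m : ℝ) + n)
    have e4 : 2 * m + n < 3 := by
      exact_mod_cast (by linarith : 2 * (m : ℝ) + n < (3 : ℝ))
    omega

theorem SepK_inv {k : ZMod 6} (hk : ek k = true) (x : V) :
    (hexMat (aK k)).ap ((hexMat (aK k)).ap x) = x := by
  have h := gridTri.ap_linv_ap (aK k) x
  rw [linv_aK hk] at h
  exact h

theorem SepK_zero {x : V} (hx : x ∈ kagB) {q : V} (hq : q ∈ kagU0) {w : Z2} {b : Lab 6}
    (hb : OkK w b) (he : q = toV w + (hexMat b).ap x) : w = 0 ∨ w = hexDir 0 := by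
  obtain ⟨k, hk, hy⟩ := hx
  have hc : OkK w (lmul b (aK k)) := by
    have h := okK_mul hb (okK_aK hk)
    have h0 : mvR hexMat w b 0 = w := by
      unfold mvR
      rw [Mat.apZ_zero, add_zero]
    rw [h0] at h
    exact h
  have he2 : q = toV w + (hexMat (lmul b (aK k))).ap ((hexMat (aK k)).ap x) := by
    rw [GridHex_mul, Mat.ap_mul, SepK_inv hk]
    exact he
  obtain ⟨m, n⟩ := w
  obtain ⟨u, v⟩ := q
  obtain ⟨y, hy0⟩ : ∃ y, y = (hexMat (aK k)).ap x := ⟨_, rfl⟩
  rw [← hy0] at hy he2
  obtain ⟨s, t⟩ := y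
  rcases SepK_core hq hy hc he2 with ⟨e1, e2⟩ | ⟨e1, e2⟩
  · left
    exact Prod.ext e1 e2
  · right
    rw [show hexDir 0 = (1, 0) from rfl]
    exact Prod.ext e1 e2

theorem kag_sep {T : Set V} (hB : T ⊆ kagB) {z : Z2} {a : Lab 6} (ha : OkK z a) {i : ZMod 6}
    (hi : ek i = true) {p : V} (hp : p ∈ gridTri.pl z a '' UK i) {w : Z2} {b : Lab 6}
    (hb : OkK w b) (hw : p ∈ gridTri.tile T w b) : w = z ∨ w = z + hexDir (act a i) := by
  obtain ⟨q', ⟨q, hq, rfl⟩, hqp⟩ := hp
  obtain ⟨x, hxT, hxp⟩ := hw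
  have hc : OkK z (lmul a (aK i)) := by
    have h := okK_mul ha (okK_aK hi)
    have h0 : mvR hexMat z a 0 = z := by
      unfold mvR
      rw [Mat.apZ_zero, add_zero]
    rw [h0] at h
    exact h
  obtain ⟨c, hcd⟩ : ∃ c, c = lmul a (aK i) := ⟨_, rfl⟩
  rw [← hcd] at hc
  have hpq : p = toV z + (hexMat c).ap q := by
    rw [← hqp, hcd, GridHex_mul, Mat.ap_mul]
    rfl
  have hpx : p = toV w + (hexMat b).ap x := by
    rw [← hxp]
    rfl
  have hok : OkK (mvR hexMat (-((hexMat (linv c)).apZ z)) (linv c) w) (lmul (linv c) b) :=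
    okK_mul (okK_inv hc) hb
  have hq2 : q = toV (mvR hexMat (-((hexMat (linv c)).apZ z)) (linv c) w) +
      (hexMat (lmul (linv c) b)).ap x := by
    have h1 : (hexMat (linv c)).ap p = (hexMat (linv c)).ap (toV z) + q := by
      rw [hpq, Mat.ap_add]
      congr 1
      exact gridTri.ap_linv_ap c q
    have h2 : (hexMat (linv c)).ap p = (hexMat (linv c)).ap (toV w) +
        (hexMat (lmul (linv c) b)).ap x := by
      rw [hpx, Mat.ap_add, GridHex_mul, Mat.ap_mul]
    unfold mvR
    rw [toV_add, toV_neg, toV_apZ, toV_apZ, add_assoc, ← h2, h1, neg_add_cancel_left]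
  have hback : (hexMat c).apZ (mvR hexMat (-((hexMat (linv c)).apZ z)) (linv c) w) = -z + w := by
    unfold mvR
    rw [Mat.apZ_add, Mat.apZ_neg]
    have h1 : (hexMat c).apZ ((hexMat (linv c)).apZ z) = z := gridTri.apZ_apZ_linv c z
    have h2 : (hexMat c).apZ ((hexMat (linv c)).apZ w) = w := gridTri.apZ_apZ_linv c w
    rw [h1, h2]
  have hwz : w = z + (hexMat c).apZ (mvR hexMat (-((hexMat (linv c)).apZ z)) (linv c) w) := by
    rw [hback, add_neg_cancel_left]
  rcases SepK_zero (hB hxT) hq hok hq2 with h | h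
  · left
    rw [h, Mat.apZ_zero, add_zero] at hwz
    exact hwz
  · right
    rw [h] at hwz
    have h3 : (hexMat c).apZ (hexDir 0) = hexDir (act c 0) := gridTri.mat_dir c 0
    have h4 : act c 0 = act a i := by
      rw [hcd, act_lmul, act_aK]
    rw [h3, h4] at hwz
    exact hwz

theorem SepK_closure : kagD0 ⊆ closure kagU0 := by
  rintro ⟨x, y⟩ ⟨h1, h2, h3, h4⟩
  simp only at h1 h2 h3 h4
  have hc : Continuous (fun t : ℝ => (((1 - t) * x + t * (1 / 2), (1 - t) * y) : V)) := by
    fun_prop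
  have h0 := hc.tendsto 0
  have e0 : (((1 - 0) * x + 0 * (1 / 2), (1 - 0) * y) : V) = (x, y) :=
    Prod.ext (by simp) (by simp)
  rw [e0] at h0
  refine mem_closure_of_tendsto (h0.mono_left (nhdsWithin_le_nhds (s := Ioi (0 : ℝ)))) ?_
  filter_upwards [Ioo_mem_nhdsGT (zero_lt_one (α := ℝ))] with t ht
  obtain ⟨t0, t1⟩ := ht
  have t1' : 0 ≤ 1 - t := by linarith
  have a1 := mul_nonneg t1' h1
  have a2 := mul_nonneg t1' (sub_nonneg.2 h2)
  have a3 := mul_nonneg t1' (sub_nonneg.2 h3)
  have a4 := mul_nonneg t1' h4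
  refine ⟨?_, ?_, ?_, ?_⟩ <;> simp only <;> nlinarith

theorem SepK_UK0 : UK 0 = kagU0 := by
  have h0 : aK 0 = (0, false) := by decide
  unfold UK
  rw [h0]
  ext p
  constructor
  · rintro ⟨q, hq, rfl⟩
    rw [GridHex_m0]
    exact hq
  · intro hp
    refine ⟨p, hp, ?_⟩
    rw [GridHex_m0]

theorem kag_cover (p : V) : ∃ z : Z2, ∃ a : Lab 6, OkK z a ∧ ∃ i : ZMod 6, ek i = true ∧
    ∃ q ∈ closure (UK i), p = gridTri.pl z a q := by
  obtain ⟨x, y⟩ := p
  have a1 := Int.floor_le x
  have a2 := Int.lt_floor_add_one x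
  have b1 := Int.floor_le y
  have b2 := Int.lt_floor_add_one y
  obtain ⟨m, hm⟩ : ∃ m : ℤ, m = ⌊x⌋ := ⟨_, rfl⟩
  obtain ⟨n, hn⟩ : ∃ n : ℤ, n = ⌊y⌋ := ⟨_, rfl⟩
  rw [← hm] at a1 a2
  rw [← hn] at b1 b2
  have step : ∀ (z : Z2) (i : ZMod 6), OkK z (i, false) →
      (hexMat (linv (i, false))).ap ((x, y) - toV z) ∈ kagD0 →
      ∃ z : Z2, ∃ a : Lab 6, OkK z a ∧ ∃ i : ZMod 6, ek i = true ∧
        ∃ q ∈ closure (UK i), ((x, y) : V) = gridTri.pl z a q := by
    intro z i hz h
    refine ⟨z, (i, false), hz, 0, by decide,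
      (hexMat (linv (i, false))).ap ((x, y) - toV z), ?_, ?_⟩
    · rw [SepK_UK0]
      exact SepK_closure h
    · have h1 : (hexMat (i, false)).ap ((hexMat (linv (i, false))).ap ((x, y) - toV z)) =
          (x, y) - toV z := gridTri.ap_ap_linv (i, false) _
      show ((x, y) : V) = toV z +
        (hexMat (i, false)).ap ((hexMat (linv (i, false))).ap ((x, y) - toV z))
      rw [h1]
      exact (add_sub_cancel (toV z) ((x, y) : V)).symm
  have l0 : linv ((0, false) : Lab 6) = (0, false) := by decide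
  have l1 : linv ((1, false) : Lab 6) = (5, false) := by decide
  have l2 : linv ((2, false) : Lab 6) = (4, false) := by decide
  have l3 : linv ((3, false) : Lab 6) = (3, false) := by decide
  have l4 : linv ((4, false) : Lab 6) = (2, false) := by decide
  have l5 : linv ((5, false) : Lab 6) = (1, false) := by decide
  have hkap : kap (m, n) = (0, 0) ∨ kap (m, n) = (0, 1) ∨ kap (m, n) = (1, 0) ∨
      kap (m, n) = (1, 1) := by
    have key : ∀ c : ZMod 2 × ZMod 2, c = (0, 0) ∨ c = (0, 1) ∨ c = (1, 0) ∨ c = (1, 1) := by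
      decide
    exact key _
  rcases hkap with hk | hk | hk | hk
  · rcases le_total ((x - m) + (y - n)) 1 with hh | hh
    · refine step (m, n) 0 (by unfold OkK; rw [hk]; decide) ?_
      rw [l0, GridHex_m0]
      simp only [toV, Prod.mk_sub_mk]
      refine ⟨?_, ?_, ?_, ?_⟩ <;> simp only <;> linarith
    · refine step ((m, n) + (1, 0)) 1 (by unfold OkK; rw [kap_add, hk]; decide) ?_
      rw [l1, GridHex_m5]
      simp only [toV, Prod.mk_sub_mk, Prod.mk_add_mk]
      push_cast
      refine ⟨?_, ?_, ?_, ?_⟩ <;> simp only <;> linarith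
  · rcases le_total ((x - m) + (y - n)) 1 with hh | hh
    · refine step ((m, n) + (1, 0)) 2 (by unfold OkK; rw [kap_add, hk]; decide) ?_
      rw [l2, GridHex_m4]
      simp only [toV, Prod.mk_sub_mk, Prod.mk_add_mk]
      push_cast
      refine ⟨?_, ?_, ?_, ?_⟩ <;> simp only <;> linarith
    · rcases le_total (1 - (y - n)) (1 - (x - m)) with j1 | j1
      · rcases le_total (1 - (y - n)) ((x - m) + (y - n) - 1) with j2 | j2
        · refine step ((m, n) + (0, 1)) 0 (by unfold OkK; rw [kap_add, hk]; decide) ?_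
          rw [l0, GridHex_m0]
          simp only [toV, Prod.mk_sub_mk, Prod.mk_add_mk]
          push_cast
          refine ⟨?_, ?_, ?_, ?_⟩ <;> simp only <;> linarith
        · refine step ((m, n) + (1, 0)) 2 (by unfold OkK; rw [kap_add, hk]; decide) ?_
          rw [l2, GridHex_m4]
          simp only [toV, Prod.mk_sub_mk, Prod.mk_add_mk]
          push_cast
          refine ⟨?_, ?_, ?_, ?_⟩ <;> simp only <;> linarith
      · rcases le_total (1 - (x - m)) ((x - m) + (y - n) - 1) with j2 | j2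
        · refine step ((m, n) + (1, 1)) 4 (by unfold OkK; rw [kap_add, hk]; decide) ?_
          rw [l4, GridHex_m2]
          simp only [toV, Prod.mk_sub_mk, Prod.mk_add_mk]
          push_cast
          refine ⟨?_, ?_, ?_, ?_⟩ <;> simp only <;> linarith
        · refine step ((m, n) + (1, 0)) 2 (by unfold OkK; rw [kap_add, hk]; decide) ?_
          rw [l2, GridHex_m4]
          simp only [toV, Prod.mk_sub_mk, Prod.mk_add_mk]
          push_cast
          refine ⟨?_, ?_, ?_, ?_⟩ <;> simp only <;> linarith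
  · rcases le_total ((x - m) + (y - n)) 1 with hh | hh
    · rcases le_total (1 - (x - m) - (y - n)) (x - m) with j1 | j1
      · rcases le_total (1 - (x - m) - (y - n)) (y - n) with j2 | j2
        · refine step ((m, n) + (0, 1)) 5 (by unfold OkK; rw [kap_add, hk]; decide) ?_
          rw [l5, GridHex_m1]
          simp only [toV, Prod.mk_sub_mk, Prod.mk_add_mk]
          push_cast
          refine ⟨?_, ?_, ?_, ?_⟩ <;> simp only <;> linarith
        · refine step ((m, n) + (1, 0)) 3 (by unfold OkK; rw [kap_add, hk]; decide) ?_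
          rw [l3, GridHex_m3]
          simp only [toV, Prod.mk_sub_mk, Prod.mk_add_mk]
          push_cast
          refine ⟨?_, ?_, ?_, ?_⟩ <;> simp only <;> linarith
      · rcases le_total (x - m) (y - n) with j2 | j2
        · refine step (m, n) 1 (by unfold OkK; rw [hk]; decide) ?_
          rw [l1, GridHex_m5]
          simp only [toV, Prod.mk_sub_mk]
          refine ⟨?_, ?_, ?_, ?_⟩ <;> simp only <;> linarith
        · refine step ((m, n) + (1, 0)) 3 (by unfold OkK; rw [kap_add, hk]; decide) ?_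
          rw [l3, GridHex_m3]
          simp only [toV, Prod.mk_sub_mk, Prod.mk_add_mk]
          push_cast
          refine ⟨?_, ?_, ?_, ?_⟩ <;> simp only <;> linarith
    · refine step ((m, n) + (0, 1)) 5 (by unfold OkK; rw [kap_add, hk]; decide) ?_
      rw [l5, GridHex_m1]
      simp only [toV, Prod.mk_sub_mk, Prod.mk_add_mk]
      push_cast
      refine ⟨?_, ?_, ?_, ?_⟩ <;> simp only <;> linarith
  · rcases le_total ((x - m) + (y - n)) 1 with hh | hh
    · refine step ((m, n) + (0, 1)) 4 (by unfold OkK; rw [kap_add, hk]; decide) ?_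
      rw [l4, GridHex_m2]
      simp only [toV, Prod.mk_sub_mk, Prod.mk_add_mk]
      push_cast
      refine ⟨?_, ?_, ?_, ?_⟩ <;> simp only <;> linarith
    · refine step ((m, n) + (1, 1)) 3 (by unfold OkK; rw [kap_add, hk]; decide) ?_
      rw [l3, GridHex_m3]
      simp only [toV, Prod.mk_sub_mk, Prod.mk_add_mk]
      push_cast
      refine ⟨?_, ?_, ?_, ?_⟩ <;> simp only <;> linarith

end Pool.H3JG
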