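import Pool.Agent.Helper3.JK.CellK
import Pool.Agent.Helper3.JK.SepK

/-!
# Jigsaw tiles on the rhombille tiling: order two cells are at the edges

Copy of `JT/CellT1.lean`: `kag_cover` gives `p = pl z a q`, `q ∈ closure (UK i)`; by `kag_cell2` and
continuity `0` and `hexDir i` are weakly nearest to `q`; the map `pl z a` preserves the set of the
places and the distances (`VK_mv`, `okK_inv`, `RealHex_inv`), so `z` and `z + hexDir (act a i)` are
weakly nearest to `p`; strictness in `Cell` forces `{z, z + hexDir (act a i)} = {0, w}`. If `z = 0` the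
cell is `(hexMat a).ap '' UK i = UK (act a i)` (`UK_act`) and `w = hexDir (act a i)`, then `kag_cell2`.
If `z = w` and `z + hexDir (act a i) = 0` then `w = hexDir e` with `e = act a i + 3`, `ek e = true` by
`nbK_iff` at the place `0`, then `kag_cell2` again.
-/

namespace Pool.H3JG

open Set

/-- the order two cell in lattice coordinates -/
private def CellK1_P (w : Z2) (p : V) : Prop :=
  ∀ z : Z2, VK z → z ≠ 0 → z ≠ w →
    ‖hexF p‖ < ‖hexF (p - toV z)‖ ∧ ‖hexF (p - toV w)‖ < ‖hexF (p - toV z)‖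

private theorem CellK1_cell (w : Z2) : Cell RhombusCentres (hexF (toV w)) =
    hexF '' {p | CellK1_P w p} := by
  ext e
  obtain ⟨p, rfl⟩ := RealHex_F.surjective e
  rw [CellT_mem, rhombusCentres_eq]
  constructor
  · intro h z hc hz hzw
    have h1 := h (hexF (toV z)) ⟨z, hc, rfl⟩ (by
      intro h2
      apply hz
      apply CellHex_toV_inj
      rw [h2, toV_zero, CellHex_hexF_zero]) (fun h2 => hzw (CellHex_toV_inj h2))
    rw [RealHex_sub, RealHex_sub]
    exact h1
  · rintro h _ ⟨z, hc, rfl⟩ hz hzw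
    have h1 := h z hc (by
      rintro rfl
      apply hz
      simp only
      rw [toV_zero, CellHex_hexF_zero]) (by
      rintro rfl
      exact hzw rfl)
    rw [RealHex_sub, RealHex_sub] at h1
    exact h1

private theorem CellK1_weak {i : ZMod 6} (hi : ek i = true) {q : V}
    (hq : q ∈ closure (UK i)) (z : Z2) (hz : VK z) (h0 : z ≠ 0) (hi2 : z ≠ hexDir i) :
    ‖hexF q‖ ≤ ‖hexF (q - toV z)‖ ∧ ‖hexF (q - toV (hexDir i))‖ ≤ ‖hexF (q - toV z)‖ := by
  have hc : Continuous hexF := RealHex_F.continuous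
  have hcl : IsClosed ({q : V | ‖hexF q‖ ≤ ‖hexF (q - toV z)‖} ∩
      {q : V | ‖hexF (q - toV (hexDir i))‖ ≤ ‖hexF (q - toV z)‖}) := by
    refine IsClosed.inter (isClosed_le ?_ ?_) (isClosed_le ?_ ?_) <;> fun_prop
  have h := closure_minimal (fun p hp => ?_) hcl hq
  · exact h
  · have h1 : CellK1_P (hexDir i) p := by
      have h2 : hexF p ∈ Cell RhombusCentres (hexF (toV (hexDir i))) := by
        rw [kag_cell2 i hi]
        exact ⟨p, hp, rfl⟩
      rw [CellK1_cell] at h2
      exact (CellT_mem p _).1 h2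
    have h3 := h1 z hz h0 hi2
    exact ⟨h3.1.le, h3.2.le⟩

private theorem CellK1_neg : ∀ d : ZMod 6, hexDir (d + 3) = -hexDir d := by
  decide

theorem kag_cell1 {w : E} (hw : w ∈ RhombusCentres) (h0 : w ≠ 0) :
    Cell RhombusCentres w ⊆ ⋃ e ∈ {e : ZMod 6 | ek e = true}, hexF '' UK e := by
  rw [rhombusCentres_eq] at hw
  obtain ⟨w', hw', rfl⟩ := hw
  have hw'' : VK w' := hw'
  intro x hx
  have hx0 := hx
  simp only at hx
  rw [CellK1_cell] at hx
  obtain ⟨p, hp, rfl⟩ := hx
  have hP : CellK1_P w' p := hp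
  have hw0 : w' ≠ 0 := by
    rintro rfl
    apply h0
    simp only
    rw [toV_zero, CellHex_hexF_zero]
  -- it suffices that `w'` is a direction
  have hfin : ∀ e : ZMod 6, w' = hexDir e →
      hexF p ∈ ⋃ e ∈ {e : ZMod 6 | ek e = true}, hexF '' UK e := by
    intro e he
    have h1 : ek e = true := by
      have h2 := (nbK_iff OkK_zero e).1 (by rw [zero_add, ← he]; exact hw'')
      have h3 : act (linv ((0, false) : Lab 6)) e = e := by
        have h4 : ∀ e : ZMod 6, act (linv ((0, false) : Lab 6)) e = e := by decide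
        exact h4 e
      rw [h3] at h2
      exact h2
    simp only at hx0
    rw [he, kag_cell2 e h1] at hx0
    exact mem_iUnion₂.2 ⟨e, h1, hx0⟩
  obtain ⟨z, a, hok, i, hi, q, hq, hpq⟩ := kag_cover p
  have hz2 : VK z := okK_VK hok
  have hmat : (hexMat a).apZ (hexDir i) = hexDir (act a i) := gridHex.mat_dir a i
  have hz12 : VK (z + hexDir (act a i)) := by
    rw [nbK_iff hok, act_linv_act]
    exact hi
  have hdir : ∀ e : ZMod 6, hexDir e ≠ 0 := gridHex.dir_ne
  have hn : ∀ v : Z2, ‖hexF (p - toV (mvR hexMat z a v))‖ = ‖hexF (q - toV v)‖ := by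
    intro v
    have e1 : p - toV (mvR hexMat z a v) = (hexMat a).ap (q - toV v) := by
      rw [hpq, mvR, toV_add, toV_apZ, Mat.ap_sub]
      show toV z + (hexMat a).ap q - _ = _
      abel
    rw [e1, RealHex_inv]
  have hz0 : mvR hexMat z a 0 = z := by
    rw [mvR, Mat.apZ_zero, add_zero]
  have hz1 : mvR hexMat z a (hexDir i) = z + hexDir (act a i) := by
    rw [mvR, hmat]
  have key : ∀ u, VK u → u ≠ z → u ≠ z + hexDir (act a i) →
      ‖hexF (p - toV z)‖ ≤ ‖hexF (p - toV u)‖ ∧
        ‖hexF (p - toV (z + hexDir (act a i)))‖ ≤ ‖hexF (p - toV u)‖ := by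
    intro u hu h1 h2
    obtain ⟨u', hu', hu1⟩ : ∃ u', VK u' ∧ mvR hexMat z a u' = u := by
      refine ⟨_, VK_mv (okK_inv hok) hu, ?_⟩
      have h3 : mvR hexMat (-((hexMat (linv a)).apZ z)) (linv a) u =
          (hexMat (linv a)).apZ (u - z) := by
        rw [mvR]
        simp only [Mat.apZ, Prod.ext_iff, Prod.fst_add, Prod.snd_add, Prod.fst_neg, Prod.snd_neg,
          Prod.fst_sub, Prod.snd_sub]
        constructor <;> ring
      rw [h3, mvR]
      have h4 := gridHex.apZ_apZ_linv a (u - z)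
      have h5 : (hexMat a).apZ ((hexMat (linv a)).apZ (u - z)) = u - z := h4
      rw [h5]
      abel
    have h3 := CellK1_weak hi hq u' hu' (by
      rintro rfl
      exact h1 (hu1.symm.trans hz0)) (by
      rintro rfl
      exact h2 (hu1.symm.trans hz1))
    have e1 := hn 0
    have e2 := hn (hexDir i)
    have e3 := hn u'
    rw [hz0, toV_zero, sub_zero] at e1
    rw [hz1] at e2
    rw [hu1] at e3
    rw [e1, e2, e3]
    exact h3
  have k0 : VK 0 := VK_zero
  have c1 : z = 0 ∨ z = w' := by
    by_contra hcon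
    rw [not_or] at hcon
    have h3 := hP z hz2 hcon.1 hcon.2
    by_cases h4 : (0 : Z2) = z + hexDir (act a i)
    · have h5 := (key w' hw'' (Ne.symm hcon.2) (by rw [← h4]; exact hw0)).1
      exact absurd h3.2 (not_lt.2 h5)
    · have h5 := (key 0 k0 (Ne.symm hcon.1) h4).1
      rw [toV_zero, sub_zero] at h5
      exact absurd h3.1 (not_lt.2 h5)
  have c2 : z + hexDir (act a i) = 0 ∨ z + hexDir (act a i) = w' := by
    by_contra hcon
    rw [not_or] at hcon
    have h3 := hP (z + hexDir (act a i)) hz12 hcon.1 hcon.2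
    by_cases h4 : (0 : Z2) = z
    · have h5 := (key w' hw'' (by rw [← h4]; exact hw0) (Ne.symm hcon.2)).2
      exact absurd h3.2 (not_lt.2 h5)
    · have h5 := (key 0 k0 h4 (Ne.symm hcon.1)).2
      rw [toV_zero, sub_zero] at h5
      exact absurd h3.1 (not_lt.2 h5)
  rcases c1 with c1 | c1
  · rcases c2 with c2 | c2
    · rw [c1, zero_add] at c2
      exact absurd c2 (hdir _)
    · rw [c1, zero_add] at c2
      exact hfin _ c2.symm
  · rcases c2 with c2 | c2
    · refine hfin (act a i + 3) ?_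
      rw [CellK1_neg, ← c1]
      exact eq_neg_of_add_eq_zero_left c2
    · rw [← c1] at c2
      exact absurd (add_eq_left.1 c2) (hdir _)

end Pool.H3JG
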