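import Pool.Agent.Helper3.JK.DefsK
import Pool.Agent.Helper3.JT.OkT

/-!
# Jigsaw tiles on the rhombille tiling: places and labels
-/

namespace Pool.H3JG

open Set

theorem kap_zero : kap 0 = 0 := by
  simp [kap]

theorem kap_add (z w : Z2) : kap (z + w) = kap z + kap w := by
  unfold kap
  simp only [Prod.fst_add, Prod.snd_add, Prod.mk_add_mk]
  push_cast
  rfl

theorem kap_neg (z : Z2) : kap (-z) = -kap z := by
  unfold kap
  simp only [Prod.fst_neg, Prod.snd_neg, Prod.neg_mk]
  push_cast
  rfl

/-- The action of the matrices modulo two. -/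
def mk2 (a : Lab 6) (c : ZMod 2 × ZMod 2) : ZMod 2 × ZMod 2 :=
  (((hexMat a).a : ZMod 2) * c.1 + ((hexMat a).b : ZMod 2) * c.2,
    ((hexMat a).c : ZMod 2) * c.1 + ((hexMat a).d : ZMod 2) * c.2)

theorem kap_mat (a : Lab 6) (w : Z2) : kap ((hexMat a).apZ w) = mk2 a (kap w) := by
  unfold kap mk2 Mat.apZ
  push_cast
  rfl

theorem mk2_dir : ∀ (a : Lab 6) (d : ZMod 6), mk2 a (kap (hexDir d)) = kap (hexDir (act a d)) := by
  decide +kernel

theorem OkK_zero : OkK 0 (0, false) := by
  unfold OkK
  rw [kap_zero]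
  decide

theorem VK_zero : VK 0 := by
  unfold VK
  rw [kap_zero]
  decide

theorem okK_VK {z : Z2} {a : Lab 6} (h : OkK z a) : VK z := by
  have key : ∀ (c : ZMod 2 × ZMod 2) (a : Lab 6), c + kap (hexDir (act a 1)) = (0, 1) →
      c ≠ (0, 1) := by
    decide +kernel
  exact key _ a h

theorem okK_mul {z w : Z2} {a b : Lab 6} (h1 : OkK z a) (h2 : OkK w b) :
    OkK (mvR hexMat z a w) (lmul a b) := by
  have key : ∀ (c e : ZMod 2 × ZMod 2) (a b : Lab 6), c + kap (hexDir (act a 1)) = (0, 1) →
      e + kap (hexDir (act b 1)) = (0, 1) →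
      c + mk2 a e + kap (hexDir (act (lmul a b) 1)) = (0, 1) := by
    decide +kernel
  unfold OkK mvR
  rw [kap_add, kap_mat]
  exact key _ _ a b h1 h2

theorem okK_inv {z : Z2} {a : Lab 6} (h : OkK z a) :
    OkK (-((hexMat (linv a)).apZ z)) (linv a) := by
  have key : ∀ (c : ZMod 2 × ZMod 2) (a : Lab 6), c + kap (hexDir (act a 1)) = (0, 1) →
      -(mk2 (linv a) c) + kap (hexDir (act (linv a) 1)) = (0, 1) := by
    decide +kernel
  unfold OkK
  rw [kap_neg, kap_mat]
  exact key _ a h

theorem VK_mv {z w : Z2} {a : Lab 6} (h : OkK z a) (hw : VK w) : VK (mvR hexMat z a w) := by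
  have key : ∀ (c e : ZMod 2 × ZMod 2) (a : Lab 6), c + kap (hexDir (act a 1)) = (0, 1) →
      e ≠ (0, 1) → c + mk2 a e ≠ (0, 1) := by
    decide +kernel
  unfold VK mvR
  rw [kap_add, kap_mat]
  exact key _ _ a h hw

/-- The neighbours of a place are in the directions with local direction `0, 2, 3, 5`. -/
theorem nbK_iff {z : Z2} {a : Lab 6} (h : OkK z a) (d : ZMod 6) :
    VK (z + hexDir d) ↔ ek (act (linv a) d) = true := by
  have key : ∀ (c : ZMod 2 × ZMod 2) (a : Lab 6) (d : ZMod 6),
      c + kap (hexDir (act a 1)) = (0, 1) →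
      (c + kap (hexDir d) ≠ (0, 1) ↔ ek (act (linv a) d) = true) := by
    decide +kernel
  unfold VK
  rw [kap_add]
  exact key _ a d h

/-- The local data of a contact. -/
theorem contactK {z : Z2} {a b : Lab 6} {d : ZMod 6} (h1 : OkK z a) (h2 : OkK (z + hexDir d) b) :
    ek (act (linv a) d) = true ∧ ek (act (linv b) (d + 3)) = true ∧
      xor a.2 b.2 = (ck (act (linv a) d) == ck (act (linv b) (d + 3))) := by
  have key : ∀ (c : ZMod 2 × ZMod 2) (a b : Lab 6) (d : ZMod 6),
      c + kap (hexDir (act a 1)) = (0, 1) →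
      c + kap (hexDir d) + kap (hexDir (act b 1)) = (0, 1) →
      ek (act (linv a) d) = true ∧ ek (act (linv b) (d + 3)) = true ∧
      xor a.2 b.2 = (ck (act (linv a) d) == ck (act (linv b) (d + 3))) := by
    decide +kernel
  unfold OkK at h1 h2
  rw [kap_add] at h2
  exact key _ a b d h1 h2

theorem okK_bK {i j : ZMod 6} {t : Bool} (hi : ek i = true) (hj : ek j = true)
    (ht : t = (ck i == ck j)) : OkK (hexDir i) (bK i j t) := by
  have key : ∀ (i j : ZMod 6) (t : Bool), ek i = true → ek j = true → t = (ck i == ck j) →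
      kap (hexDir i) + kap (hexDir (act (bK i j t) 1)) = (0, 1) := by
    decide +kernel
  exact key i j t hi hj ht

/-- The symmetries of the tile around `0` act simply transitively on its four edges. -/
theorem aK_act {a : Lab 6} (ha : OkK 0 a) {i : ZMod 6} (hi : ek i = true) :
    ek (act a i) = true ∧ lmul a (aK i) = aK (act a i) := by
  have key : ∀ (a : Lab 6) (i : ZMod 6), (0 : ZMod 2 × ZMod 2) + kap (hexDir (act a 1)) = (0, 1) →
      ek i = true → ek (act a i) = true ∧ lmul a (aK i) = aK (act a i) := by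
    decide +kernel
  unfold OkK at ha
  rw [kap_zero] at ha
  exact key a i ha hi

theorem act_aK (i : ZMod 6) : act (aK i) 0 = i := by
  revert i
  decide

theorem okK_aK {i : ZMod 6} (hi : ek i = true) : OkK 0 (aK i) := by
  have key : ∀ i : ZMod 6, ek i = true →
      (0 : ZMod 2 × ZMod 2) + kap (hexDir (act (aK i) 1)) = (0, 1) := by
    decide
  unfold OkK
  rw [kap_zero]
  exact key i hi

theorem linv_aK {i : ZMod 6} (hi : ek i = true) : linv (aK i) = aK i := by
  revert i
  decide

theorem linv_bK (i j : ZMod 6) (t : Bool) : linv (bK i j t) = bK j i t := by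
  revert i j t
  decide +kernel

theorem act_bK (i j : ZMod 6) (t : Bool) : act (bK i j t) j = i + 3 := by
  revert i j t
  decide +kernel

theorem bK_mul (i j k : ZMod 6) (s t : Bool) (l : ZMod 6) (u : Bool) :
    lmul (lmul (bK i j s) (bK j k t)) (bK k l u) = bK i l (xor (xor s t) u) := by
  revert i j k s t l u
  decide +kernel

theorem bK_aK {i j : ZMod 6} {t : Bool} (hi : ek i = true) (hj : ek j = true)
    (ht : t = (ck i == ck j)) :
    lmul (bK j i t) (aK i) = lmul (aK j) (3, true) := by
  revert i j t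
  decide +kernel

/-- The label of the neighbour in terms of local edges. -/
theorem bK_eq (a b : Lab 6) (d : ZMod 6) :
    lmul a (bK (act (linv a) d) (act (linv b) (d + 3)) (xor a.2 b.2)) = b := by
  revert a b d
  decide +kernel

end Pool.H3JG
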