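import Pool.Agent.Helper3.JG.Hex6
import Pool.Agent.Helper3.JG.Root
import Pool.Agent.Helper3.JK.OkK

/-!
# Jigsaw tiles on the rhombille tiling: soundness of the certificate check

The check of `JG/Fast.lean`, with the places of the rhombille tiling and the allowed labels.
-/

namespace Pool.H3JG

/-- Labels which are not allowed at the cell `c`. -/
def pmK (c : ℕ) : ℕ :=
  if (c / 64) % 2 = 0 then 1950 else if (c % 64) % 2 = 0 then 3705 else 2535

/-- The cell `c` is a place. -/
def vK (c : ℕ) : Bool := !(Nat.beq ((c / 64) % 2) 0 && Nat.beq ((c % 64) % 2) 1)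

/-- Check of a forest against a list of packed assignments. -/
def chkGK (dl : List (ℕ × ℕ)) (F : ℕ) : Fo → List ℕ → Bool
  | Fo.nil, [] => true
  | Fo.nil, _ :: _ => false
  | Fo.cons _ _ _, [] => false
  | Fo.cons c ch rest, A :: ss =>
    (cellOK c && Nat.beq (lk A c) 0 && vK c) &&
      chkGK dl F ch (expandN (forb F A c dl ||| pmK c) c A 12) &&
      chkGK dl F rest ss

/-- Check of a decision tree. -/
def chkK (dl : List (ℕ × ℕ)) (pats : List (ℕ × ℕ × List ℕ)) (TM : List ℕ) : Tr → ℕ → ℕ → Bool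
  | Tr.T k, inn, _ => match TM[k]? with
    | some m => Nat.beq (m &&& inn) m
    | none => false
  | Tr.D b1 b2 b3 b4 b5 x, inn, out =>
    inn.testBit b1 && inn.testBit b2 && inn.testBit b3 && okD 6 b1 b2 b3 b4 b5 &&
      chkK dl pats TM x (inn ||| 2 ^ b4 ||| 2 ^ b5) out
  | Tr.S _ _ _ _ _, _, _ => false
  | Tr.C b, inn, out => inn.testBit b && out.testBit b
  | Tr.Y b b' x y, inn, out => okM 6 b b' &&
      chkK dl pats TM x (inn ||| 2 ^ b ||| 2 ^ b') out &&
      chkK dl pats TM y inn (out ||| 2 ^ b ||| 2 ^ b')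
  | Tr.R x, _, out => chkGK dl (mkF out pats) x [1 <<< 5200]

theorem kap_decC (c : ℕ) :
    kap (decC c) = ((((c / 64) % 2 : ℕ) : ZMod 2), (((c % 64) % 2 : ℕ) : ZMod 2)) := by
  unfold kap decC
  rw [ZMod.natCast_mod, ZMod.natCast_mod]
  simp only [Int.cast_natCast]

theorem vK_iff (c : ℕ) : vK c = true ↔ VK (decC c) := by
  unfold VK
  rw [kap_decC]
  unfold vK
  have h : (c / 64) % 2 < 2 := Nat.mod_lt _ (by norm_num)
  have h' : (c % 64) % 2 < 2 := Nat.mod_lt _ (by norm_num)
  generalize (c / 64) % 2 = r at h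
  generalize (c % 64) % 2 = s at h'
  have key : ∀ r < 2, ∀ s < 2, (!(Nat.beq r 0 && Nat.beq s 1)) = true ↔
      (((r : ℕ) : ZMod 2), ((s : ℕ) : ZMod 2)) ≠ (0, 1) := by
    decide +kernel
  exact key r h s h'

theorem pmK_false {c a : ℕ} (ha : a < 12) (h : OkK (decC c) (labN 6 a)) :
    (pmK c).testBit a = false := by
  unfold OkK at h
  rw [kap_decC] at h
  unfold pmK
  have h2 : (c / 64) % 2 < 2 := Nat.mod_lt _ (by norm_num)
  have h3 : (c % 64) % 2 < 2 := Nat.mod_lt _ (by norm_num)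
  generalize (c / 64) % 2 = r at h h2
  generalize (c % 64) % 2 = s at h h3
  have key : ∀ r < 2, ∀ s < 2, ∀ a < 12,
      (((r : ℕ) : ZMod 2), ((s : ℕ) : ZMod 2)) + kap (hexDir (act (labN 6 a) 1)) = (0, 1) →
      (if r = 0 then 1950 else if s = 0 then 3705 else 2535 : ℕ).testBit a = false := by
    decide +kernel
  exact key r h2 s h3 a ha h

variable {R : ZMod 6 → ZMod 6 → Bool → Prop} {g : Z2 → Lab 6} {dl : List (ℕ × ℕ)} {out : ℕ}

/-- A packed assignment agrees with a labelling, and all its cells are places. -/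
def AgreeK (g : Z2 → Lab 6) (A : ℕ) : Prop :=
  ∀ q, lk A q ≠ 0 → VK (decC q) ∧ g (decC q) = labN 6 (lk A q - 1) ∧ lk A q - 1 < 12

theorem not_forbK (hg : ConK R g) (hout : ∀ b, out.testBit b = true → ¬ Rb R b)
    (hdl : ∀ e ∈ dl, e.1 < 6 ∧ ∀ c, cellOK c = true →
      decC (c + e.2 - 4096) = decC c + hexDir (e.1 : ZMod 6))
    {pats : List (ℕ × ℕ × List ℕ)} (hp : patOK 6 3 pats = true)
    {A c a : ℕ} (hc : cellOK c = true) (hv : VK (decC c)) (hA : AgreeK g A) (ha : a < 12)
    (hga : g (decC c) = labN 6 a) : (forb (mkF out pats) A c dl).testBit a = false := by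
  by_contra hcon
  rw [Bool.not_eq_false] at hcon
  obtain ⟨e, he, ha16, hF⟩ := testBit_forb dl hcon
  obtain ⟨k, hk, hpos⟩ := testBit_mkF pats hp hF
  have hlk := lk_lt A (c + e.2 - 4096)
  set v := lk A (c + e.2 - 4096) with hv'
  have h1 : (16 * (16 * e.1 + v) + a) % 16 = a := by omega
  have h2 : (16 * (16 * e.1 + v) + a) / 16 % 16 = v := by omega
  have h3 : (16 * (16 * e.1 + v) + a) / 256 = e.1 := by omega
  unfold posOK at hpos
  rw [h1, h2, h3] at hpos
  simp only [Bool.and_eq_true, Nat.beq_eq, Nat.ble_eq] at hpos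
  obtain ⟨⟨⟨⟨p1, _⟩, _⟩, _⟩, p5⟩ := hpos
  obtain ⟨hd, hdc⟩ := hdl e he
  have hv0 : v ≠ 0 := by omega
  obtain ⟨h6, h4, h5⟩ := hA _ hv0
  have hcon2 := hg.2 (decC c) (e.1 : ZMod 6) hv (by rw [← hdc c hc]; exact h6)
  rw [← hdc c hc, hga, h4] at hcon2
  have hcon3 : Con ((3 : ℕ) : ZMod 6) R ((e.1 : ℕ) : ZMod 6) (labN 6 a) (labN 6 (v - 1)) := hcon2
  rw [con_iff_cbN R ha h5 hd, p5] at hcon3
  exact hout k hk hcon3

theorem chkGK_sound (hg : ConK R g) (hout : ∀ b, out.testBit b = true → ¬ Rb R b)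
    (hdl : ∀ e ∈ dl, e.1 < 6 ∧ ∀ c, cellOK c = true →
      decC (c + e.2 - 4096) = decC c + hexDir (e.1 : ZMod 6))
    {pats : List (ℕ × ℕ × List ℕ)} (hp : patOK 6 3 pats = true)
    (f : Fo) : ∀ ss, chkGK dl (mkF out pats) f ss = true → ∀ A ∈ ss, ¬ AgreeK g A := by
  induction f with
  | nil =>
    intro ss hss s hs
    cases ss with
    | nil => simp at hs
    | cons a l => simp [chkGK] at hss
  | cons c ch rest ih1 ih2 =>
    intro ss hss s hs
    cases ss with
    | nil => simp at hs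
    | cons A l =>
      unfold chkGK at hss
      simp only [Bool.and_eq_true, Nat.beq_eq] at hss
      obtain ⟨⟨⟨⟨hc, hA0⟩, hv⟩, h1⟩, h2⟩ := hss
      rw [vK_iff] at hv
      rcases List.mem_cons.1 hs with rfl | hs
      · intro hag
        obtain ⟨k, hk, hlab⟩ := labN_surj (g (decC c))
        have hk12 : k < 12 := hk
        have hnf := not_forbK hg hout hdl hp hc hv hag hk12 hlab.symm
        have hpm : (pmK c).testBit k = false := by
          apply pmK_false hk12
          rw [hlab]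
          exact hg.1 _ hv
        have hnf2 : (forb (mkF out pats) s c dl ||| pmK c).testBit k = false := by
          rw [Nat.testBit_or, hnf, hpm]
          rfl
        have hmem := mem_expandN (c := c) (A := s) hnf2 12 hk12
        refine ih1 _ h1 _ hmem ?_
        intro q hq
        rw [lk_ins hA0 (by omega)] at hq ⊢
        by_cases hqc : q = c
        · subst hqc
          rw [if_pos rfl]
          exact ⟨hv, hlab.symm, hk12⟩
        · rw [if_neg hqc] at hq ⊢
          exact hag q hq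
      · exact ih2 _ h2 s hs

theorem chkK_sound (hR : Closed R) (TM : List ℕ) (hg : ConK R g)
    (hdl : ∀ e ∈ dl, e.1 < 6 ∧ ∀ c, cellOK c = true →
      decC (c + e.2 - 4096) = decC c + hexDir (e.1 : ZMod 6))
    {pats : List (ℕ × ℕ × List ℕ)} (hp : patOK 6 3 pats = true)
    (hroot : g (20, 20) = (0, false)) (x : Tr) :
    ∀ inn out : ℕ, chkK dl pats TM x inn out = true →
      (∀ b, inn.testBit b = true → Rb R b) → (∀ b, out.testBit b = true → ¬ Rb R b) →
      ∃ m ∈ TM, ∀ b, m.testBit b = true → Rb R b := by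
  induction x with
  | T k =>
    intro inn out hc hinn hout
    unfold chkK at hc
    cases hm : TM[k]? with
    | none => simp [hm] at hc
    | some m =>
      simp only [hm, Nat.beq_eq] at hc
      refine ⟨m, List.mem_of_getElem? hm, fun b hb => hinn b ?_⟩
      rw [← hc, Nat.testBit_and, Bool.and_eq_true] at hb
      exact hb.2
  | D b1 b2 b3 b4 b5 x ih =>
    intro inn out hc hinn hout
    unfold chkK at hc
    simp only [Bool.and_eq_true] at hc
    obtain ⟨⟨⟨⟨c1, c2⟩, c3⟩, c4⟩, c5⟩ := hc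
    obtain ⟨r4, r5⟩ := rb_chain hR (hinn _ c1) (hinn _ c2) (hinn _ c3) c4
    exact ih _ _ c5 (rb_insert hinn r4 r5) hout
  | S b1 b2 b4 b5 x ih =>
    intro inn out hc hinn hout
    unfold chkK at hc
    exact absurd hc (by simp)
  | C b =>
    intro inn out hc hinn hout
    unfold chkK at hc
    rw [Bool.and_eq_true] at hc
    exact absurd (hinn _ hc.1) (hout _ hc.2)
  | Y b b' x y ih1 ih2 =>
    intro inn out hc hinn hout
    unfold chkK at hc
    simp only [Bool.and_eq_true] at hc
    obtain ⟨⟨c0, c1⟩, c2⟩ := hc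
    by_cases hb : Rb R b
    · exact ih1 _ _ c1 (rb_insert hinn hb (rb_mirror hR c0 hb)) hout
    · exact ih2 _ _ c2 hinn
        (rb_insert_not hout hb fun hb' => hb (rb_mirror hR (okM_symm c0) hb'))
  | R f =>
    intro inn out hc hinn hout
    unfold chkK at hc
    exfalso
    refine chkGK_sound hg hout hdl hp f _ hc (1 <<< 5200) List.mem_cons_self ?_
    intro q hq
    have h0 : lk 0 1300 = 0 := by unfold lk; simp
    have h1 := lk_ins (A := 0) (c := 1300) (v := 1) h0 (by norm_num) q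
    have h2 : (0 ||| (1 <<< (4 * 1300)) : ℕ) = 1 <<< 5200 := by rw [Nat.zero_or]
    rw [h2] at h1
    rw [h1] at hq ⊢
    by_cases hqc : q = 1300
    · subst hqc
      rw [if_pos rfl]
      refine ⟨by decide, ?_, by omega⟩
      simpa [labN, decC] using hroot
    · rw [if_neg hqc] at hq
      exact absurd (by unfold lk; simp) hq

/-- Normalisation of a labelling at one place. -/
theorem exists_rootK {R : ZMod 6 → ZMod 6 → Bool → Prop} {g : Z2 → Lab 6} (hg : ConK R g)
    {p : Z2} (hp : kap p = 0) : ∃ g' : Z2 → Lab 6, ConK R g' ∧ g' p = (0, false) := by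
  have hpv : VK p := by
    unfold VK
    rw [hp]
    decide
  have hpg : (0 : ZMod 2 × ZMod 2) + kap (hexDir (act (g p) 1)) = (0, 1) := by
    have h := hg.1 p hpv
    unfold OkK at h
    rw [hp] at h
    exact h
  have hkap : ∀ w, kap (p + (hexMat (g p)).apZ (w - p)) = mk2 (g p) (kap w) := by
    intro w
    rw [kap_add, kap_mat, sub_eq_add_neg, kap_add, kap_neg, hp, zero_add, neg_zero, add_zero]
  have key1 : ∀ (a : Lab 6) (c : ZMod 2 × ZMod 2),
      (0 : ZMod 2 × ZMod 2) + kap (hexDir (act a 1)) = (0, 1) → c ≠ (0, 1) →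
      mk2 a c ≠ (0, 1) := by
    decide +kernel
  have key2 : ∀ (a b : Lab 6) (c : ZMod 2 × ZMod 2),
      (0 : ZMod 2 × ZMod 2) + kap (hexDir (act a 1)) = (0, 1) →
      mk2 a c + kap (hexDir (act b 1)) = (0, 1) →
      c + kap (hexDir (act (lmul (linv a) b) 1)) = (0, 1) := by
    decide +kernel
  have hv : ∀ w, VK w → VK (p + (hexMat (g p)).apZ (w - p)) := by
    intro w hw
    unfold VK
    rw [hkap]
    exact key1 _ _ hpg hw
  refine ⟨fun w => lmul (linv (g p)) (g (p + (hexMat (g p)).apZ (w - p))), ⟨?_, ?_⟩, ?_⟩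
  · intro w hw
    have h1 := hg.1 (p + (hexMat (g p)).apZ (w - p)) (hv w hw)
    unfold OkK at h1 ⊢
    rw [hkap] at h1
    exact key2 _ _ _ hpg h1
  · intro z d hz hzd
    show Con 3 R d (lmul (linv (g p)) (g (p + (hexMat (g p)).apZ (z - p))))
      (lmul (linv (g p)) (g (p + (hexMat (g p)).apZ (z + hexDir d - p))))
    rw [con_lmul (by decide), linv_linv]
    have h1 : p + (hexMat (g p)).apZ (z + hexDir d - p)
        = p + (hexMat (g p)).apZ (z - p) + hexDir (act (g p) d) := by
      have h2 : z + hexDir d - p = (z - p) + hexDir d := by abel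
      have h3 : (hexMat (g p)).apZ (hexDir d) = hexDir (act (g p) d) := gridHex.mat_dir (g p) d
      rw [h2, Mat.apZ_add, h3, add_assoc]
    have h4 := hv _ hzd
    rw [h1] at h4
    rw [h1]
    exact hg.2 _ _ (hv _ hz) h4
  · show lmul (linv (g p)) (g (p + (hexMat (g p)).apZ (p - p))) = (0, false)
    rw [sub_self, Mat.apZ_zero, add_zero, linv_lmul]

end Pool.H3JG
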