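import Pool.Agent.Helper3.JG.Tmpl
import Pool.Agent.Helper3.JK.OkK

/-!
# Jigsaw tiles on the rhombille tiling: periodic labellings given by tables
-/

namespace Pool.H3JG

section TableK

variable (N : ℕ) (tab : ZMod N → ZMod N → Lab 6)

/-- The class of a position in a table. -/
def tyK (x y : ZMod N) : ZMod 2 × ZMod 2 := ((x.val : ZMod 2), (y.val : ZMod 2))

theorem tyK_val [NeZero N] (hN : 2 ∣ N) (k : ℤ) :
    (((k : ZMod N).val : ℕ) : ZMod 2) = (k : ZMod 2) := by
  have h1 : (((k : ZMod N).val : ℕ) : ℤ) = k % N := ZMod.val_intCast k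
  have h2 : (((k : ZMod N).val : ℕ) : ZMod 2) = (((((k : ZMod N).val : ℕ) : ℤ)) : ZMod 2) := by
    rw [Int.cast_natCast]
  rw [h2, h1, ZMod.intCast_eq_intCast_iff]
  exact (Int.mod_modEq k N).of_dvd (by exact_mod_cast hN)

theorem tyK_cast [NeZero N] (hN : 2 ∣ N) (z : Z2) :
    tyK N (z.1 : ZMod N) (z.2 : ZMod N) = kap z := by
  unfold tyK kap
  rw [tyK_val N hN, tyK_val N hN]

/-- The labels of a table are allowed. -/
def OkTabK : Prop := ∀ x y : ZMod N, tyK N x y ≠ (0, 1) →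
  tyK N x y + kap (hexDir (act (tab x y) 1)) = (0, 1)

/-- All contacts of a table are in a mask. -/
def ValTabK (mask : ℕ) : Prop := ∀ x y : ZMod N, ∀ d : ZMod 6, tyK N x y ≠ (0, 1) →
  tyK N (x + ((hexDir d).1 : ZMod N)) (y + ((hexDir d).2 : ZMod N)) ≠ (0, 1) →
    mask.testBit (cbit 3 d (tab x y)
      (tab (x + ((hexDir d).1 : ZMod N)) (y + ((hexDir d).2 : ZMod N)))) = true

/-- The label of the symmetry which moves the place `c` to the place `(x, y)`. -/
def lbK (c : Z2) (x y : ZMod N) : Lab 6 :=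
  lmul (tab x y) (linv (tab (c.1 : ZMod N) (c.2 : ZMod N)))

/-- There is a symmetry which moves the place `c` to the place `(x, y)`. -/
def MvK (c : Z2) (x y : ZMod N) : Prop := ∀ u v : ZMod N, tyK N u v ≠ (0, 1) →
  tab (x + ((hexMat (lbK N tab c x y)).a : ZMod N) * (u - (c.1 : ZMod N)) +
      ((hexMat (lbK N tab c x y)).b : ZMod N) * (v - (c.2 : ZMod N)))
    (y + ((hexMat (lbK N tab c x y)).c : ZMod N) * (u - (c.1 : ZMod N)) +
      ((hexMat (lbK N tab c x y)).d : ZMod N) * (v - (c.2 : ZMod N))) =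
    lmul (lbK N tab c x y) (tab u v)

instance [NeZero N] : Decidable (OkTabK N tab) := by
  unfold OkTabK
  infer_instance

instance [NeZero N] (mask : ℕ) : Decidable (ValTabK N tab mask) := by
  unfold ValTabK
  infer_instance

instance [NeZero N] (c : Z2) (x y : ZMod N) : Decidable (MvK N tab c x y) := by
  unfold MvK
  infer_instance

theorem conK_of_tab [NeZero N] (R : ZMod 6 → ZMod 6 → Bool → Prop) {mask : ℕ} (hN : 2 ∣ N)
    (h1 : OkTabK N tab) (h2 : ValTabK N tab mask)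
    (hR : ∀ b, mask.testBit b = true → Rb R b) : ConK R (gT N tab) := by
  refine ⟨?_, ?_⟩
  · intro z hz
    have h4 := h1 (z.1 : ZMod N) (z.2 : ZMod N)
    rw [tyK_cast N hN] at h4
    exact h4 hz
  · intro z d hz hzd
    rw [con_iff_cbit]
    apply hR
    have h4 := h2 (z.1 : ZMod N) (z.2 : ZMod N) d
    rw [tyK_cast N hN] at h4
    have e : tyK N ((z.1 : ZMod N) + ((hexDir d).1 : ZMod N)) ((z.2 : ZMod N) +
        ((hexDir d).2 : ZMod N)) = kap (z + hexDir d) := by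
      rw [← tyK_cast N hN, Prod.fst_add, Prod.snd_add]
      push_cast
      rfl
    rw [e] at h4
    have h5 := h4 hz hzd
    simp only [gT, Prod.fst_add, Prod.snd_add]
    push_cast
    exact h5

theorem exists_of_mvK [NeZero N] (hN : 2 ∣ N) (h1 : OkTabK N tab) {c w : Z2} (hc : VK c)
    (hw : VK w) (h : MvK N tab c (w.1 : ZMod N) (w.2 : ZMod N)) :
    ∃ z a, SymK (gT N tab) z a ∧ mvR hexMat z a c = w := by
  have hok : ∀ z, VK z → OkK z (gT N tab z) := by
    intro z hz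
    have h4 := h1 (z.1 : ZMod N) (z.2 : ZMod N)
    rw [tyK_cast N hN] at h4
    exact h4 hz
  have hL : lbK N tab c (w.1 : ZMod N) (w.2 : ZMod N)
      = lmul (gT N tab w) (linv (gT N tab c)) := rfl
  set L := lmul (gT N tab w) (linv (gT N tab c)) with hLdef
  refine ⟨w - (hexMat L).apZ c, L, ⟨?_, ?_⟩, ?_⟩
  · have key : ∀ (e f : ZMod 2 × ZMod 2) (a b : Lab 6),
        f + kap (hexDir (act b 1)) = (0, 1) → e + kap (hexDir (act a 1)) = (0, 1) →
        e - mk2 (lmul a (linv b)) f + kap (hexDir (act (lmul a (linv b)) 1)) = (0, 1) := by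
      decide +kernel
    have h5 := hok w hw
    have h6 := hok c hc
    unfold OkK at h5 h6 ⊢
    rw [sub_eq_add_neg, kap_add, kap_neg, kap_mat, ← sub_eq_add_neg]
    exact key _ _ _ _ h6 h5
  · intro v hv
    have h7 := h (v.1 : ZMod N) (v.2 : ZMod N) (by rw [tyK_cast N hN]; exact hv)
    rw [hL] at h7
    have e2 : tab (v.1 : ZMod N) (v.2 : ZMod N) = gT N tab v := rfl
    rw [e2] at h7
    rw [← h7]
    simp only [gT, mvR, Mat.apZ, Prod.fst_add, Prod.snd_add, Prod.fst_sub, Prod.snd_sub]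
    push_cast
    congr 1 <;> ring
  · unfold mvR
    rw [sub_add_cancel]

theorem mvK_of_exists [NeZero N] (hN : 2 ∣ N) {c w : Z2} (hc : VK c) {z : Z2} {a : Lab 6}
    (hs : SymK (gT N tab) z a) (hz : mvR hexMat z a c = w) :
    MvK N tab c (w.1 : ZMod N) (w.2 : ZMod N) := by
  have hL : lbK N tab c (w.1 : ZMod N) (w.2 : ZMod N) = a := by
    have h1 := hs.2 c hc
    rw [hz] at h1
    have h2 : lbK N tab c (w.1 : ZMod N) (w.2 : ZMod N)
      = lmul (gT N tab w) (linv (gT N tab c)) := rfl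
    rw [h2, h1, lmul_assoc', lmul_linv, lmul_one]
  intro u v huv
  rw [hL]
  obtain ⟨u, rfl⟩ := ZMod.intCast_surjective u
  obtain ⟨v, rfl⟩ := ZMod.intCast_surjective v
  have hv : VK (u, v) := by
    unfold VK
    rw [← tyK_cast N hN]
    exact huv
  have h3 := hs.2 (u, v) hv
  have e2 : tab (u : ZMod N) (v : ZMod N) = gT N tab (u, v) := rfl
  rw [e2, ← h3, ← hz]
  simp only [gT, mvR, Mat.apZ, Prod.fst_add, Prod.snd_add]
  push_cast
  congr 1 <;> ring

theorem goodK_of_tab1 [NeZero N] (R : ZMod 6 → ZMod 6 → Bool → Prop) {mask : ℕ} (hN : 2 ∣ N)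
    (hc : OkTabK N tab ∧ ValTabK N tab mask ∧
      ∀ x y : ZMod N, tyK N x y ≠ (0, 1) → MvK N tab 0 x y)
    (hR : ∀ b, mask.testBit b = true → Rb R b) : GoodK R := by
  refine ⟨gT N tab, conK_of_tab N tab R hN hc.1 hc.2.1 hR, 1, le_refl _, by omega, 0, by decide,
    ?_, ?_⟩
  · intro w hw
    obtain ⟨z, a, h1, h2⟩ := exists_of_mvK N tab hN hc.1 VK_zero hw
      (hc.2.2 (w.1 : ZMod N) (w.2 : ZMod N) (by rw [tyK_cast N hN]; exact hw))
    exact ⟨z, a, 0, h1, h2⟩
  · intro i j _ _ _ _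
    exact Subsingleton.elim i j

theorem goodK_of_tab2 [NeZero N] (R : ZMod 6 → ZMod 6 → Bool → Prop) {mask : ℕ} (d : ZMod 6)
    (hN : 2 ∣ N)
    (hc : ek d = true ∧ OkTabK N tab ∧ ValTabK N tab mask ∧
      (∀ x y : ZMod N, tyK N x y ≠ (0, 1) → MvK N tab 0 x y ∨ MvK N tab (hexDir d) x y) ∧
      ¬ MvK N tab 0 ((hexDir d).1 : ZMod N) ((hexDir d).2 : ZMod N) ∧
      ¬ MvK N tab (hexDir d) ((0 : Z2).1 : ZMod N) ((0 : Z2).2 : ZMod N))
    (hR : ∀ b, mask.testBit b = true → Rb R b) : GoodK R := by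
  obtain ⟨hd, h1, h2, h3, h4, h5⟩ := hc
  have hvd : VK (hexDir d) := by
    have h6 := (nbK_iff OkK_zero d).2 (by
      have h7 : ∀ d : ZMod 6, act (linv ((0, false) : Lab 6)) d = d := by decide
      rw [h7]
      exact hd)
    rwa [zero_add] at h6
  refine ⟨gT N tab, conK_of_tab N tab R hN h1 h2 hR, 2, by omega, le_refl _, d, hd, ?_, ?_⟩
  · intro w hw
    rcases h3 (w.1 : ZMod N) (w.2 : ZMod N) (by rw [tyK_cast N hN]; exact hw) with h6 | h6
    · obtain ⟨z, a, h7, h8⟩ := exists_of_mvK N tab hN h1 VK_zero hw h6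
      exact ⟨z, a, 0, h7, h8⟩
    · obtain ⟨z, a, h7, h8⟩ := exists_of_mvK N tab hN h1 hvd hw h6
      exact ⟨z, a, 1, h7, h8⟩
  · intro i j z a hs hz
    fin_cases i <;> fin_cases j
    · rfl
    · exact absurd (mvK_of_exists N tab hN VK_zero hs hz) h4
    · exact absurd (mvK_of_exists N tab hN hvd hs hz) h5
    · rfl

end TableK

end Pool.H3JG
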