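import Pool.Agent.Helper3.JK.ChkK
import Pool.Agent.Helper3.JK.TmplK

/-!
# Jigsaw tiles on the rhombille tiling: templates, certificate and the finite core
-/

namespace Pool.H3JG

theorem tmK_0 (R : ZMod 6 → ZMod 6 → Bool → Prop)
    (hR : ∀ b, Nat.testBit 1152922605192217600 b = true → Rb R b) : GoodK R :=
  goodK_of_tab1 2 (fun x y => (![![(0, false), (4, false)], ![(0, false), (2, false)]] : Fin 2 → Fin 2 → Lab 6) y x) R
    (mask := 1152922605192217600) (by norm_num) (by decide +kernel) hR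

theorem tmK_1 (R : ZMod 6 → ZMod 6 → Bool → Prop)
    (hR : ∀ b, Nat.testBit 2361183242672863707280 b = true → Rb R b) : GoodK R :=
  goodK_of_tab2 4 (fun x y => (![![(0, false), (0, true), (5, true), (4, false)], ![(0, false), (5, false), (0, false), (2, false)], ![(3, false), (1, false), (2, true), (3, true)], ![(0, false), (1, true), (0, false), (4, true)]] : Fin 4 → Fin 4 → Lab 6) y x) R
    (mask := 2361183242672863707280) 0 (by norm_num) (by decide +kernel) hR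

theorem tmK_2 (R : ZMod 6 → ZMod 6 → Bool → Prop)
    (hR : ∀ b, Nat.testBit 38046418482495489040 b = true → Rb R b) : GoodK R :=
  goodK_of_tab2 4 (fun x y => (![![(0, false), (1, false), (5, true), (3, true)], ![(0, false), (2, false), (0, false), (5, false)], ![(3, false), (0, true), (2, true), (4, false)], ![(0, false), (4, true), (0, false), (1, true)]] : Fin 4 → Fin 4 → Lab 6) y x) R
    (mask := 38046418482495489040) 3 (by norm_num) (by decide +kernel) hR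

theorem tmK_3 (R : ZMod 6 → ZMod 6 → Bool → Prop)
    (hR : ∀ b, Nat.testBit 74939968306165056640 b = true → Rb R b) : GoodK R :=
  goodK_of_tab2 4 (fun x y => (![![(0, false), (0, true), (2, true), (1, false)], ![(0, false), (4, true), (0, false), (1, true)], ![(3, false), (4, false), (5, true), (3, true)], ![(0, false), (5, false), (0, false), (2, false)]] : Fin 4 → Fin 4 → Lab 6) y x) R
    (mask := 74939968306165056640) 0 (by norm_num) (by decide +kernel) hR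

theorem tmK_4 (R : ZMod 6 → ZMod 6 → Bool → Prop)
    (hR : ∀ b, Nat.testBit 110680535945946595330 b = true → Rb R b) : GoodK R :=
  goodK_of_tab2 4 (fun x y => (![![(0, false), (3, true), (2, true), (4, false)], ![(0, false), (5, false), (0, false), (2, false)], ![(3, false), (1, false), (5, true), (0, true)], ![(0, false), (4, true), (0, false), (1, true)]] : Fin 4 → Fin 4 → Lab 6) y x) R
    (mask := 110680535945946595330) 0 (by norm_num) (by decide +kernel) hR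

/-- The masks of the templates. -/
def TMK : List ℕ := [1152922605192217600, 2361183242672863707280, 38046418482495489040, 74939968306165056640, 110680535945946595330]

/-- The decision tree. -/
def trK : Tr :=
  (.Y 10 60 (.Y 30 40 (.T 0) (.Y 4 24 (.Y 46 66 (.D 24 10 66 30 40 (.C 30)) (.Y 35 65 (.Y 7 37 (.D 37 10 65 40 30 (.C 30)) (.Y 43 43 (.T 2) (.R (.cons 1236 .nil .nil)))) (.R (.cons 1236 (.cons 1237 .nil (.cons 1237 (.cons 1363 (.cons 1364 (.cons 1235 (.cons 1172 .nil (.cons 1172 (.cons 1238 (.cons 1174 (.cons 1362 (.cons 1426 .nil (.cons 1426 (.cons 1365 (.cons 1428 (.cons 1298 (.cons 1361 .nil (.cons 1234 .nil .nil)) .nil) (.cons 1428 .nil .nil)) .nil) .nil)) .nil) (.cons 1174 .nil .nil)) .nil) .nil)) (.cons 1235 (.cons 1172 .nil (.cons 1172 (.cons 1238 (.cons 1174 (.cons 1362 (.cons 1426 .nil (.cons 1426 (.cons 1365 (.cons 1428 (.cons 1298 (.cons 1361 .nil (.cons 1234 .nil .nil)) .nil) (.cons 1428 .nil .nil))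 .nil) .nil)) .nil) (.cons 1174 .nil .nil)) .nil) .nil)) .nil)) (.cons 1235 (.cons 1172 .nil (.cons 1172 (.cons 1238 (.cons 1174 (.cons 1362 (.cons 1426 .nil (.cons 1426 (.cons 1298 (.cons 1361 .nil (.cons 1234 .nil .nil)) .nil) .nil)) .nil) (.cons 1174 .nil .nil)) .nil) .nil)) .nil)) .nil) .nil)) .nil)))) (.Y 7 37 (.Y 35 65 (.D 37 10 65 40 30 (.C 30)) (.Y 29 29 (.Y 46 66 (.T 3) (.R (.cons 1237 (.cons 1236 .nil .nil) .nil))) (.R (.cons 1237 .nil .nil)))) (.R (.cons 1236 (.cons 1237 .nil (.cons 1237 (.cons 1364 (.cons 1363 (.cons 1235 (.cons 1172 .nil (.cons 1172 (.cons 1238 (.cons 1174 (.cons 1362 (.cons 1426 .nil (.cons 1426 (.cons 1365 (.cons 1428 (.cons 1298 (.cons 1234 .nil (.cons 1361 .nil .nil)) .nil) (.cons 1428 .nil .nil)) .nil) .nil)) .nil) (.cons 1174 .nil .nil)) .nil) .nil)) (.cons 1235 (.cons 1172 .nil (.cons 1172 (.cons 1238 (.cons 1174 (.cons 1362 (.cons 1426 .nil (.cons 1426 (.cons 1365 (.cons 1428 (.cons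 1298 (.cons 1234 .nil (.cons 1361 .nil .nil)) .nil) (.cons 1428 .nil .nil)) .nil) .nil)) .nil) (.cons 1174 .nil .nil)) .nil) .nil)) .nil)) (.cons 1235 (.cons 1172 .nil (.cons 1172 (.cons 1238 (.cons 1174 (.cons 1365 (.cons 1428 (.cons 1298 (.cons 1234 .nil (.cons 1234 (.cons 1362 (.cons 1361 (.cons 1363 (.cons 1426 (.cons 1302 (.cons 1366 .nil (.cons 1239 .nil .nil)) .nil) (.cons 1426 .nil .nil)) .nil) (.cons 1361 .nil .nil)) .nil) .nil)) .nil) (.cons 1428 .nil .nil)) .nil) (.cons 1174 .nil .nil)) .nil) .nil)) .nil)) .nil) .nil)) .nil))))) (.Y 30 40 (.Y 4 24 (.Y 46 66 (.D 4 30 46 10 60 (.C 10)) (.Y 7 37 (.Y 35 65 (.D 7 40 35 10 60 (.C 10)) (.Y 71 71 (.T 1) (.R (.cons 1363 .nil .nil)))) (.R (.cons 1236 (.cons 1237 (.cons 1363 (.cons 1364 (.cons 1235 (.cons 1172 (.cons 1238 (.cons 1174 .nil (.cons 1174 (.cons 1362 (.cons 1426 (.cons 1365 (.cons 1428 .nil (.cons 1428 (.cons 1298 (.cons 1234 .nil (.cons 1361 .nil .nil)) .nil)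 .nil)) .nil) (.cons 1426 .nil .nil)) .nil) .nil)) .nil) (.cons 1172 .nil .nil)) .nil) (.cons 1364 .nil .nil)) (.cons 1363 (.cons 1364 (.cons 1235 (.cons 1172 (.cons 1238 (.cons 1174 .nil (.cons 1174 (.cons 1362 (.cons 1426 (.cons 1365 (.cons 1428 .nil (.cons 1428 (.cons 1298 (.cons 1234 .nil (.cons 1361 .nil .nil)) .nil) .nil)) .nil) (.cons 1426 .nil .nil)) .nil) .nil)) .nil) (.cons 1172 .nil .nil)) .nil) (.cons 1364 .nil .nil)) .nil)) (.cons 1363 (.cons 1364 (.cons 1235 (.cons 1172 (.cons 1362 (.cons 1426 (.cons 1365 (.cons 1428 .nil (.cons 1428 (.cons 1298 (.cons 1234 .nil (.cons 1361 .nil .nil)) .nil) .nil)) .nil) (.cons 1426 .nil .nil)) .nil) (.cons 1172 .nil .nil)) .nil) (.cons 1364 .nil .nil)) .nil)) .nil)))) (.Y 1 1 (.Y 7 37 (.D 1 7 40 4 24 (.C 4)) (.Y 35 65 (.Y 46 66 (.T 4) (.R (.cons 1364 (.cons 1363 .nil .nil) .nil))) (.R (.cons 1364 (.cons 1363 .nil .nil) .nil)))) (.R (.cons 1364 (.cons 1428 (.cons 1492 (.cons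 1556 (.cons 1620 (.cons 1684 (.cons 1748 (.cons 1812 (.cons 1363 (.cons 1426 (.cons 1489 (.cons 1552 (.cons 1615 (.cons 1678 (.cons 1741 (.cons 1804 (.cons 1362 (.cons 1361 (.cons 1360 (.cons 1359 (.cons 1358 (.cons 1357 (.cons 1356 (.cons 1365 (.cons 1302 (.cons 1239 (.cons 1176 (.cons 1113 (.cons 1050 (.cons 987 (.cons 924 (.cons 861 (.cons 1238 (.cons 1237 (.cons 1236 (.cons 1235 (.cons 1298 (.cons 1234 .nil .nil) .nil) .nil) .nil) (.cons 1174 (.cons 1237 (.cons 1236 (.cons 1235 (.cons 1298 (.cons 1234 .nil .nil) .nil) .nil) .nil) .nil) .nil)) .nil) .nil) .nil) .nil) .nil) .nil) .nil) .nil) (.cons 1366 (.cons 1367 (.cons 1368 (.cons 1369 (.cons 1370 (.cons 1371 (.cons 1298 (.cons 1234 (.cons 1170 (.cons 1106 (.cons 1042 (.cons 978 (.cons 914 (.cons 850 (.cons 1235 (.cons 1172 (.cons 1109 (.cons 1046 (.cons 983 (.cons 920 (.cons 857 (.cons 794 (.cons 1236 (.cons 1237 (.cons 1238 (.cons 1302 (.cons 1239 .nil .nil) .nil)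 .nil) (.cons 1237 (.cons 1174 (.cons 1110 (.cons 1111 .nil .nil) .nil) (.cons 1238 (.cons 1302 (.cons 1239 .nil .nil) .nil) .nil)) .nil)) .nil) .nil) .nil) .nil) .nil) .nil) .nil) (.cons 1236 (.cons 1237 (.cons 1238 (.cons 1302 (.cons 1239 .nil .nil) .nil) .nil) .nil) .nil)) .nil) .nil) .nil) .nil) .nil) .nil) .nil) (.cons 1235 (.cons 1172 (.cons 1109 (.cons 1046 (.cons 983 (.cons 920 (.cons 857 (.cons 794 (.cons 1236 (.cons 1237 (.cons 1238 (.cons 1302 (.cons 1239 .nil .nil) .nil) .nil) (.cons 1237 (.cons 1174 (.cons 1110 (.cons 1111 .nil .nil) .nil) (.cons 1238 (.cons 1302 (.cons 1239 .nil .nil) .nil) .nil)) .nil)) .nil) .nil) .nil) .nil) .nil) .nil) .nil) .nil) .nil)) .nil) .nil) .nil) .nil) .nil) .nil) .nil)) .nil) .nil) .nil) .nil) .nil) .nil) (.cons 1298 (.cons 1234 (.cons 1170 (.cons 1106 (.cons 1042 (.cons 978 (.cons 914 (.cons 850 (.cons 1235 (.cons 1172 (.cons 1109 (.cons 1046 (.cons 983 (.cons 920 (.cons 857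 (.cons 794 (.cons 1236 (.cons 1237 (.cons 1238 (.cons 1239 (.cons 1240 (.cons 1241 (.cons 1242 (.cons 1243 (.cons 1244 (.cons 731 (.cons 1365 (.cons 1302 .nil (.cons 1302 (.cons 1366 .nil .nil) .nil)) .nil) .nil) .nil) .nil) .nil) .nil) .nil) .nil) .nil) (.cons 1237 (.cons 1174 (.cons 1110 (.cons 1111 .nil .nil) .nil) (.cons 1238 (.cons 1239 (.cons 1240 (.cons 1241 (.cons 1242 (.cons 1243 (.cons 1244 (.cons 731 (.cons 1365 (.cons 1302 .nil (.cons 1302 (.cons 1366 .nil .nil) .nil)) .nil) .nil) .nil) .nil) .nil) .nil) .nil) .nil) .nil)) .nil)) .nil) .nil) .nil) .nil) .nil) .nil) .nil) (.cons 1236 (.cons 1237 (.cons 1238 (.cons 1239 (.cons 1240 (.cons 1241 (.cons 1242 (.cons 1243 (.cons 1244 (.cons 1365 (.cons 1302 .nil (.cons 1302 (.cons 1366 .nil .nil) .nil)) .nil) .nil) .nil) .nil) .nil) .nil) .nil) .nil) .nil) .nil)) .nil) .nil) .nil) .nil) .nil) .nil) .nil) .nil) .nil)) .nil) .nil) .nil) .nil) .nil) .nil) .nil) (.cons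 1362 (.cons 1361 (.cons 1360 (.cons 1359 (.cons 1358 (.cons 1357 (.cons 1356 (.cons 1365 (.cons 1302 (.cons 1239 (.cons 1176 (.cons 1113 (.cons 1050 (.cons 987 (.cons 924 (.cons 861 (.cons 1238 (.cons 1237 (.cons 1236 (.cons 1235 (.cons 1298 (.cons 1234 .nil .nil) .nil) .nil) .nil) (.cons 1174 (.cons 1237 (.cons 1236 (.cons 1235 (.cons 1298 (.cons 1234 .nil .nil) .nil) .nil) .nil) .nil) .nil)) .nil) .nil) .nil) .nil) .nil) .nil) .nil) .nil) (.cons 1366 (.cons 1367 (.cons 1368 (.cons 1369 (.cons 1370 (.cons 1371 (.cons 1298 (.cons 1234 (.cons 1170 (.cons 1106 (.cons 1042 (.cons 978 (.cons 914 (.cons 850 (.cons 1235 (.cons 1172 (.cons 1109 (.cons 1046 (.cons 983 (.cons 920 (.cons 857 (.cons 794 (.cons 1236 (.cons 1237 (.cons 1238 (.cons 1302 (.cons 1239 .nil .nil) .nil) .nil) (.cons 1237 (.cons 1174 (.cons 1110 (.cons 1111 .nil .nil) .nil) (.cons 1238 (.cons 1302 (.cons 1239 .nil .nil) .nil) .nil)) .nil)) .nil) .nil) .nil)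 .nil) .nil) .nil) .nil) (.cons 1236 (.cons 1237 (.cons 1238 (.cons 1302 (.cons 1239 .nil .nil) .nil) .nil) .nil) .nil)) .nil) .nil) .nil) .nil) .nil) .nil) .nil) (.cons 1235 (.cons 1172 (.cons 1109 (.cons 1046 (.cons 983 (.cons 920 (.cons 857 (.cons 794 (.cons 1236 (.cons 1237 (.cons 1238 (.cons 1302 (.cons 1239 .nil .nil) .nil) .nil) (.cons 1237 (.cons 1174 (.cons 1110 (.cons 1111 .nil .nil) .nil) (.cons 1238 (.cons 1302 (.cons 1239 .nil .nil) .nil) .nil)) .nil)) .nil) .nil) .nil) .nil) .nil) .nil) .nil) .nil) .nil)) .nil) .nil) .nil) .nil) .nil) .nil) .nil)) .nil) .nil) .nil) .nil) .nil) .nil) .nil) .nil)) .nil) .nil) .nil) .nil) .nil) .nil) .nil) .nil) .nil)))) (.Y 1 1 (.Y 4 24 (.Y 7 37 (.D 24 1 7 30 40 (.C 30)) (.Y 35 65 (.D 1 4 35 10 60 (.C 10)) (.R (.cons 1236 (.cons 1237 .nil (.cons 1237 .nil .nil)) .nil)))) (.Y 7 37 (.Y 46 66 (.D 1 7 46 10 60 (.C 10)) (.R (.cons 1236 (.cons 1237 .nil (.cons 1237 .nil .nil)) .nil)))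 (.R (.cons 1364 (.cons 1236 (.cons 1237 .nil (.cons 1237 (.cons 1363 (.cons 1426 (.cons 1235 (.cons 1172 .nil (.cons 1172 (.cons 1238 (.cons 1174 (.cons 1362 (.cons 1361 (.cons 1298 (.cons 1234 (.cons 1365 (.cons 1428 (.cons 1302 (.cons 1366 .nil (.cons 1239 .nil .nil)) .nil) (.cons 1302 .nil .nil)) .nil) .nil) .nil) (.cons 1298 .nil .nil)) .nil) (.cons 1174 .nil .nil)) .nil) .nil)) .nil) (.cons 1362 (.cons 1235 (.cons 1172 .nil (.cons 1172 (.cons 1298 (.cons 1234 .nil .nil) .nil) .nil)) .nil) .nil)) .nil) .nil)) .nil) .nil)))) (.Y 4 24 (.Y 29 29 (.D 4 29 24 1 1 (.C 1)) (.Y 7 37 (.Y 43 43 (.D 7 43 37 1 1 (.C 1)) (.R (.cons 1236 (.cons 1237 .nil (.cons 1237 (.cons 1364 (.cons 1363 (.cons 1235 (.cons 1172 .nil (.cons 1172 (.cons 1238 (.cons 1174 (.cons 1362 (.cons 1298 .nil (.cons 1298 .nil .nil)) .nil) (.cons 1174 .nil .nil)) .nil) .nil)) .nil) (.cons 1363 (.cons 1235 (.cons 1172 .nil (.cons 1172 (.cons 1238 (.cons 1174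 (.cons 1362 (.cons 1298 .nil (.cons 1298 .nil .nil)) .nil) (.cons 1174 .nil .nil)) .nil) .nil)) .nil) .nil)) .nil) .nil)) .nil))) (.R (.cons 1364 (.cons 1363 (.cons 1362 (.cons 1365 (.cons 1298 (.cons 1235 (.cons 1236 .nil .nil) .nil) .nil) .nil) .nil) .nil) .nil)))) (.R (.cons 1364 (.cons 1363 (.cons 1426 (.cons 1362 (.cons 1428 (.cons 1365 (.cons 1361 (.cons 1298 (.cons 1234 (.cons 1235 (.cons 1172 (.cons 1236 (.cons 1237 (.cons 1238 (.cons 1174 (.cons 1109 (.cons 1239 (.cons 1302 (.cons 1366 .nil .nil) .nil) .nil) .nil) .nil) .nil) .nil) .nil) .nil) .nil) .nil) .nil) .nil) .nil) .nil) .nil) .nil) .nil) .nil))))))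

theorem chkK_ok : chkK dl6 pats6 TMK trK 0 0 = true := by
  decide +kernel

theorem goodK_TM (R : ZMod 6 → ZMod 6 → Bool → Prop) {m : ℕ} (hm : m ∈ TMK)
    (hR : ∀ b, m.testBit b = true → Rb R b) : GoodK R := by
  unfold TMK at hm
  simp only [List.mem_cons, List.not_mem_nil, or_false] at hm
  rcases hm with rfl | rfl | rfl | rfl | rfl
  · exact tmK_0 R hR
  · exact tmK_1 R hR
  · exact tmK_2 R hR
  · exact tmK_3 R hR
  · exact tmK_4 R hR

theorem dl6_okK : ∀ e ∈ dl6, e.1 < 6 ∧ ∀ c, cellOK c = true →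
    decC (c + e.2 - 4096) = decC c + hexDir (e.1 : ZMod 6) := by
  intro e he
  unfold dl6 at he
  simp only [List.mem_cons, List.not_mem_nil, or_false] at he
  rcases he with rfl | rfl | rfl | rfl | rfl | rfl
  · refine ⟨by norm_num, fun c hc => ?_⟩
    unfold cellOK at hc
    simp only [Bool.and_eq_true, Nat.ble_eq] at hc
    have hd : hexDir (((0 : ℕ)) : ZMod 6) = (1, 0) := by decide
    show decC (c + 4160 - 4096) = decC c + hexDir (((0 : ℕ)) : ZMod 6)
    rw [hd]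
    simp only [decC, Prod.mk_add_mk, Prod.mk.injEq]
    omega
  · refine ⟨by norm_num, fun c hc => ?_⟩
    unfold cellOK at hc
    simp only [Bool.and_eq_true, Nat.ble_eq] at hc
    have hd : hexDir (((1 : ℕ)) : ZMod 6) = (0, 1) := by decide
    show decC (c + 4097 - 4096) = decC c + hexDir (((1 : ℕ)) : ZMod 6)
    rw [hd]
    simp only [decC, Prod.mk_add_mk, Prod.mk.injEq]
    omega
  · refine ⟨by norm_num, fun c hc => ?_⟩
    unfold cellOK at hc
    simp only [Bool.and_eq_true, Nat.ble_eq] at hc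
    have hd : hexDir (((2 : ℕ)) : ZMod 6) = (-1, 1) := by decide
    show decC (c + 4033 - 4096) = decC c + hexDir (((2 : ℕ)) : ZMod 6)
    rw [hd]
    simp only [decC, Prod.mk_add_mk, Prod.mk.injEq]
    omega
  · refine ⟨by norm_num, fun c hc => ?_⟩
    unfold cellOK at hc
    simp only [Bool.and_eq_true, Nat.ble_eq] at hc
    have hd : hexDir (((3 : ℕ)) : ZMod 6) = (-1, 0) := by decide
    show decC (c + 4032 - 4096) = decC c + hexDir (((3 : ℕ)) : ZMod 6)
    rw [hd]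
    simp only [decC, Prod.mk_add_mk, Prod.mk.injEq]
    omega
  · refine ⟨by norm_num, fun c hc => ?_⟩
    unfold cellOK at hc
    simp only [Bool.and_eq_true, Nat.ble_eq] at hc
    have hd : hexDir (((4 : ℕ)) : ZMod 6) = (0, -1) := by decide
    show decC (c + 4095 - 4096) = decC c + hexDir (((4 : ℕ)) : ZMod 6)
    rw [hd]
    simp only [decC, Prod.mk_add_mk, Prod.mk.injEq]
    omega
  · refine ⟨by norm_num, fun c hc => ?_⟩
    unfold cellOK at hc
    simp only [Bool.and_eq_true, Nat.ble_eq] at hc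
    have hd : hexDir (((5 : ℕ)) : ZMod 6) = (1, -1) := by decide
    show decC (c + 4159 - 4096) = decC c + hexDir (((5 : ℕ)) : ZMod 6)
    rw [hd]
    simp only [decC, Prod.mk_add_mk, Prod.mk.injEq]
    omega

theorem core_kag {R : ZMod 6 → ZMod 6 → Bool → Prop} (hR : Closed R) {g : Z2 → Lab 6}
    (hg : ConK R g) : GoodK R := by
  obtain ⟨g', hg', h0⟩ := exists_rootK hg (p := (20, 20)) (by decide)
  obtain ⟨m, hm, hb⟩ := chkK_sound hR TMK hg' dl6_okK pats6_ok h0 trK 0 0 chkK_ok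
    (fun b hb => by simp at hb) (fun b hb => by simp at hb)
  exact goodK_TM R hm hb

end Pool.H3JG
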