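import Pool.Agent.Helper3.JT.DefsT

/-!
# Jigsaw tiles on the rhombille tiling: definitions

The centres of the rhombi of the rhombille tiling are the vertices of the kagome tiling: the points of
the fine hexagonal lattice which are not congruent to `(0, 1)` modulo `2`. The centre `0` has the four
neighbours in the directions `0, 2, 3, 5`. A tile at the place `z` may have the label `a` if the map
`x ↦ z + a x` preserves the set of the centres.
-/

namespace Pool.H3JG

open Set

/-- The class of a point of the fine lattice modulo two. -/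
def kap (z : Z2) : ZMod 2 × ZMod 2 := ((z.1 : ZMod 2), (z.2 : ZMod 2))

/-- The places. -/
def VK (z : Z2) : Prop := kap z ≠ (0, 1)

instance (z : Z2) : Decidable (VK z) := by
  unfold VK
  infer_instance

/-- The label `a` is allowed at the place `z`. -/
def OkK (z : Z2) (a : Lab 6) : Prop := kap z + kap (hexDir (act a 1)) = (0, 1)

instance (z : Z2) (a : Lab 6) : Decidable (OkK z a) := by
  unfold OkK
  infer_instance

/-- The directions of the neighbours of `0`. -/
def ek (i : ZMod 6) : Bool := !(i == 1) && !(i == 4)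

/-- The two classes of directions. -/
def ck (i : ZMod 6) : Bool := i == 0 || i == 3

/-- The symmetry of the tile around `0` which moves direction `0` to direction `i`. -/
def aK (i : ZMod 6) : Lab 6 := (i, !ck i)

/-- The open cell of direction `0` (a kite with vertices `0, (0, 1), (1, 0), (2/3, -1/3)`). -/
def kagU0 : Set V := {p | 0 < p.1 ∧ p.1 + p.2 < 1 ∧ p.1 - p.2 < 1 ∧ 0 < p.1 + 2 * p.2}

/-- The closed cell of direction `0`. -/
def kagD0 : Set V := {p | 0 ≤ p.1 ∧ p.1 + p.2 ≤ 1 ∧ p.1 - p.2 ≤ 1 ∧ 0 ≤ p.1 + 2 * p.2}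

/-- The open cell of direction `i`, for `i` in `0, 2, 3, 5`. -/
def UK (i : ZMod 6) : Set V := (hexMat (aK i)).ap '' kagU0

/-- The star of the rhombus: the union of its four closed cells. -/
def kagB : Set V := {p | ∃ i : ZMod 6, ek i = true ∧ (hexMat (aK i)).ap p ∈ kagD0}

/-- The rhombus around `0`. -/
def kagQ : Set V := {p | |2 * p.1 + p.2| ≤ 1 ∧ |p.1 - p.2| ≤ 1}

/-- The label of the neighbour in direction `i` with local edge `j` and relative flip `t`. -/
def bK (i j : ZMod 6) (t : Bool) : Lab 6 := (i + 3 - sg t j, t)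

/-- The matching relation: the tile at `0` with label one and the neighbour in direction `i` with
label `bK i j t` are complementary in the cell of direction `i`. -/
def relK (T : Set V) (i j : ZMod 6) (t : Bool) : Prop :=
  ek i = true ∧ ek j = true ∧ t = (ck i == ck j) ∧
    Fit (UK i) T (gridTri.tile T (hexDir i) (bK i j t))

/-- The tiles at `z` with label `a` and at `z + dir d` with label `b` are complementary in their
common cell. -/
def FitK (T : Set V) (z : Z2) (d : ZMod 6) (a b : Lab 6) : Prop :=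
  Fit (gridTri.pl z a '' UK (act (linv a) d)) (gridTri.tile T z a)
    (gridTri.tile T (z + hexDir d) b)

/-- Allowed contacts of a labelling of the places. -/
def ConK (R : ZMod 6 → ZMod 6 → Bool → Prop) (g : Z2 → Lab 6) : Prop :=
  (∀ z, VK z → OkK z (g z)) ∧
  ∀ z d, VK z → VK (z + hexDir d) → Con 3 R d (g z) (g (z + hexDir d))

/-- `(z, a)` is a symmetry of the labelling `g` of the places. -/
def SymK (g : Z2 → Lab 6) (z : Z2) (a : Lab 6) : Prop :=
  OkK z a ∧ ∀ v, VK v → g (mvR hexMat z a v) = lmul a (g v)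

/-- There is a labelling with allowed contacts such that the place `0`, or the place `0` and its
neighbour in direction `d`, form a system of representatives of the places under the symmetries of
the labelling. -/
def GoodK (R : ZMod 6 → ZMod 6 → Bool → Prop) : Prop :=
  ∃ g : Z2 → Lab 6, ConK R g ∧
    ∃ m : ℕ, 1 ≤ m ∧ m ≤ 2 ∧ ∃ d : ZMod 6, ek d = true ∧
      (∀ w, VK w → ∃ z a, ∃ i : Fin m, SymK g z a ∧ mvR hexMat z a (rep hexDir d i) = w) ∧
      (∀ (i j : Fin m) (z : Z2) (a : Lab 6), SymK g z a →
        mvR hexMat z a (rep hexDir d i) = rep hexDir d j → i = j)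

/-- The copies `pl z (g z) '' T`, `z` a place, tile the plane. -/
def TilesK (T : Set V) (g : Z2 → Lab 6) : Prop :=
  (∀ p : V, ∃ z, VK z ∧ p ∈ gridTri.tile T z (g z)) ∧
  ∀ z w, VK z → VK w → z ≠ w →
    Disjoint (interior (gridTri.tile T z (g z))) (interior (gridTri.tile T w (g w)))

/-- The centres of the rhombi of the rhombille tiling, in Cartesian coordinates. -/
def RhombusCentres : Set E :=
  {p | ∃ a b : ℤ, ¬ (a % 2 = 0 ∧ b % 2 = 1) ∧
    p = !₂[(a : ℝ) + (b : ℝ) / 2, Real.sqrt 3 / 2 * (b : ℝ)]}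

theorem VK_iff (z : Z2) : VK z ↔ ¬ (z.1 % 2 = 0 ∧ z.2 % 2 = 1) := by
  unfold VK kap
  rw [ne_eq, not_iff_not, Prod.mk.injEq]
  have h0 : (0 : ZMod 2) = ((0 : ℤ) : ZMod 2) := by norm_num
  have h1 : (1 : ZMod 2) = ((1 : ℤ) : ZMod 2) := by norm_num
  rw [h0, h1, ZMod.intCast_eq_intCast_iff, ZMod.intCast_eq_intCast_iff]
  unfold Int.ModEq
  norm_num

theorem rhombusCentres_eq :
    RhombusCentres = (fun z : Z2 => hexF (toV z)) '' {z | VK z} := by
  ext p
  constructor
  · rintro ⟨a, b, h, rfl⟩
    exact ⟨(a, b), (VK_iff (a, b)).2 h, rfl⟩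
  · rintro ⟨z, hz, rfl⟩
    exact ⟨z.1, z.2, (VK_iff z).1 hz, rfl⟩

end Pool.H3JG
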