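import Pool.Agent.Helper3.JK.OkK

/-!
# Jigsaw tiles on the rhombille tiling: elementary facts about the rhombus

`kagQ = {|2x + y| ≤ 1, |x - y| ≤ 1}` (vertices `(0, 1), (2/3, -1/3), (0, -1), (-2/3, 1/3)`). The labels
allowed at `0` are `(0, false), (3, false), (2, true), (5, true)`. `UK_Q`: it is enough to treat
`d = 0`, `b = (3, true)`: `pl (1, 0) (3, true)` is `(x, y) ↦ (1 - x - y, y)` (the other `b` allowed at
`hexDir d` differ by a symmetry of the rhombus, `kagQ_mat`). `kag_ball`: closed convex bounded set with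
nonempty interior, compare `tri_ball` in `JT/DiskT.lean`.
-/

namespace Pool.H3JG

open Set

private theorem DiskK_a0 (p : V) : (hexMat (aK 0)).ap p = (p.1, p.2) := by
  rw [show hexMat (aK 0) = ⟨1, 0, 0, 1⟩ from rfl]
  simp [Mat.ap]

private theorem DiskK_a3 (p : V) : (hexMat (aK 3)).ap p = (-p.1, -p.2) := by
  rw [show hexMat (aK 3) = ⟨-1, 0, 0, -1⟩ from rfl]
  simp [Mat.ap]

private theorem DiskK_a2 (p : V) : (hexMat (aK 2)).ap p = (-p.1, p.1 + p.2) := by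
  rw [show hexMat (aK 2) = ⟨-1, 0, 1, 1⟩ from rfl]
  simp [Mat.ap]

private theorem DiskK_a5 (p : V) : (hexMat (aK 5)).ap p = (p.1, -p.1 - p.2) := by
  rw [show hexMat (aK 5) = ⟨1, 0, -1, -1⟩ from rfl]
  simp [Mat.ap, sub_eq_add_neg]

private theorem DiskK_cases {i : ZMod 6} (h : ek i = true) : i = 0 ∨ i = 2 ∨ i = 3 ∨ i = 5 := by
  revert i
  decide

private theorem DiskK_inv {i : ZMod 6} (h : ek i = true) (p : V) :
    (hexMat (aK i)).ap ((hexMat (aK i)).ap p) = p := by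
  have h1 := gridHex.ap_linv_ap (aK i) p
  rw [linv_aK h] at h1
  exact h1

private theorem DiskK_labels {a : Lab 6} (h : OkK 0 a) : ∃ i : ZMod 6, ek i = true ∧ a = aK i := by
  have key : ∀ a : Lab 6, (0 : ZMod 2 × ZMod 2) + kap (hexDir (act a 1)) = (0, 1) →
      ∃ i : ZMod 6, ek i = true ∧ a = aK i := by
    decide +kernel
  unfold OkK at h
  rw [kap_zero] at h
  exact key a h

theorem kagQ_B : kagQ ⊆ kagB := by
  rintro ⟨x, y⟩ ⟨h1, h2⟩
  rw [abs_le] at h1 h2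
  obtain ⟨h1a, h1b⟩ := h1
  obtain ⟨h2a, h2b⟩ := h2
  simp only at h1a h1b h2a h2b
  rcases le_total 0 x with hx | hx
  · rcases le_total 0 (x + 2 * y) with hy | hy
    · refine ⟨0, by decide, ?_⟩
      rw [DiskK_a0]
      refine ⟨?_, ?_, ?_, ?_⟩ <;> simp only <;> linarith
    · refine ⟨5, by decide, ?_⟩
      rw [DiskK_a5]
      refine ⟨?_, ?_, ?_, ?_⟩ <;> simp only <;> linarith
  · rcases le_total 0 (x + 2 * y) with hy | hy
    · refine ⟨2, by decide, ?_⟩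
      rw [DiskK_a2]
      refine ⟨?_, ?_, ?_, ?_⟩ <;> simp only <;> linarith
    · refine ⟨3, by decide, ?_⟩
      rw [DiskK_a3]
      refine ⟨?_, ?_, ?_, ?_⟩ <;> simp only <;> linarith

theorem UK_B : ∀ e, ek e = true → UK e ⊆ kagB := by
  rintro e he _ ⟨p, hp, rfl⟩
  refine ⟨e, he, ?_⟩
  rw [DiskK_inv he]
  obtain ⟨a1, a2, a3, a4⟩ := hp
  exact ⟨a1.le, a2.le, a3.le, a4.le⟩

/-- the quadrants -/
private theorem DiskK_quad {e : ZMod 6} (he : ek e = true) {p : V} (hp : p ∈ UK e) :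
    (e = 0 ∧ 0 < p.1 ∧ 0 < p.1 + 2 * p.2) ∨ (e = 2 ∧ p.1 < 0 ∧ 0 < p.1 + 2 * p.2) ∨
      (e = 3 ∧ p.1 < 0 ∧ p.1 + 2 * p.2 < 0) ∨ (e = 5 ∧ 0 < p.1 ∧ p.1 + 2 * p.2 < 0) := by
  obtain ⟨q, ⟨h1, -, -, h4⟩, rfl⟩ := hp
  rcases DiskK_cases he with rfl | rfl | rfl | rfl
  · refine Or.inl ⟨rfl, ?_⟩
    rw [DiskK_a0]
    constructor <;> simp only <;> linarith
  · refine Or.inr (Or.inl ⟨rfl, ?_⟩)
    rw [DiskK_a2]
    constructor <;> simp only <;> linarith
  · refine Or.inr (Or.inr (Or.inl ⟨rfl, ?_⟩))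
    rw [DiskK_a3]
    constructor <;> simp only <;> linarith
  · refine Or.inr (Or.inr (Or.inr ⟨rfl, ?_⟩))
    rw [DiskK_a5]
    constructor <;> simp only <;> linarith

theorem UK_disj : ∀ e f, ek e = true → ek f = true → e ≠ f → Disjoint (UK e) (UK f) := by
  intro e f he hf hef
  rw [Set.disjoint_left]
  intro p hp hp'
  rcases DiskK_quad he hp with ⟨rfl, h1, h2⟩ | ⟨rfl, h1, h2⟩ | ⟨rfl, h1, h2⟩ | ⟨rfl, h1, h2⟩ <;>
    rcases DiskK_quad hf hp' with ⟨rfl, h3, h4⟩ | ⟨rfl, h3, h4⟩ | ⟨rfl, h3, h4⟩ | ⟨rfl, h3, h4⟩ <;>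
    first
    | exact hef rfl
    | linarith

private theorem DiskK_sub {i : ZMod 6} (hi : ek i = true) {p : V} (hp : p ∈ kagQ) :
    (hexMat (aK i)).ap p ∈ kagQ := by
  obtain ⟨h1, h2⟩ := hp
  rw [abs_le] at h1 h2
  obtain ⟨h1a, h1b⟩ := h1
  obtain ⟨h2a, h2b⟩ := h2
  rcases DiskK_cases hi with rfl | rfl | rfl | rfl
  · rw [DiskK_a0]
    refine ⟨abs_le.2 ⟨?_, ?_⟩, abs_le.2 ⟨?_, ?_⟩⟩ <;> simp only <;> linarith
  · rw [DiskK_a2]
    refine ⟨abs_le.2 ⟨?_, ?_⟩, abs_le.2 ⟨?_, ?_⟩⟩ <;> simp only <;> linarith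
  · rw [DiskK_a3]
    refine ⟨abs_le.2 ⟨?_, ?_⟩, abs_le.2 ⟨?_, ?_⟩⟩ <;> simp only <;> linarith
  · rw [DiskK_a5]
    refine ⟨abs_le.2 ⟨?_, ?_⟩, abs_le.2 ⟨?_, ?_⟩⟩ <;> simp only <;> linarith

theorem kagQ_mat : ∀ a, OkK 0 a → (hexMat a).ap '' kagQ = kagQ := by
  intro a ha
  obtain ⟨i, hi, rfl⟩ := DiskK_labels ha
  apply Subset.antisymm
  · rintro _ ⟨p, hp, rfl⟩
    exact DiskK_sub hi hp
  · intro p hp
    exact ⟨_, DiskK_sub hi hp, DiskK_inv hi p⟩

private theorem DiskK_step {q : V} (hq : q ∈ kagU0) :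
    q ∈ kagQ ∨ ∃ r ∈ kagQ, q = gridTri.pl (hexDir 0) (3, true) r := by
  obtain ⟨x, y⟩ := q
  obtain ⟨h1, h2, h3, h4⟩ := hq
  simp only at h1 h2 h3 h4
  rcases le_total (2 * x + y) 1 with h | h
  · refine Or.inl ⟨abs_le.2 ⟨?_, ?_⟩, abs_le.2 ⟨?_, ?_⟩⟩ <;> simp only <;> linarith
  · refine Or.inr ⟨(1 - x - y, y), ⟨abs_le.2 ⟨?_, ?_⟩, abs_le.2 ⟨?_, ?_⟩⟩, ?_⟩
    · simp only
      linarith
    · simp only
      linarith
    · simp only
      linarith
    · simp only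
      linarith
    · show (x, y) = toV (hexDir 0) + (hexMat (3, true)).ap (1 - x - y, y)
      rw [show hexMat (3, true) = ⟨-1, -1, 0, 1⟩ from rfl, show hexDir 0 = (1, 0) from rfl]
      unfold toV Mat.ap
      ext
      · simp
        ring
      · simp

theorem UK_Q {d : ZMod 6} (hd : ek d = true) {b : Lab 6} (hb : OkK (hexDir d) b) :
    UK d ⊆ kagQ ∪ gridTri.pl (hexDir d) b '' kagQ := by
  rintro _ ⟨q, hq, rfl⟩
  rcases DiskK_step hq with h | ⟨r, hr, rfl⟩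
  · left
    rw [← kagQ_mat _ (okK_aK hd)]
    exact mem_image_of_mem _ h
  · right
    have key : ∀ (d : ZMod 6) (b : Lab 6), ek d = true →
        kap (hexDir d) + kap (hexDir (act b 1)) = (0, 1) →
        (0 : ZMod 2 × ZMod 2) +
          kap (hexDir (act (lmul (linv b) (lmul (aK d) (3, true))) 1)) = (0, 1) := by
      decide +kernel
    have hlab : ∀ (b c : Lab 6), lmul b (lmul (linv b) c) = c := by
      decide +kernel
    have hOk : OkK 0 (lmul (linv b) (lmul (aK d) (3, true))) := by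
      unfold OkK
      rw [kap_zero]
      exact key d b hd hb
    have h1 : (hexMat (aK d)).ap (gridTri.pl (hexDir 0) (3, true) r) =
        gridTri.pl (hexDir d) (lmul (aK d) (3, true)) r := by
      have h2 := gridTri.pl_pl 0 (hexDir 0) (aK d) (3, true) r
      rw [gridTri.pl_zero] at h2
      have h3 : mvR gridTri.mat 0 (aK d) (hexDir 0) = hexDir d := by
        unfold mvR
        rw [zero_add]
        have h4 := gridTri.mat_dir (aK d) 0
        rw [act_aK] at h4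
        exact h4
      rw [h3] at h2
      exact h2
    rw [h1]
    refine ⟨(hexMat (lmul (linv b) (lmul (aK d) (3, true)))).ap r, ?_, ?_⟩
    · rw [← kagQ_mat _ hOk]
      exact mem_image_of_mem _ hr
    · show toV (hexDir d) + (hexMat b).ap
        ((hexMat (lmul (linv b) (lmul (aK d) (3, true)))).ap r) = toV (hexDir d) +
          (hexMat (lmul (aK d) (3, true))).ap r
      rw [← Mat.ap_mul, ← GridHex_mul, hlab]

private theorem DiskK_closed : IsClosed kagQ := by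
  have h1 : IsClosed {p : V | |2 * p.1 + p.2| ≤ 1} := isClosed_le (by fun_prop) (by fun_prop)
  have h2 : IsClosed {p : V | |p.1 - p.2| ≤ 1} := isClosed_le (by fun_prop) (by fun_prop)
  exact h1.inter h2

private theorem DiskK_compact : IsCompact kagQ := by
  refine (isCompact_closedBall (0 : V) 1).of_isClosed_subset DiskK_closed ?_
  rintro ⟨x, y⟩ ⟨h1, h2⟩
  rw [abs_le] at h1 h2
  obtain ⟨h1a, h1b⟩ := h1
  obtain ⟨h2a, h2b⟩ := h2
  simp only at h1a h1b h2a h2b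
  rw [mem_closedBall_zero_iff, Prod.norm_def, max_le_iff, Real.norm_eq_abs, Real.norm_eq_abs,
    abs_le, abs_le]
  refine ⟨⟨?_, ?_⟩, ?_, ?_⟩ <;> simp only <;> linarith

private theorem DiskK_convex : Convex ℝ kagQ := by
  have key : ∀ a b s t : ℝ, 0 ≤ a → 0 ≤ b → a + b = 1 → s ≤ 1 → t ≤ 1 → a * s + b * t ≤ 1 := by
    intro a b s t ha hb hab hs ht
    have h2 := mul_le_mul_of_nonneg_left hs ha
    have h4 := mul_le_mul_of_nonneg_left ht hb
    linarith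
  rintro ⟨x, y⟩ ⟨p1, p2⟩ ⟨x', y'⟩ ⟨q1, q2⟩ a b ha hb hab
  rw [abs_le] at p1 p2 q1 q2
  obtain ⟨p1a, p1b⟩ := p1
  obtain ⟨p2a, p2b⟩ := p2
  obtain ⟨q1a, q1b⟩ := q1
  obtain ⟨q2a, q2b⟩ := q2
  simp only at p1a p1b p2a p2b q1a q1b q2a q2b
  have k1 := key a b _ _ ha hb hab p1b q1b
  have k2 := key a b _ _ ha hb hab p2b q2b
  have k3 := key a b (-(2 * x + y)) (-(2 * x' + y')) ha hb hab (by linarith) (by linarith)
  have k4 := key a b (-(x - y)) (-(x' - y')) ha hb hab (by linarith) (by linarith)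
  simp only [Prod.smul_mk, Prod.mk_add_mk, smul_eq_mul]
  refine ⟨abs_le.2 ⟨?_, ?_⟩, abs_le.2 ⟨?_, ?_⟩⟩ <;> simp only <;> linarith [k1, k2, k3, k4]

private theorem DiskK_interior : (interior kagQ).Nonempty := by
  refine ⟨(0, 0), mem_interior.2 ⟨{p : V | |2 * p.1 + p.2| < 1} ∩ {p : V | |p.1 - p.2| < 1},
    ?_, ?_, ?_⟩⟩
  · rintro p ⟨h1, h2⟩
    exact ⟨le_of_lt h1, le_of_lt h2⟩
  · have h1 : IsOpen {p : V | |2 * p.1 + p.2| < 1} := isOpen_lt (by fun_prop) (by fun_prop)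
    have h2 : IsOpen {p : V | |p.1 - p.2| < 1} := isOpen_lt (by fun_prop) (by fun_prop)
    exact h1.inter h2
  · refine ⟨?_, ?_⟩ <;> simp

theorem kag_ball : Nonempty (↥(hexF '' kagQ) ≃ₜ ↥(Metric.closedBall (0 : E) 1)) := by
  have hF : (RealHex_F : V → E) = hexF := rfl
  have hcomp : IsCompact (hexF '' kagQ) := by
    rw [← hF]
    exact DiskK_compact.image RealHex_F.continuous
  have hconv : Convex ℝ (hexF '' kagQ) :=
    DiskK_convex.is_linear_image ⟨hexF_add, RealHex_smul⟩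
  have hint : (interior (hexF '' kagQ)).Nonempty := by
    rw [← hF, ← Homeomorph.image_interior]
    exact DiskK_interior.image _
  obtain ⟨h, -, h2, -⟩ := exists_homeomorph_image_interior_closure_frontier_eq_unitBall hconv hint
    hcomp.isBounded
  rw [hcomp.isClosed.closure_eq] at h2
  exact ⟨(h.image (hexF '' kagQ)).trans (Homeomorph.setCongr h2)⟩

end Pool.H3JG
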