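import Pool.Agent.Helper3.JK.DiskK

/-!
# Jigsaw tiles on the rhombille tiling: two neighbouring rhombi form a disk

By a symmetry of the rhombus around `0` it is enough to treat `d = 0`, and by `kagQ_mat` the label
`b = (3, true)`: `pl (1, 0) (3, true)` is the reflection `(x, y) ↦ (1 - x - y, y)`. Put `u := 2x + y`
(then the reflection is `u ↦ 2 - u`, `y ↦ y`); `kagQ = {|u| ≤ 1, |u - 3y| ≤ 2}` since
`x - y = (u - 3y) / 2`. The union is `{-1 ≤ u ≤ 3, |h u - 3y| ≤ 2}` with `h u = u` for `u ≤ 1` and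
`h u = 2 - u` for `u ≥ 1`, that is `h u = 1 - |u - 1|`. The shear-like homeomorphism
`(u, y) ↦ (u, h u - 3y)` of the plane maps it onto a rectangle (convex body). Compare
`JD/DiskHex2.lean`.
-/

namespace Pool.H3JG

open Set

/-- The homeomorphism that maps the double rhombus onto a rectangle. -/
private noncomputable def Tk : V ≃ₜ V where
  toFun p := (2 * p.1 + p.2, 1 - |2 * p.1 + p.2 - 1| - 3 * p.2)
  invFun q := ((q.1 - (1 - |q.1 - 1| - q.2) / 3) / 2, (1 - |q.1 - 1| - q.2) / 3)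
  left_inv p := by
    apply Prod.ext
    · show (2 * p.1 + p.2 - (1 - |2 * p.1 + p.2 - 1| -
        (1 - |2 * p.1 + p.2 - 1| - 3 * p.2)) / 3) / 2 = p.1
      ring
    · show (1 - |2 * p.1 + p.2 - 1| - (1 - |2 * p.1 + p.2 - 1| - 3 * p.2)) / 3 = p.2
      ring
  right_inv q := by
    have e1 : 2 * ((q.1 - (1 - |q.1 - 1| - q.2) / 3) / 2) + (1 - |q.1 - 1| - q.2) / 3 = q.1 := by
      ring
    apply Prod.ext
    · exact e1
    · show 1 - |2 * ((q.1 - (1 - |q.1 - 1| - q.2) / 3) / 2) + (1 - |q.1 - 1| - q.2) / 3 - 1| -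
        3 * ((1 - |q.1 - 1| - q.2) / 3) = q.2
      rw [e1]
      ring
  continuous_toFun := by fun_prop
  continuous_invFun := by fun_prop

/-- The rectangle. -/
private def RK : Set V := Icc (-1) 3 ×ˢ Icc (-2) 2

/-- The reflection of the rhombus. -/
private theorem refl_eq (p : V) :
    toV (hexDir 0) + (hexMat (3, true)).ap p = (1 - p.1 - p.2, p.2) := by
  rw [show hexDir 0 = (1, 0) from rfl,
    show hexMat (3, true) = ⟨-1, -1, 0, 1⟩ from rfl]
  unfold toV Mat.ap
  apply Prod.ext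
  · show ((1 : ℤ) : ℝ) + (((-1 : ℤ) : ℝ) * p.1 + ((-1 : ℤ) : ℝ) * p.2) = 1 - p.1 - p.2
    push_cast
    ring
  · show ((0 : ℤ) : ℝ) + (((0 : ℤ) : ℝ) * p.1 + ((1 : ℤ) : ℝ) * p.2) = p.2
    push_cast
    ring

private theorem mem_kagQQ (p : V) :
    p ∈ kagQ ∪ (fun p : V => ((1 - p.1 - p.2, p.2) : V)) '' kagQ ↔
      -1 ≤ 2 * p.1 + p.2 ∧ 2 * p.1 + p.2 ≤ 3 ∧ |1 - |2 * p.1 + p.2 - 1| - 3 * p.2| ≤ 2 := by
  have h1 : p ∈ (fun p : V => ((1 - p.1 - p.2, p.2) : V)) '' kagQ ↔
      ((1 - p.1 - p.2, p.2) : V) ∈ kagQ := by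
    constructor
    · rintro ⟨q, hq, rfl⟩
      have : ((1 - (1 - q.1 - q.2) - q.2, q.2) : V) = q := by
        apply Prod.ext
        · show 1 - (1 - q.1 - q.2) - q.2 = q.1
          ring
        · rfl
      show ((1 - (1 - q.1 - q.2) - q.2, q.2) : V) ∈ kagQ
      rw [this]
      exact hq
    · intro hq
      refine ⟨(1 - p.1 - p.2, p.2), hq, ?_⟩
      apply Prod.ext
      · show 1 - (1 - p.1 - p.2) - p.2 = p.1
        ring
      · rfl
  rw [mem_union, h1]
  show (|2 * p.1 + p.2| ≤ 1 ∧ |p.1 - p.2| ≤ 1) ∨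
    (|2 * (1 - p.1 - p.2) + p.2| ≤ 1 ∧ |(1 - p.1 - p.2) - p.2| ≤ 1) ↔ _
  simp only [abs_le]
  constructor
  · rintro (⟨⟨a1, a2⟩, b1, b2⟩ | ⟨⟨a1, a2⟩, b1, b2⟩)
    · have e : |2 * p.1 + p.2 - 1| = 1 - (2 * p.1 + p.2) := by
        rw [abs_of_nonpos (by linarith)]
        ring
      rw [e]
      refine ⟨by linarith, by linarith, by linarith, by linarith⟩
    · have e : |2 * p.1 + p.2 - 1| = 2 * p.1 + p.2 - 1 := abs_of_nonneg (by linarith)
      rw [e]
      refine ⟨by linarith, by linarith, by linarith, by linarith⟩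
  · rintro ⟨a1, a2, b1, b2⟩
    rcases le_total (2 * p.1 + p.2) 1 with h5 | h5
    · left
      have e : |2 * p.1 + p.2 - 1| = 1 - (2 * p.1 + p.2) := by
        rw [abs_of_nonpos (by linarith)]
        ring
      rw [e] at b1 b2
      exact ⟨⟨by linarith, by linarith⟩, by linarith, by linarith⟩
    · right
      have e : |2 * p.1 + p.2 - 1| = 2 * p.1 + p.2 - 1 := abs_of_nonneg (by linarith)
      rw [e] at b1 b2
      exact ⟨⟨by linarith, by linarith⟩, by linarith, by linarith⟩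

private theorem Tk_image :
    Tk '' (kagQ ∪ (fun p : V => ((1 - p.1 - p.2, p.2) : V)) '' kagQ) = RK := by
  have h1 : kagQ ∪ (fun p : V => ((1 - p.1 - p.2, p.2) : V)) '' kagQ = Tk ⁻¹' RK := by
    ext p
    rw [mem_kagQQ]
    show _ ↔ (-1 ≤ 2 * p.1 + p.2 ∧ 2 * p.1 + p.2 ≤ 3) ∧
      (-2 ≤ 1 - |2 * p.1 + p.2 - 1| - 3 * p.2 ∧ 1 - |2 * p.1 + p.2 - 1| - 3 * p.2 ≤ 2)
    rw [abs_le, and_assoc]
  rw [h1]
  exact Tk.toEquiv.surjective.image_preimage _

/-- The linear map of the Cartesian coordinates. -/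
private noncomputable def FLK : V →ₗ[ℝ] E where
  toFun := hexF
  map_add' := hexF_add
  map_smul' := RealHex_smul

private theorem RK_ball : ∃ h : E ≃ₜ E, h '' (RealHex_F '' RK) = Metric.closedBall 0 1 := by
  have hconv : Convex ℝ (RealHex_F '' RK) :=
    ((convex_Icc (-1 : ℝ) 3).prod (convex_Icc (-2 : ℝ) 2)).linear_image FLK
  have hcomp : IsCompact (RealHex_F '' RK) := (isCompact_Icc.prod isCompact_Icc).image
    RealHex_F.continuous
  have hne : (interior (RealHex_F '' RK)).Nonempty := by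
    rw [← RealHex_F.image_interior, RK, interior_prod_eq, interior_Icc, interior_Icc]
    refine Nonempty.image _ ⟨(0, 0), ⟨?_, ?_⟩, ⟨?_, ?_⟩⟩ <;> norm_num
  obtain ⟨h, -, h1, -⟩ := exists_homeomorph_image_interior_closure_frontier_eq_unitBall hconv hne
    hcomp.isBounded
  rw [hcomp.isClosed.closure_eq] at h1
  exact ⟨h, h1⟩

/-- The labels of the neighbours. -/
private theorem lab_split {d : ZMod 6} (hd : ek d = true) {b : Lab 6} (hb : OkK (hexDir d) b) :
    ∃ c : Lab 6, OkK 0 c ∧ b = lmul (aK d) (lmul (3, true) c) := by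
  have key : ∀ (d : ZMod 6) (b : Lab 6), ek d = true →
      kap (hexDir d) + kap (hexDir (act b 1)) = (0, 1) →
      ∃ c : Lab 6, (0 : ZMod 2 × ZMod 2) + kap (hexDir (act c 1)) = (0, 1) ∧
        b = lmul (aK d) (lmul (3, true) c) := by
    decide +kernel
  obtain ⟨c, hc1, hc2⟩ := key d b hd hb
  refine ⟨c, ?_, hc2⟩
  unfold OkK
  rw [kap_zero]
  exact hc1

private theorem rotK_image {d : ZMod 6} (hd : ek d = true) {b : Lab 6}
    (hb : OkK (hexDir d) b) :
    gridTri.plH 0 (aK d) '' (kagQ ∪ (fun p : V => ((1 - p.1 - p.2, p.2) : V)) '' kagQ) =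
      kagQ ∪ gridTri.pl (hexDir d) b '' kagQ := by
  obtain ⟨c, hc1, hc2⟩ := lab_split hd hb
  have h1 : ∀ p, gridTri.plH 0 (aK d) p = (hexMat (aK d)).ap p := fun p =>
    gridTri.pl_zero (aK d) p
  have h0 : (⇑(gridTri.plH 0 (aK d)) : V → V) = (hexMat (aK d)).ap := funext h1
  have h2 : gridTri.plH 0 (aK d) '' kagQ = kagQ := by
    rw [h0]
    exact kagQ_mat _ (okK_aK hd)
  have h3 : (hexMat (aK d)).ap (toV (hexDir 0)) = toV (hexDir d) := by
    rw [← toV_apZ]
    have h4 := gridTri.mat_dir (aK d) 0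
    rw [act_aK] at h4
    exact congrArg toV h4
  have h5 : ∀ x, gridTri.pl (hexDir d) b x =
      gridTri.plH 0 (aK d) (1 - ((hexMat c).ap x).1 - ((hexMat c).ap x).2, ((hexMat c).ap x).2) := by
    intro x
    rw [h1, ← refl_eq, Mat.ap_add, h3, ← Mat.ap_mul, ← Mat.ap_mul]
    have h6 : hexMat b = ((hexMat (aK d)).mul (hexMat (3, true))).mul (hexMat c) := by
      have e1 := gridTri.mat_mul (aK d) (lmul (3, true) c)
      have e2 := gridTri.mat_mul (3, true) c
      have e3 : hexMat (lmul (aK d) (lmul (3, true) c)) =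
          (hexMat (aK d)).mul (hexMat (lmul (3, true) c)) := e1
      have e4 : hexMat (lmul (3, true) c) = (hexMat (3, true)).mul (hexMat c) := e2
      rw [hc2, e3, e4]
      unfold Mat.mul
      simp only [Mat.mk.injEq]
      refine ⟨?_, ?_, ?_, ?_⟩ <;> ring
    show toV (hexDir d) + (hexMat b).ap x = _
    rw [h6]
  have h7 : gridTri.pl (hexDir d) b '' kagQ =
      gridTri.plH 0 (aK d) '' ((fun p : V => ((1 - p.1 - p.2, p.2) : V)) '' kagQ) := by
    conv_rhs => rw [← kagQ_mat c hc1]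
    rw [image_image, image_image]
    exact image_congr fun x _ => h5 x
  rw [image_union, h2, h7]

theorem kag_ball2 {d : ZMod 6} (hd : ek d = true) {b : Lab 6} (hb : OkK (hexDir d) b) :
    Nonempty (↥(hexF '' (kagQ ∪ gridTri.pl (hexDir d) b '' kagQ)) ≃ₜ
      ↥(Metric.closedBall (0 : E) 1)) := by
  obtain ⟨h, hh⟩ := RK_ball
  set S := kagQ ∪ gridTri.pl (hexDir d) b '' kagQ with hS
  set M := gridTri.plH 0 (aK d) with hM
  have h1 : M.symm '' S = kagQ ∪ (fun p : V => ((1 - p.1 - p.2, p.2) : V)) '' kagQ := by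
    rw [hS, ← rotK_image hd hb, image_image]
    simp only [← hM, Homeomorph.symm_apply_apply, image_id']
  let Ψ : E ≃ₜ E := RealHex_F.symm.trans (M.symm.trans (Tk.trans (RealHex_F.trans h)))
  have h2 : Ψ '' (hexF '' S) = Metric.closedBall (0 : E) 1 := by
    rw [← hh, ← Tk_image, ← h1, image_image, image_image, image_image, image_image]
    refine image_congr fun p _ => ?_
    show h (RealHex_F (Tk (M.symm (RealHex_F.symm (RealHex_F p))))) = _
    rw [RealHex_F.symm_apply_apply]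
  exact ⟨(Ψ.image _).trans (Homeomorph.setCongr h2)⟩

end Pool.H3JG
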