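import Pool.Agent.Helper3.JD.GlueH
import Pool.Agent.Helper3.JK.DiskK
import Pool.Agent.Helper3.JK.SepK

/-!
# Jigsaw tiles on the rhombille tiling: the union of two neighbouring jigsaw tiles

Copy of `JD/Glue.lean` with the cells `UK e` (`e` with `ek e = true`) around `0`, moved by `pl 0 a`
(which permutes them, `UK_act`), and the cells `pl (hexDir d) b '' UK e` around `hexDir d`; the shared
cell is `UK d = pl (hexDir d) b '' UK (act (linv b) (d + 3))` (`UK_bK` up to a symmetry of the
rhombus); the other cells around `hexDir d` are disjoint from all cells around `0` (`kag_sep` with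
`T := kagB`, and `UK_disj`). Facts on the rhombus: `DiskK.lean`.
-/

namespace Pool.H3JG

open Set

private theorem GlueK_conj {ψ : V ≃ₜ V} (h1 : ∀ p, (∀ e, ek e = true → p ∉ UK e) → ψ p = p)
    (h2 : ∀ e, ek e = true → ∀ p ∈ UK e, ψ p ∈ UK e) (w : Z2) (c : Lab 6) :
    ∃ β : V ≃ₜ V, (∀ p, (∀ e, ek e = true → p ∉ gridTri.pl w c '' UK e) → β p = p) ∧
      (∀ e, ek e = true → ∀ p, p ∈ gridTri.pl w c '' UK e → β p ∈ gridTri.pl w c '' UK e) ∧
      ∀ p, β p ∈ gridTri.tile (ψ '' kagQ) w c ↔ p ∈ gridTri.pl w c '' kagQ := by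
  have hβ : ∀ q : V, ((gridTri.plH w c).symm.trans (ψ.trans (gridTri.plH w c)))
      (gridTri.pl w c q) = gridTri.pl w c (ψ q) := by
    intro q
    show (gridTri.plH w c) (ψ ((gridTri.plH w c).symm ((gridTri.plH w c) q))) = _
    rw [Homeomorph.symm_apply_apply]
    rfl
  have hinj : Function.Injective (gridTri.pl w c) := (gridTri.plH w c).injective
  refine ⟨(gridTri.plH w c).symm.trans (ψ.trans (gridTri.plH w c)), ?_, ?_, ?_⟩
  · intro p hp
    obtain ⟨q, rfl⟩ : ∃ q, gridTri.pl w c q = p := (gridTri.plH w c).surjective p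
    rw [hβ, h1 q]
    intro e he hq
    exact hp e he (mem_image_of_mem _ hq)
  · rintro e he _ ⟨q, hq, rfl⟩
    rw [hβ]
    exact mem_image_of_mem _ (h2 e he q hq)
  · intro p
    obtain ⟨q, rfl⟩ : ∃ q, gridTri.pl w c q = p := (gridTri.plH w c).surjective p
    rw [hβ]
    show gridTri.pl w c (ψ q) ∈ gridTri.pl w c '' (ψ '' kagQ) ↔ _
    rw [hinj.mem_set_image, hinj.mem_set_image, ψ.injective.mem_set_image]

private theorem GlueK_dir_inj : Function.Injective hexDir := by
  decide

private theorem GlueK_dir_neg : ∀ e : ZMod 6, hexDir (e + 3) = -(hexDir e) := by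
  decide

private theorem GlueK_bK {b : Lab 6} {d : ZMod 6} :
    bK d (act (linv b) (d + 3)) b.2 = b := by
  revert b d
  decide +kernel

private theorem GlueK_act1 : ∀ e : ZMod 6, act ((0, false) : Lab 6) e = e := by
  decide

private theorem GlueK_linv1 : ∀ e : ZMod 6, act (linv ((0, false) : Lab 6)) e = e := by
  decide

private theorem GlueK_pl1 (p : V) : gridTri.pl 0 (0, false) p = p := by
  rw [gridTri.pl_one, toV_zero, zero_add]

theorem glueK {ψ : V ≃ₜ V} (h1 : ∀ p, (∀ e, ek e = true → p ∉ UK e) → ψ p = p)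
    (h2 : ∀ e, ek e = true → ∀ p ∈ UK e, ψ p ∈ UK e) {a b : Lab 6} {d : ZMod 6}
    (hd : ek d = true) (ha : OkK 0 a) (hb : OkK (hexDir d) b)
    (hf : FitK (ψ '' kagQ) 0 d a b) :
    ∃ Ψ : V ≃ₜ V, Ψ '' (kagQ ∪ gridTri.pl (hexDir d) b '' kagQ)
      = gridTri.tile (ψ '' kagQ) 0 a ∪ gridTri.tile (ψ '' kagQ) (hexDir d) b := by
  -- the cell of direction `d` as a cell around `hexDir d`
  have hc0 := contactK (z := 0) (a := (0, false)) (b := b) (d := d) OkK_zero
    (by rw [zero_add]; exact hb)
  have hca := contactK (z := 0) (a := a) (b := b) (d := d) ha (by rw [zero_add]; exact hb)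
  obtain ⟨s, hs⟩ : ∃ s, s = act (linv b) (d + 3) := ⟨_, rfl⟩
  have hes : ek s = true := by rw [hs]; exact hc0.2.1
  have hsd : gridTri.pl (hexDir d) b '' UK s = UK d := by
    have h3 : b.2 = (ck s == ck d) := by
      have h4 := hc0.2.2
      rw [GlueK_linv1, ← hs, Bool.false_xor] at h4
      rw [h4, Bool.beq_comm]
    have h5 := UK_bK hes hd h3
    rw [hs] at h5 ⊢
    rwa [GlueK_bK] at h5
  -- the homeomorphisms of the two tiles
  obtain ⟨α, α1', α2', α3'⟩ := GlueK_conj h1 h2 0 a
  obtain ⟨β, β1, β2, β3⟩ := GlueK_conj h1 h2 (hexDir d) b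
  have hpl0 : ∀ (c : Lab 6) (S : Set V), gridTri.pl 0 c '' S = (hexMat c).ap '' S := by
    intro c S
    exact image_congr fun x _ => gridTri.pl_zero c x
  have hUa : ∀ e, ek e = true → gridTri.pl 0 a '' UK (act (linv a) e) = UK e := by
    intro e he
    have h3 : ek (act (linv a) e) = true := by
      have h4 := (nbK_iff ha e).1
      apply h4
      have h5 := (nbK_iff OkK_zero e).2
      apply h5
      rw [GlueK_linv1]
      exact he
    rw [hpl0, UK_act ha h3, act_act_linv]
  have hQa : gridTri.pl 0 a '' kagQ = kagQ := by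
    rw [hpl0, kagQ_mat a ha]
  have α1 : ∀ p, (∀ e, ek e = true → p ∉ UK e) → α p = p := by
    intro p hp
    apply α1'
    intro e he
    rw [hpl0, UK_act ha he]
    exact hp _ (aK_act ha he).1
  have α2 : ∀ e, ek e = true → ∀ p ∈ UK e, α p ∈ UK e := by
    intro e he p hp
    have h3 : ek (act (linv a) e) = true := by
      have h4 := (nbK_iff ha e).1
      apply h4
      have h5 := (nbK_iff OkK_zero e).2
      apply h5
      rw [GlueK_linv1]
      exact he
    have h4 := α2' _ h3 p
    rw [hUa e he] at h4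
    exact h4 hp
  have α3 : ∀ p, α p ∈ gridTri.tile (ψ '' kagQ) 0 a ↔ p ∈ kagQ := by
    intro p
    rw [α3', hQa]
  have huniq : ∀ {e f : ZMod 6} {p : V}, ek e = true → ek f = true → p ∈ UK e → p ∈ UK f →
      e = f := by
    intro e f p he hf hpe hpf
    by_contra hne
    exact disjoint_left.1 (UK_disj e f he hf hne) hpe hpf
  have hplinj : Function.Injective (gridTri.pl (hexDir d) b) :=
    (gridTri.plH (hexDir d) b).injective
  have huniqC : ∀ {e f : ZMod 6} {p : V}, ek e = true → ek f = true →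
      p ∈ gridTri.pl (hexDir d) b '' UK e → p ∈ gridTri.pl (hexDir d) b '' UK f → e = f := by
    rintro e f p he hf ⟨q, hq, rfl⟩ hpf
    rw [hplinj.mem_set_image] at hpf
    exact huniq he hf hq hpf
  -- containment in the stars
  have hTB : ψ '' kagQ ⊆ kagB := by
    rintro _ ⟨q, hq, rfl⟩
    by_cases h : ∃ e, ek e = true ∧ q ∈ UK e
    · obtain ⟨e, he, hqe⟩ := h
      exact UK_B e he (h2 e he q hqe)
    · push Not at h
      rw [h1 q h]
      exact kagQ_B hq
  have htB : ∀ (w : Z2) (c : Lab 6) (x : V), x ∈ gridTri.tile (ψ '' kagQ) w c →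
      x ∈ gridTri.tile kagB w c := fun w c x hx => image_mono hTB hx
  have hdne : hexDir d ≠ 0 := gridHex.dir_ne d
  -- separation
  have F3 : ∀ e p, ek e = true → p ∈ UK e → p ∈ gridTri.tile kagB (hexDir d) b → d = e := by
    intro e p he hp hw
    have h3 : p ∈ gridTri.pl 0 (0, false) '' UK e := ⟨p, hp, GlueK_pl1 p⟩
    rcases kag_sep Subset.rfl OkK_zero he h3 hb hw with h | h
    · exact absurd h hdne
    · rw [zero_add, GlueK_act1] at h
      exact GlueK_dir_inj h
  let W : Set V := {p | ∃ e, ek e = true ∧ e ≠ s ∧ p ∈ gridTri.pl (hexDir d) b '' UK e}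
  have hopen : ∀ e, IsOpen (gridTri.pl (hexDir d) b '' UK e) := fun e =>
    (gridTri.plH (hexDir d) b).isOpenMap _ (UK_open e)
  have hWo : IsOpen W := by
    have h3 : W = ⋃ e : {e : ZMod 6 // ek e = true ∧ e ≠ s},
        gridTri.pl (hexDir d) b '' UK e := by
      ext p
      simp only [W, mem_setOf_eq, mem_iUnion, Subtype.exists, exists_prop, and_assoc]
    rw [h3]
    exact isOpen_iUnion fun e => hopen e
  have hWm : β '' W = W := by
    apply Subset.antisymm
    · rintro _ ⟨p, ⟨e, he, hne, hp⟩, rfl⟩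
      exact ⟨e, he, hne, β2 e he p hp⟩
    · rintro p ⟨e, he, hne, hp⟩
      obtain ⟨q, rfl⟩ := β.surjective p
      by_cases h : ∃ f, ek f = true ∧ q ∈ gridTri.pl (hexDir d) b '' UK f
      · obtain ⟨f, hf1, hf2⟩ := h
        have h3 := huniqC hf1 he (β2 f hf1 q hf2) hp
        subst h3
        exact ⟨q, ⟨f, he, hne, hf2⟩, rfl⟩
      · push Not at h
        rw [β1 q h] at hp
        exact absurd hp (h e he)
  have hWf : ∀ p ∈ frontier W, β p = p := by
    intro p hp
    rw [hWo.frontier_eq] at hp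
    apply β1
    intro e he hpe
    by_cases hne : e = s
    · obtain ⟨q, hq1, f, hf0, hf1, hf2⟩ := mem_closure_iff.1 hp.1 _ (hopen e) hpe
      exact hf1 ((huniqC he hf0 hq1 hf2).symm.trans hne)
    · exact hp.2 ⟨e, he, hne, hpe⟩
  obtain ⟨γ, γ1, γ2⟩ := restrict_homeo β hWo hWm hWf
  have F1 : ∀ e p, ek e = true → p ∈ UK e → p ∉ W := by
    rintro e p he hp ⟨f, hf0, hf1, hf2⟩
    have h3 : d = e := F3 e p he hp (image_mono (UK_B f hf0) hf2)
    subst h3
    rw [← hsd] at hp
    exact hf1 (huniqC hf0 hes hf2 hp)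
  have F2 : ∀ p ∈ W, ∀ c : Lab 6, OkK 0 c → p ∉ gridTri.tile kagB 0 c := by
    rintro p ⟨e, he, hne, hp⟩ c hc hpB
    rcases kag_sep Subset.rfl hb he hp hc hpB with h | h
    · exact hdne h.symm
    · have h3 : hexDir (act b e) = hexDir (d + 3) := by
        rw [GlueK_dir_neg]
        have h4 : hexDir d + hexDir (act b e) = 0 := h.symm
        exact (neg_eq_of_add_eq_zero_right h4).symm
      have h5 := GlueK_dir_inj h3
      apply hne
      rw [hs, ← h5, act_linv_act]
  have hQ1 : ∀ p ∈ kagQ, p ∈ gridTri.tile kagB 0 (0, false) := fun p hp =>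
    ⟨p, kagQ_B hp, GlueK_pl1 p⟩
  have key : ∀ p, γ (α p) ∈ gridTri.tile (ψ '' kagQ) 0 a ∪
      gridTri.tile (ψ '' kagQ) (hexDir d) b ↔ p ∈ kagQ ∪ gridTri.pl (hexDir d) b '' kagQ := by
    intro p
    by_cases hp : ∃ e, ek e = true ∧ p ∈ UK e
    · obtain ⟨e, he0, he⟩ := hp
      have h3 := α2 e he0 p he
      rw [γ2 _ (F1 e _ he0 h3)]
      by_cases hed : e = d
      · subst hed
        refine iff_of_true ?_ (UK_Q he0 hb he)
        by_cases h4 : α p ∈ gridTri.tile (ψ '' kagQ) 0 a
        · exact Or.inl h4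
        · have h5 : α p ∈ UK e \ gridTri.tile (ψ '' kagQ) 0 a := ⟨h3, h4⟩
          have h6 : Fit (UK e) (gridTri.tile (ψ '' kagQ) 0 a)
              (gridTri.tile (ψ '' kagQ) (hexDir e) b) := by
            have h7 := hf
            unfold FitK at h7
            rwa [hUa e he0, zero_add] at h7
          rw [← h6.1] at h5
          exact Or.inr (interior_subset h5.2)
      · have h4 : α p ∉ gridTri.tile (ψ '' kagQ) (hexDir d) b := fun h =>
          hed (F3 e _ he0 h3 (htB _ _ _ h)).symm
        have h5 : p ∉ gridTri.pl (hexDir d) b '' kagQ := fun h =>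
          hed (F3 e _ he0 he (image_mono kagQ_B h)).symm
        simp only [mem_union, h4, h5, or_false]
        exact α3 p
    · push Not at hp
      rw [α1 p hp]
      by_cases hW : p ∈ W
      · rw [γ1 p hW]
        have h3 : β p ∈ W := by
          rw [← hWm]
          exact mem_image_of_mem _ hW
        have h4 : β p ∉ gridTri.tile (ψ '' kagQ) 0 a := fun h =>
          F2 _ h3 a ha (htB _ _ _ h)
        have h5 : p ∉ kagQ := fun h => F2 p hW _ OkK_zero (hQ1 p h)
        rw [mem_union, mem_union]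
        simp only [h4, h5, false_or]
        exact β3 p
      · rw [γ2 p hW, mem_union, mem_union]
        have h3 : p ∈ gridTri.tile (ψ '' kagQ) 0 a ↔ p ∈ kagQ := by
          have h4 := α3 p
          rwa [α1 p hp] at h4
        have h5 : p ∈ gridTri.tile (ψ '' kagQ) (hexDir d) b ↔
            p ∈ gridTri.pl (hexDir d) b '' kagQ := by
          have h4 := β3 p
          rwa [β1 p] at h4
          intro e he hpe
          by_cases hne : e = s
          · subst hne
            rw [hsd] at hpe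
            exact hp d hd hpe
          · exact hW ⟨e, he, hne, hpe⟩
        rw [h3, h5]
  refine ⟨α.trans γ, ?_⟩
  ext z
  obtain ⟨p, rfl⟩ := (α.trans γ).surjective z
  rw [(α.trans γ).injective.mem_set_image]
  exact (key p).symm

end Pool.H3JG
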