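import Pool.Agent.Helper3.JK.OkK

/-!
# Jigsaw tiles on the rhombille tiling: labels of the linear isometries, and the star

`kag_label`: copy of `JT/LabelT.lean` (directions `0` and `2` generate the fine lattice; `hex_label`
gives `a`); then `z + mat a w` is a place for every place `w`; modulo two the map `c ↦ kap z + mk2 a c`
is a bijection of `ZMod 2 × ZMod 2` which maps the classes other than `(0, 1)` to classes other than
`(0, 1)`, so it fixes `(0, 1)`, which is `OkK z a` (decide over the classes).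

`kag_star`: compare `JT/StarT.lean`. In the sector `x ≥ 0, x + 2y ≥ 0` (direction `0`): if `x - y > 1` the
centres `(1, -1)` and `(1, 0)` are nearer than `0`, if `x + y > 1` the centres `(1, 1)` and `(1, 0)` are
nearer; so `p ∈ kagD0`. The other three sectors by the symmetries `(3, false)`, `(2, true)`,
`(5, true)` (the centres and the norm are invariant under them).
-/

namespace Pool.H3JG

open Set

private theorem LabelK_inj {z w : Z2} (h : hexF (toV z) = hexF (toV w)) : z = w := by
  have h4 : toV z = toV w := RealHex_F.injective h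
  unfold toV at h4
  rw [Prod.mk.injEq] at h4
  exact Prod.ext (by exact_mod_cast h4.1) (by exact_mod_cast h4.2)

private theorem LabelK_mem {z : Z2} : hexF (toV z) ∈ RhombusCentres ↔ VK z := by
  rw [rhombusCentres_eq]
  constructor
  · rintro ⟨w, hw, h⟩
    rw [← LabelK_inj h]
    exact hw
  · intro h
    exact ⟨z, h, rfl⟩

private theorem LabelK_diff (L : E ≃ₗᵢ[ℝ] E) {z : Z2}
    (hL : ∀ w ∈ RhombusCentres, hexF (toV z) + L w ∈ RhombusCentres) {w : Z2} (hw : VK w) :
    ∃ u : Z2, L (hexF (toV w)) = hexF (toV u) := by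
  have h1 := hL _ (LabelK_mem.2 hw)
  rw [rhombusCentres_eq] at h1
  obtain ⟨v, -, hv⟩ := h1
  refine ⟨v + -z, ?_⟩
  simp only at hv
  rw [toV_add, toV_neg, ← sub_eq_add_neg, RealHex_sub, hv, add_sub_cancel_left]

private theorem LabelK_cls : ∀ (c : ZMod 2 × ZMod 2) (a : Lab 6), c ≠ (0, 1) →
    c + kap (hexDir (act a 0)) ≠ (0, 1) → c + kap (hexDir (act a 2)) ≠ (0, 1) →
    c + kap (hexDir (act a 1)) = (0, 1) := by
  decide

private theorem LabelK_kap (z w : Z2) : kap (z + w) = kap z + kap w := by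
  unfold kap
  rw [Prod.mk_add_mk (z.1 : ZMod 2), ← Int.cast_add, ← Int.cast_add]
  rfl

theorem kag_label (L : E ≃ₗᵢ[ℝ] E) {z : Z2} (hz : VK z)
    (hL : ∀ w ∈ RhombusCentres, hexF (toV z) + L w ∈ RhombusCentres) :
    ∃ a : Lab 6, OkK z a ∧ ∀ p : V, L (hexF p) = hexF ((hexMat a).ap p) := by
  have v0 : VK (hexDir 0) := by decide
  have v2 : VK (hexDir 2) := by decide
  obtain ⟨u0, hu0⟩ := LabelK_diff L hL (w := hexDir 0) v0
  obtain ⟨u2, hu2⟩ := LabelK_diff L hL (w := hexDir 2) v2
  have hfine : ∀ w ∈ range (fun z : Z2 => hexF (toV z)),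
      L w ∈ range (fun z : Z2 => hexF (toV z)) := by
    rintro _ ⟨⟨m, n⟩, rfl⟩
    refine ⟨(m + n) • u0 + n • u2, ?_⟩
    have e1 : toV ((m + n) • u0 + n • u2) = ((m + n : ℤ) : ℝ) • toV u0 + (n : ℝ) • toV u2 := by
      apply Prod.ext <;> simp [toV]
    have e2 : toV ((m, n) : Z2) = ((m + n : ℤ) : ℝ) • toV (hexDir 0) + (n : ℝ) • toV (hexDir 2) := by
      rw [show hexDir 0 = (1, 0) from rfl, show hexDir 2 = (-1, 1) from rfl]
      apply Prod.ext <;> simp [toV]
    simp only
    rw [e1, e2, hexF_add, hexF_add, RealHex_smul, RealHex_smul, RealHex_smul, RealHex_smul,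
      map_add, map_smul, map_smul, hu0, hu2]
  obtain ⟨a, ha⟩ := hex_label L hfine
  refine ⟨a, ?_, ha⟩
  have key : ∀ d : ZMod 6, VK (hexDir d) → kap z + kap (hexDir (act a d)) ≠ (0, 1) := by
    intro d hd
    have h1 := hL _ (LabelK_mem.2 hd)
    have e3 : (hexMat a).apZ (hexDir d) = hexDir (act a d) := gridHex.mat_dir a d
    rw [ha, ← toV_apZ, e3, ← hexF_add, ← toV_add] at h1
    have h2 : kap (z + hexDir (act a d)) ≠ (0, 1) := LabelK_mem.1 h1
    rw [LabelK_kap] at h2
    exact h2
  exact LabelK_cls (kap z) a hz (key 0 v0) (key 2 v2)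

end Pool.H3JG
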