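import Pool.Agent.Helper3.JK.OkK

/-!
# Jigsaw tiles on the rhombille tiling: the star in terms of distances

Compare `JT/StarT.lean` (`RealHex_near`). In the sector `x ≥ 0, x + 2y ≥ 0` (direction `0`): if
`x - y > 1` the centres `(1, -1)` and `(1, 0)` are nearer than `0`, if `x + y > 1` the centres `(1, 1)` and
`(1, 0)` are nearer; so `p ∈ kagD0`. The other three sectors in the same way, by the symmetries
`(3, false)`, `(2, true)`, `(5, true)` of the rhombus (the matrices of `aK`).
-/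

namespace Pool.H3JG

open Set

private theorem StarK_VK (z : Z2) (h : ¬ (z.1 % 2 = 0 ∧ z.2 % 2 = 1)) : VK z := (VK_iff z).2 h

private theorem StarK_m2 (p : V) : (hexMat (2, true)).ap p = (-p.1, p.1 + p.2) := by
  show ((((-1 : ℤ) : ℝ)) * p.1 + ((0 : ℤ) : ℝ) * p.2, ((1 : ℤ) : ℝ) * p.1 + ((1 : ℤ) : ℝ) * p.2) = _
  push_cast
  refine Prod.ext ?_ ?_ <;> ring

private theorem StarK_m5 (p : V) : (hexMat (5, true)).ap p = (p.1, -p.1 - p.2) := by
  show ((((1 : ℤ) : ℝ)) * p.1 + ((0 : ℤ) : ℝ) * p.2,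
    ((-1 : ℤ) : ℝ) * p.1 + ((-1 : ℤ) : ℝ) * p.2) = _
  push_cast
  refine Prod.ext ?_ ?_ <;> ring

theorem kag_star (p : V) (h : ∀ u ∈ RhombusCentres, ∀ w ∈ RhombusCentres,
    ‖hexF p - u‖ < ‖hexF p‖ → ‖hexF p - w‖ < ‖hexF p‖ → u = w) : p ∈ kagB := by
  have hh : ∀ u w : Z2, VK u → VK w → u ≠ w →
      (u.1 : ℝ) ^ 2 + u.1 * u.2 + (u.2 : ℝ) ^ 2 <
        2 * p.1 * u.1 + p.1 * u.2 + p.2 * u.1 + 2 * p.2 * u.2 →
      (w.1 : ℝ) ^ 2 + w.1 * w.2 + (w.2 : ℝ) ^ 2 <
        2 * p.1 * w.1 + p.1 * w.2 + p.2 * w.1 + 2 * p.2 * w.2 → False := by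
    intro u w hu hw huw h1 h2
    have k1 : hexF (toV u) ∈ RhombusCentres := by
      rw [rhombusCentres_eq]
      exact ⟨u, hu, rfl⟩
    have k2 : hexF (toV w) ∈ RhombusCentres := by
      rw [rhombusCentres_eq]
      exact ⟨w, hw, rfl⟩
    have h3 := h _ k1 _ k2 (RealHex_near p u h1) (RealHex_near p w h2)
    have h4 : toV u = toV w := RealHex_F.injective h3
    unfold toV at h4
    rw [Prod.mk.injEq] at h4
    exact huw (Prod.ext (by exact_mod_cast h4.1) (by exact_mod_cast h4.2))
  obtain ⟨x, y⟩ := p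
  have v10 : VK (1, 0) := StarK_VK _ (by decide)
  have v11 : VK (1, 1) := StarK_VK _ (by decide)
  have v1m : VK (1, -1) := StarK_VK _ (by decide)
  have vm0 : VK (-1, 0) := StarK_VK _ (by decide)
  have vm1 : VK (-1, 1) := StarK_VK _ (by decide)
  have vmm : VK (-1, -1) := StarK_VK _ (by decide)
  have vm2 : VK (-1, 2) := StarK_VK _ (by decide)
  have v1n : VK (1, -2) := StarK_VK _ (by decide)
  have c1 : ¬ (1 < x - y ∧ 0 ≤ x + 2 * y) := fun k =>
    hh (1, -1) (1, 0) v1m v10 (by decide)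
      (by push_cast; linarith [k.1]) (by push_cast; linarith [k.1, k.2])
  have c2 : ¬ (1 < x + y ∧ 0 ≤ x) := fun k =>
    hh (1, 1) (1, 0) v11 v10 (by decide)
      (by push_cast; linarith [k.1]) (by push_cast; linarith [k.1, k.2])
  have c3 : ¬ (1 < -(x - y) ∧ 0 ≤ -(x + 2 * y)) := fun k =>
    hh (-1, 1) (-1, 0) vm1 vm0 (by decide)
      (by push_cast; linarith [k.1]) (by push_cast; linarith [k.1, k.2])
  have c4 : ¬ (1 < -(x + y) ∧ 0 ≤ -x) := fun k =>
    hh (-1, -1) (-1, 0) vmm vm0 (by decide)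
      (by push_cast; linarith [k.1]) (by push_cast; linarith [k.1, k.2])
  have c5 : ¬ (1 < y ∧ 0 ≤ -x) := fun k =>
    hh (-1, 2) (-1, 1) vm2 vm1 (by decide)
      (by push_cast; linarith [k.1]) (by push_cast; linarith [k.1, k.2])
  have c6 : ¬ (1 < -(2 * x + y) ∧ 0 ≤ x + 2 * y) := fun k =>
    hh (-1, 0) (-1, 1) vm0 vm1 (by decide)
      (by push_cast; linarith [k.1]) (by push_cast; linarith [k.1, k.2])
  have c7 : ¬ (1 < -y ∧ 0 ≤ x) := fun k =>
    hh (1, -2) (1, -1) v1n v1m (by decide)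
      (by push_cast; linarith [k.1]) (by push_cast; linarith [k.1, k.2])
  have c8 : ¬ (1 < 2 * x + y ∧ 0 ≤ -(x + 2 * y)) := fun k =>
    hh (1, 0) (1, -1) v10 v1m (by decide)
      (by push_cast; linarith [k.1]) (by push_cast; linarith [k.1, k.2])
  rcases le_total 0 x with ha | ha
  · rcases le_total 0 (x + 2 * y) with hb | hb
    · refine ⟨0, by decide, ?_⟩
      rw [show aK 0 = (0, false) by decide, GridHex_m0]
      refine ⟨ha, ?_, ?_, hb⟩
      · by_contra hc
        simp only at hc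
        exact c2 ⟨by linarith, ha⟩
      · by_contra hc
        simp only at hc
        exact c1 ⟨by linarith, hb⟩
    · refine ⟨5, by decide, ?_⟩
      rw [show aK 5 = (5, true) by decide, StarK_m5]
      refine ⟨ha, ?_, ?_, by simp only; linarith⟩
      · by_contra hc
        simp only at hc
        exact c7 ⟨by linarith, ha⟩
      · by_contra hc
        simp only at hc
        exact c8 ⟨by linarith, by linarith⟩
  · rcases le_total 0 (x + 2 * y) with hb | hb
    · refine ⟨2, by decide, ?_⟩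
      rw [show aK 2 = (2, true) by decide, StarK_m2]
      refine ⟨by simp only; linarith, ?_, ?_, by simp only; linarith⟩
      · by_contra hc
        simp only at hc
        exact c5 ⟨by linarith, by linarith⟩
      · by_contra hc
        simp only at hc
        exact c6 ⟨by linarith, hb⟩
    · refine ⟨3, by decide, ?_⟩
      rw [show aK 3 = (3, false) by decide, GridHex_m3]
      refine ⟨by simp only; linarith, ?_, ?_, by simp only; linarith⟩
      · by_contra hc
        simp only at hc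
        exact c4 ⟨by linarith, by linarith⟩
      · by_contra hc
        simp only at hc
        exact c3 ⟨by linarith, by linarith⟩

end Pool.H3JG
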