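import Pool.Agent.Helper3.JG.TileFit
import Pool.Agent.Helper3.JK.SepK

/-!
# Jigsaw tiles on the rhombille tiling: in a tiling neighbouring tiles are complementary

Copy of `JT/TileFitT.lean` / `JG/TileFit.lean` with `kag_sep` (`a := g z`, `i := act (linv (g z)) d`,
`ek i = true` by `nbK_iff`, `act (g z) i = d` by `act_act_linv`); the common cell is
`gridTri.pl z (g z) '' UK i` (open by `UK_open`).
-/

namespace Pool.H3JG

open Set

private theorem TileFitK_fit {U A B : Set V} (hU : IsOpen U) (hA : closure (interior A) = A)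
    (hcov : U ⊆ A ∪ B) (hd : Disjoint (interior A) (interior B)) :
    U ∩ interior B = U \ A := by
  have hAc : IsClosed A := by
    rw [← hA]
    exact isClosed_closure
  apply Subset.antisymm
  · rintro p ⟨hpU, hpB⟩
    refine ⟨hpU, fun hpA => ?_⟩
    rw [← hA] at hpA
    obtain ⟨q, hq1, hq2⟩ := mem_closure_iff.1 hpA _ isOpen_interior hpB
    exact disjoint_left.1 hd hq2 hq1
  · intro p hp
    refine ⟨hp.1, ?_⟩
    refine interior_maximal (fun q hq => ?_) (hU.sdiff hAc) hp
    rcases hcov hq.1 with h | h
    · exact absurd h hq.2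
    · exact h

theorem fitAt_of_tilesK {T : Set V} (hT : closure (interior T) = T) (hB : T ⊆ kagB)
    {g : Z2 → Lab 6} (hok : ∀ z, VK z → OkK z (g z)) (ht : TilesK T g) (z : Z2) (d : ZMod 6)
    (hz : VK z) (hzd : VK (z + hexDir d)) : FitK T z d (g z) (g (z + hexDir d)) := by
  have hi : ek (act (linv (g z)) d) = true := (nbK_iff (hok z hz) d).1 hzd
  have hcov : gridTri.pl z (g z) '' UK (act (linv (g z)) d) ⊆
      gridTri.tile T z (g z) ∪ gridTri.tile T (z + hexDir d) (g (z + hexDir d)) := by
    intro p hp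
    obtain ⟨z', hz'2, hz'⟩ := ht.1 p
    rcases kag_sep hB (hok z hz) hi hp (hok z' hz'2) hz' with h3 | h3
    · left
      rw [h3] at hz'
      exact hz'
    · right
      rw [act_act_linv] at h3
      rw [h3] at hz'
      exact hz'
  have hne : z ≠ z + hexDir d := by
    intro h
    have h0 : hexDir d = 0 := by simpa using h
    exact gridTri.dir_ne d h0
  have hdj := ht.2 z (z + hexDir d) hz hzd hne
  have hU : IsOpen (gridTri.pl z (g z) '' UK (act (linv (g z)) d)) := by
    rw [← gridTri.plH_coe]
    exact (gridTri.plH z (g z)).isOpen_image.2 (UK_open _)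
  have hA := gridTri.tile_regular hT z (g z)
  have hB' := gridTri.tile_regular hT (z + hexDir d) (g (z + hexDir d))
  refine ⟨TileFitK_fit hU hA hcov hdj, TileFitK_fit hU hB' ?_ hdj.symm⟩
  rw [union_comm]
  exact hcov

end Pool.H3JG
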