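import Pool.Agent.Helper3.JT.FinalT
import Pool.Agent.Helper3.JK.CoreK
import Pool.Agent.Helper3.JK.TileFitK
import Pool.Agent.Helper3.JK.AssembleK
import Pool.Agent.Helper3.JK.CellK1
import Pool.Agent.Helper3.JK.DiskK2
import Pool.Agent.Helper3.JK.GlueK
import Pool.Agent.Helper3.JK.LabelK
import Pool.Agent.Helper3.JK.StarK

/-!
# Jigsaw tiles on the rhombille tiling: the final statement
-/

namespace Pool.H3JG

open Set

theorem rhombusCentres_subset : RhombusCentres ⊆ HexagonalLattice := by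
  rintro p ⟨a, b, _, rfl⟩
  exact ⟨a, b, rfl⟩

theorem VK_hexDir {d : ZMod 6} (hd : ek d = true) : VK (hexDir d) := by
  have h6 := (nbK_iff OkK_zero d).2 (by
    have h7 : ∀ d : ZMod 6, act (linv ((0, false) : Lab 6)) d = d := by decide
    rw [h7]
    exact hd)
  rwa [zero_add] at h6

/-- The general statement for the rhombille tiling. -/
theorem finalK_gen (re : Realiz gridHex) (hre : ∀ p, re.F p = hexF p)
    {T : Set E} (hT0 : closure (interior T) = T)
    (hstar : ∀ p : V, hexF p ∈ T → p ∈ kagB)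
    (g : E → E ≃ₗᵢ[ℝ] E)
    (hg : ∀ u ∈ RhombusCentres, ∀ w ∈ RhombusCentres, u + g u w ∈ RhombusCentres)
    (hcov : (⋃ u ∈ RhombusCentres, (fun x => u + g u x) '' T) = univ)
    (hdis : ∀ u ∈ RhombusCentres, ∀ w ∈ RhombusCentres, u ≠ w →
      Disjoint (interior ((fun x => u + g u x) '' T)) (interior ((fun x => w + g w x) '' T))) :
    ∃ g2 : Z2 → Lab 6, (∀ z, VK z → OkK z (g2 z)) ∧
      (∀ z d, VK z → VK (z + hexDir d) → FitK (re.F ⁻¹' T) z d (g2 z) (g2 (z + hexDir d))) ∧
      ∃ m : ℕ, 1 ≤ m ∧ m ≤ 2 ∧ ∃ d : ZMod 6, ek d = true ∧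
        IsRepeating T (fun i : Fin m => re.iso (rep hexDir d i) (g2 (rep hexDir d i))) := by
  have hadd : ∀ p q, re.F (p + q) = re.F p + re.F q := fun p q => by
    simp only [hre]
    exact hexF_add p q
  have hmem : ∀ z : Z2, VK z → re.F (toV z) ∈ RhombusCentres := fun z hz => by
    rw [rhombusCentres_eq, hre]
    exact ⟨z, hz, rfl⟩
  have hinj : ∀ z w : Z2, re.F (toV z) = re.F (toV w) → z = w := by
    intro z w h
    have h1 := re.F.injective h
    unfold toV at h1
    rw [Prod.mk.injEq] at h1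
    exact Prod.ext (by exact_mod_cast h1.1) (by exact_mod_cast h1.2)
  set T' : Set V := re.F ⁻¹' T with hT'
  have hFT : re.F '' T' = T := image_preimage_eq T re.F.surjective
  have hreg : closure (interior T') = T' := by
    rw [hT', ← re.F.preimage_interior, ← re.F.preimage_closure, hT0]
  have hcl : IsClosed T' := by
    rw [← hreg]
    exact isClosed_closure
  have hB : T' ⊆ kagB := by
    intro p hp
    have hp' : re.F p ∈ T := hp
    rw [hre] at hp'
    exact hstar p hp'
  have hex : ∀ z : Z2, ∃ b : Lab 6, VK z → OkK z b ∧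
      ∀ p, g (re.F (toV z)) (re.F p) = re.F ((hexMat b).ap p) := by
    intro z
    by_cases hz : VK z
    · obtain ⟨b, hb, hb2⟩ := kag_label (g (re.F (toV z))) hz (fun w hw => by
        have := hg _ (hmem z hz) w hw
        rw [hre] at this ⊢
        exact this)
      exact ⟨b, fun _ => ⟨hb, fun p => by
        have h1 := hb2 p
        rw [← hre p, ← hre ((hexMat b).ap p)] at h1
        exact h1⟩⟩
    · exact ⟨(0, false), fun h => absurd h hz⟩
  choose g' hg' using hex
  have hok : ∀ z, VK z → OkK z (g' z) := fun z hz => (hg' z hz).1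
  have himg : ∀ z : Z2, VK z → (fun x => re.F (toV z) + g (re.F (toV z)) x) '' T =
      re.F '' gridTri.tile T' z (g' z) := by
    intro z hz
    rw [← hFT]
    unfold Grid.tile
    rw [image_image, image_image]
    refine image_congr fun p _ => ?_
    rw [(hg' z hz).2 p, ← hadd]
    rfl
  have htiles : TilesK T' g' := by
    constructor
    · intro p
      have h1 : re.F p ∈ (⋃ u ∈ RhombusCentres, (fun x => u + g u x) '' T) := by
        rw [hcov]
        exact mem_univ _
      rw [mem_iUnion₂] at h1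
      obtain ⟨u, hu, h2⟩ := h1
      rw [rhombusCentres_eq] at hu
      obtain ⟨z, hz, rfl⟩ := hu
      have hz' : VK z := hz
      refine ⟨z, hz', ?_⟩
      have h3 : re.F p ∈ re.F '' gridTri.tile T' z (g' z) := by
        rw [← himg z hz', hre (toV z)]
        exact h2
      exact (re.F.injective.mem_set_image).1 h3
    · intro z w hz hw hzw
      have hne : re.F (toV z) ≠ re.F (toV w) := fun h => hzw (hinj z w h)
      have h2 := hdis _ (hmem z hz) _ (hmem w hw) hne
      rw [himg z hz, himg w hw, ← re.F.image_interior, ← re.F.image_interior,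
        disjoint_image_iff re.F.injective] at h2
      exact h2
  have hcon : ConK (relK T') g' := ⟨hok, fun z d hz hzd =>
    (fitK_iff T' (hok z hz) (hok _ hzd)).1 (fitAt_of_tilesK hreg hB hok htiles z d hz hzd)⟩
  obtain ⟨g2, h1, h2, m, hm1, hm2, d, hd, ha⟩ :=
    repeating_of_goodK re hcl hB (core_kag (relK_closed T') hcon)
  rw [hFT] at ha
  exact ⟨g2, h1, h2, m, hm1, hm2, d, hd, ha⟩

theorem star_of_jigsawK {T : Set E} (hj : IsJigsaw RhombusCentres T) :
    ∀ p : V, hexF p ∈ T → p ∈ kagB := by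
  obtain ⟨re, hre⟩ := exists_realHex
  obtain ⟨ψ, k1, k2, hTe⟩ := hj
  intro p hp'
  rw [← hre, hTe] at hp'
  obtain ⟨q, hq, hqp⟩ := hp'
  by_cases h : ∃ w ∈ RhombusCentres, w ≠ 0 ∧ q ∈ Cell RhombusCentres w
  · obtain ⟨w, hw, hw0, hqw⟩ := h
    have h3 := k2 w hw hw0 q hqw
    rw [hqp] at h3
    have h4 := kag_cell1 hw hw0 h3
    simp only [mem_iUnion] at h4
    obtain ⟨e, he, r, hr, hrp⟩ := h4
    rw [← hre r] at hrp
    rw [re.F.injective hrp] at hr
    exact UK_B e he hr
  · push Not at h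
    have h3 : ψ q = q := k1 q h
    rw [h3] at hqp
    rw [kag_vor] at hq
    obtain ⟨r, hr, hrq⟩ := hq
    rw [hqp, ← hre r] at hrq
    rw [re.F.injective hrq] at hr
    exact kagQ_B hr

theorem finalK {T : Set E} (hj : IsJigsaw RhombusCentres T)
    (g : E → E ≃ₗᵢ[ℝ] E)
    (hg : ∀ u ∈ RhombusCentres, ∀ w ∈ RhombusCentres, u + g u w ∈ RhombusCentres)
    (hcov : (⋃ u ∈ RhombusCentres, (fun x => u + g u x) '' T) = univ)
    (hdis : ∀ u ∈ RhombusCentres, ∀ w ∈ RhombusCentres, u ≠ w →
      Disjoint (interior ((fun x => u + g u x) '' T)) (interior ((fun x => w + g w x) '' T))) :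
    Nonempty (↥T ≃ₜ ↥(Metric.closedBall (0 : E) 1)) ∧
      ∃ m : ℕ, 1 ≤ m ∧ m ≤ 2 ∧ ∃ a : Fin m → (E ≃ᵢ E), IsRepeating T a ∧
        Nonempty (↥(⋃ i, a i '' T) ≃ₜ ↥(Metric.closedBall (0 : E) 1)) := by
  have hreg0 := (reg_of_jigsaw hj fun u hu h0 =>
    one_le_norm_hex (rhombusCentres_subset hu) h0).1
  obtain ⟨re, hre⟩ := exists_realHex
  have hre' : (re.F : V → E) = hexF := funext hre
  obtain ⟨g2, hok, hfit, m, hm1, hm2, d, hd, hrep⟩ :=
    finalK_gen re hre hreg0 (star_of_jigsawK hj) g hg hcov hdis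
  obtain ⟨ψ, h1, h2, hTe⟩ := hj
  obtain ⟨b1⟩ := kag_ball
  have bT : Nonempty (↥T ≃ₜ ↥(Metric.closedBall (0 : E) 1)) := by
    rw [hTe, kag_vor]
    exact ⟨(ψ.image _).symm.trans b1⟩
  refine ⟨bT, m, hm1, hm2, _, hrep, ?_⟩
  obtain ⟨bT⟩ := bT
  have hm : m = 1 ∨ m = 2 := by omega
  rcases hm with rfl | rfl
  · have he : (⋃ i : Fin 1, re.iso (rep hexDir d i) (g2 (rep hexDir d i)) '' T)
        = (re.iso 0 (g2 0)).toHomeomorph '' T := by
      ext x
      simp only [mem_iUnion]
      constructor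
      · rintro ⟨i, hi⟩
        rw [Subsingleton.elim i 0] at hi
        exact hi
      · intro hx
        exact ⟨0, hx⟩
    rw [he]
    exact ⟨((re.iso 0 (g2 0)).toHomeomorph.image T).symm.trans bT⟩
  · set T' : Set V := re.F ⁻¹' T with hT'
    have hFT : re.F '' T' = T := image_preimage_eq T re.F.surjective
    let ψ' : V ≃ₜ V := re.F.trans (ψ.trans re.F.symm)
    have hψ' : ∀ p, re.F (ψ' p) = ψ (re.F p) := fun p => re.F.apply_symm_apply _
    have hTψ : T' = ψ' '' kagQ := by
      apply re.F.injective.image_injective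
      show re.F '' T' = re.F '' (ψ' '' kagQ)
      rw [hFT, hTe, kag_vor, ← hre', image_image, image_image]
      exact image_congr fun p _ => (hψ' p).symm
    have hF0 : re.F 0 = 0 := by
      have h3 : re.F (0 + 0) = re.F 0 + re.F 0 := by
        simp only [hre]
        exact hexF_add 0 0
      rw [add_zero] at h3
      exact left_eq_add.1 h3
    have hne : ∀ e, re.F (toV (hexDir e)) ≠ 0 := by
      intro e h
      rw [← hF0] at h
      have h3 := re.F.injective h
      apply gridHex.dir_ne e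
      unfold toV at h3
      rw [Prod.mk_eq_zero] at h3
      exact Prod.ext (by exact_mod_cast h3.1) (by exact_mod_cast h3.2)
    have hmem : ∀ z : Z2, VK z → re.F (toV z) ∈ RhombusCentres := fun z hz => by
      rw [rhombusCentres_eq, hre]
      exact ⟨z, hz, rfl⟩
    have k1 : ∀ p, (∀ e, ek e = true → p ∉ UK e) → ψ' p = p := by
      intro p hp
      apply re.F.injective
      rw [hψ']
      apply h1
      intro w hw hw0 hc
      have h4 := kag_cell1 hw hw0 hc
      simp only [mem_iUnion] at h4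
      obtain ⟨e, he, q, hq, hqp⟩ := h4
      rw [← hre q] at hqp
      rw [re.F.injective hqp] at hq
      exact hp e he hq
    have k2 : ∀ e, ek e = true → ∀ p ∈ UK e, ψ' p ∈ UK e := by
      intro e he p hp
      have h3 : re.F p ∈ Cell RhombusCentres (re.F (toV (hexDir e))) := by
        rw [hre (toV (hexDir e)), kag_cell2 e he]
        exact ⟨p, hp, (hre p).symm⟩
      have h4 := h2 _ (hmem _ (VK_hexDir he)) (hne e) _ h3
      rw [hre (toV (hexDir e)), kag_cell2 e he, ← hψ', ← hre'] at h4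
      exact re.F.injective.mem_set_image.1 h4
    have hvd : VK (hexDir d) := VK_hexDir hd
    have hf := hfit 0 d VK_zero (by rw [zero_add]; exact hvd)
    rw [hTψ, zero_add] at hf
    obtain ⟨Ψ, hΨ⟩ := glueK k1 k2 hd (hok 0 VK_zero) (hok _ hvd) hf
    obtain ⟨b2⟩ := kag_ball2 hd (hok _ hvd)
    have himg : ∀ z (a : Lab 6), re.iso z a '' T = re.F '' gridTri.tile (ψ' '' kagQ) z a := by
      intro z a
      rw [← hTψ, ← hFT]
      unfold Grid.tile
      rw [image_image, image_image]
      exact image_congr fun p _ => re.iso_F z a p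
    have he : (⋃ i : Fin 2, re.iso (rep hexDir d i) (g2 (rep hexDir d i)) '' T)
        = (re.F.symm.trans (Ψ.trans re.F)) ''
          (hexF '' (kagQ ∪ gridTri.pl (hexDir d) (g2 (hexDir d)) '' kagQ)) := by
      have h3 : (re.F.symm.trans (Ψ.trans re.F)) ''
          (hexF '' (kagQ ∪ gridTri.pl (hexDir d) (g2 (hexDir d)) '' kagQ))
          = re.F '' (Ψ '' (kagQ ∪ gridTri.pl (hexDir d) (g2 (hexDir d)) '' kagQ)) := by
        rw [← hre', image_image, image_image]
        refine image_congr fun p _ => ?_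
        show re.F (Ψ (re.F.symm (re.F p))) = re.F (Ψ p)
        rw [re.F.symm_apply_apply]
      rw [h3, hΨ, image_union, ← himg, ← himg]
      ext x
      simp only [mem_iUnion, mem_union]
      constructor
      · rintro ⟨i, hi⟩
        fin_cases i
        · exact Or.inl hi
        · exact Or.inr hi
      · rintro (hx | hx)
        · exact ⟨0, hx⟩
        · exact ⟨1, hx⟩
    rw [he]
    exact ⟨((re.F.symm.trans (Ψ.trans re.F)).image _).symm.trans b2⟩

/-- The four tilings together, jigsaw deformations. -/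
theorem finalR4 (P : Set E)
    (hP : P = SquareLattice ∨ P = HexagonalLattice ∨ P = TriangleCentres ∨ P = RhombusCentres)
    {T : Set E} (hT : IsJigsaw P T)
    (g : E → E ≃ₗᵢ[ℝ] E) (hg : ∀ u ∈ P, ∀ w ∈ P, u + g u w ∈ P)
    (hcov : (⋃ u ∈ P, (fun x => u + g u x) '' T) = univ)
    (hdis : ∀ u ∈ P, ∀ w ∈ P, u ≠ w →
      Disjoint (interior ((fun x => u + g u x) '' T)) (interior ((fun x => w + g w x) '' T))) :
    Nonempty (↥T ≃ₜ ↥(Metric.closedBall (0 : E) 1)) ∧
      ∃ m : ℕ, 1 ≤ m ∧ m ≤ 2 ∧ (P = TriangleCentres → m = 1) ∧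
        ∃ a : Fin m → (E ≃ᵢ E), IsRepeating T a ∧
          Nonempty (↥(⋃ i, a i '' T) ≃ₜ ↥(Metric.closedBall (0 : E) 1)) := by
  by_cases hPT : P = TriangleCentres
  · exact finalR P (Or.inr (Or.inr hPT)) hT g hg hcov hdis
  rcases hP with h | h | h | h
  · exact finalR P (Or.inl h) hT g hg hcov hdis
  · exact finalR P (Or.inr (Or.inl h)) hT g hg hcov hdis
  · exact absurd h hPT
  · subst h
    obtain ⟨h1, m, hm1, hm2, a, ha, h2⟩ := finalK hT g hg hcov hdis
    exact ⟨h1, m, hm1, hm2, fun k => absurd k hPT, a, ha, h2⟩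

/-- The four tilings together, general tiles. -/
theorem finalG4 (P : Set E)
    (hP : P = SquareLattice ∨ P = HexagonalLattice ∨ P = TriangleCentres ∨ P = RhombusCentres)
    {T : Set E} (hT : closure (interior T) = T) (hc : IsPreconnected (interior T))
    (hn : ∀ p ∈ T, ∀ u ∈ P, ∀ w ∈ P, ‖p - u‖ < ‖p‖ → ‖p - w‖ < ‖p‖ → u = w)
    (g : E → E ≃ₗᵢ[ℝ] E) (hg : ∀ u ∈ P, ∀ w ∈ P, u + g u w ∈ P)
    (hcov : (⋃ u ∈ P, (fun x => u + g u x) '' T) = univ)
    (hdis : ∀ u ∈ P, ∀ w ∈ P, u ≠ w →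
      Disjoint (interior ((fun x => u + g u x) '' T)) (interior ((fun x => w + g w x) '' T))) :
    ∃ m : ℕ, 1 ≤ m ∧ m ≤ 2 ∧ (P = TriangleCentres → m = 1) ∧
      ∃ a : Fin m → (E ≃ᵢ E), IsRepeating T a := by
  by_cases hPT : P = TriangleCentres
  · exact finalG P (Or.inr (Or.inr hPT)) hT hc hn g hg hcov hdis
  rcases hP with h | h | h | h
  · exact finalG P (Or.inl h) hT hc hn g hg hcov hdis
  · exact finalG P (Or.inr (Or.inl h)) hT hc hn g hg hcov hdis
  · exact absurd h hPT
  · subst h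
    obtain ⟨re, hre⟩ := exists_realHex
    obtain ⟨g2, hok, hfit, m, hm1, hm2, d, hd, hrep⟩ :=
      finalK_gen re hre hT (fun p hp => kag_star p (hn _ hp)) g hg hcov hdis
    exact ⟨m, hm1, hm2, fun k => absurd k hPT, _, hrep⟩

end Pool.H3JG
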