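import Pool.Agent.Helper3.JK.SepK

/-!
# Jigsaw tiles on the rhombille tiling: complementary neighbours give a tiling

Copy of `JT/FitTileT.lean` / `JG/FitTile.lean` with `kag_sep` and `kag_cover`. In `kag_cover` the label
`a` allowed at `z` need not be `g z`; the cells agree: `pl z a '' UK i = pl z (g z) '' UK (act (linv
(g z)) (act a i))` by `UK_act` for the label `lmul (linv (g z)) a`, which is allowed at `0`
(`okK_inv`, `okK_mul`).
-/

namespace Pool.H3JG

open Set

private theorem FitTileK_closed {T : Set V} (hT : IsClosed T) (w : Z2) (a : Lab 6) :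
    IsClosed (gridTri.tile T w a) := by
  have h : gridTri.tile T w a = gridTri.plH w a '' T := rfl
  rw [h]
  exact (gridTri.plH w a).isClosedMap _ hT

private theorem FitTileK_cell {z : Z2} {a b : Lab 6} (ha : OkK z a) (hb : OkK z b) {i : ZMod 6}
    (hi : ek i = true) :
    gridTri.pl z a '' UK i = gridTri.pl z b '' UK (act (linv b) (act a i)) := by
  have hc : OkK 0 (lmul (linv b) a) := by
    have h1 := okK_mul (okK_inv hb) ha
    have h2 : mvR hexMat (-((hexMat (linv b)).apZ z)) (linv b) z = 0 := by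
      unfold mvR
      exact neg_add_cancel _
    rwa [h2] at h1
  rw [← act_lmul, ← UK_act hc hi, image_image]
  refine image_congr fun x _ => ?_
  have h3 : a = lmul b (lmul (linv b) a) := by
    rw [← lmul_assoc', lmul_linv, one_lmul]
  have h4 : (gridTri.mat a).ap x =
      (gridTri.mat b).ap ((hexMat (lmul (linv b) a)).ap x) := by
    have h5 : gridTri.mat a = (gridTri.mat b).mul (gridTri.mat (lmul (linv b) a)) := by
      rw [← gridTri.mat_mul, ← h3]
    rw [h5, Mat.ap_mul]
    rfl
  unfold Grid.pl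
  rw [h4]

private theorem FitTileK_cov {T : Set V} {g : Z2 → Lab 6}
    (hok : ∀ z, VK z → OkK z (g z))
    (hg : ∀ z d, VK z → VK (z + hexDir d) → FitK T z d (g z) (g (z + hexDir d))) (p : V) :
    ∃ z : Z2, ∃ a : Lab 6, OkK z a ∧ ∃ i : ZMod 6, ek i = true ∧ VK z ∧
      VK (z + hexDir (act a i)) ∧ p ∈ closure (gridTri.pl z a '' UK i) ∧
      Fit (gridTri.pl z a '' UK i) (gridTri.tile T z (g z))
        (gridTri.tile T (z + hexDir (act a i)) (g (z + hexDir (act a i)))) := by
  obtain ⟨z, a, ha, i, hi, q, hq, rfl⟩ := kag_cover p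
  have h1 : VK z := okK_VK ha
  have h2 : VK (z + hexDir (act a i)) := (nbK_iff ha _).2 (by rwa [act_linv_act])
  refine ⟨z, a, ha, i, hi, h1, h2, ?_, ?_⟩
  · have h3 := mem_image_of_mem (gridTri.plH z a) hq
    rw [(gridTri.plH z a).image_closure, gridTri.plH_coe] at h3
    exact h3
  · rw [FitTileK_cell ha (hok z h1) hi]
    exact hg z (act a i) h1 h2

private theorem FitTileK_dis {C A B : Set V} (hg : Fit C A B) (q : V)
    (hq : q ∈ C) (h1 : q ∈ interior A) (h2 : q ∈ interior B) : False := by
  have h := hg.1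
  have h3 : q ∈ C \ A := h ▸ (⟨hq, h2⟩ : q ∈ C ∩ interior B)
  exact h3.2 (interior_subset h1)

theorem tilesK_of_fitAt {T : Set V} (hT : IsClosed T) (hB : T ⊆ kagB) {g : Z2 → Lab 6}
    (hok : ∀ z, VK z → OkK z (g z))
    (hg : ∀ z d, VK z → VK (z + hexDir d) → FitK T z d (g z) (g (z + hexDir d))) :
    TilesK T g := by
  constructor
  · intro p
    obtain ⟨s, a, ha, i, hi, c1, c2, hp, hF⟩ := FitTileK_cov hok hg p
    have hU : gridTri.pl s a '' UK i ⊆ gridTri.tile T s (g s) ∪
        gridTri.tile T (s + hexDir (act a i)) (g (s + hexDir (act a i))) := by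
      intro x hx
      by_cases h : x ∈ gridTri.tile T s (g s)
      · exact Or.inl h
      · right
        have h1 : x ∈ gridTri.pl s a '' UK i \ gridTri.tile T s (g s) := ⟨hx, h⟩
        rw [← hF.1] at h1
        exact interior_subset h1.2
    have hc : closure (gridTri.pl s a '' UK i) ⊆ gridTri.tile T s (g s) ∪
        gridTri.tile T (s + hexDir (act a i)) (g (s + hexDir (act a i))) :=
      closure_minimal hU ((FitTileK_closed hT _ _).union (FitTileK_closed hT _ _))
    rcases hc hp with h | h
    · exact ⟨s, c1, h⟩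
    · exact ⟨s + hexDir (act a i), c2, h⟩
  · intro z w hcz hcw hzw
    rw [Set.disjoint_left]
    intro p hpz hpw
    obtain ⟨s, a, ha, i, hi, c1, c2, hp, hF⟩ := FitTileK_cov hok hg p
    have hO : IsOpen (interior (gridTri.tile T z (g z)) ∩ interior (gridTri.tile T w (g w))) :=
      isOpen_interior.inter isOpen_interior
    obtain ⟨x, ⟨hxz, hxw⟩, hxU⟩ := mem_closure_iff.1 hp _ hO ⟨hpz, hpw⟩
    have sz := kag_sep hB ha hi hxU (hok z hcz) (interior_subset hxz)
    have sw := kag_sep hB ha hi hxU (hok w hcw) (interior_subset hxw)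
    rcases sz with sz | sz <;> rcases sw with sw | sw
    · exact hzw (sz.trans sw.symm)
    · rw [sz] at hxz
      rw [sw] at hxw
      exact FitTileK_dis hF x hxU hxz hxw
    · rw [sz] at hxz
      rw [sw] at hxw
      exact FitTileK_dis hF x hxU hxw hxz
    · exact hzw (sz.trans sw.symm)

end Pool.H3JG
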