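import Pool.Agent.Helper3.JK.OkK

/-!
# Jigsaw tiles on the rhombille tiling: the matching relation

Everything is transport by placements `gridTri.pl z a` (homeomorphisms `gridTri.plH z a`, `fit_image`,
`Grid.pl_tile`, `Grid.pl_pl` in `JG/Place.lean`, `JG/Lab.lean`; `gridTri.mat = hexMat`).

`UK_act`: `UK i = (hexMat (aK i)).ap '' kagU0` and `aK_act`.
`UK_bK`: the reflection `(x, y) ↦ (1 - x - y, y)`, that is `gridTri.pl (hexDir 0) (3, true)`, maps
`kagU0` onto itself; so `UK j = pl 0 (aK j) '' (pl (hexDir 0) (3, true) '' kagU0)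
= pl (hexDir j) (lmul (aK j) (3, true)) '' kagU0` and `bK_aK`.
`fitK_iff`: by `contactK` the local data `i := act (linv a) d`, `j := act (linv b) (d + 3)`,
`t := xor a.2 b.2` are realizable; apply `pl z a` to `Fit (UK i) T (tile T (hexDir i) (bK i j t))`:
`T` (equal to `tile T 0 (0, false)`) goes to `tile T z a` and `tile T (hexDir i) (bK i j t)` to
`tile T (z + hexDir d) b` (`bK_eq`, `gridHex.mat_dir`, `act_act_linv`).
`relK_closed`, symmetry: apply `pl (hexDir j) (bK j i t)` to the relation (it is the inverse of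
`pl (hexDir i) (bK i j t)`, `linv_bK`, `act_bK`), it moves `UK i` to `UK j` (`UK_bK`), `T` to
`tile T (hexDir j) (bK j i t)` and the neighbour to `T`. Chain `R i j s`, `R j k t`, `R k l u`: apply
`pl (hexDir i) (bK i j s)` to the second (moves `UK j` to `UK i`, `T` to the neighbour `B1`, the
neighbour of direction `j` to the tile at `0` with label `a' = lmul (bK i j s) (bK j k t)`) and
`pl 0 a'` to the third (`a'` is allowed at `0` by `okK_mul`, `okK_bK`; `UK_act`, `act a' k = i`), then
`fit_chain` and `bK_mul`.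
`fitK_swap`: from `fitK_iff` and the symmetry of `relK` (`d + 3 + 3 = d`), or directly.
-/

namespace Pool.H3JG

open Set

private theorem RelK_pl0 (a : Lab 6) (x : V) : gridTri.pl 0 a x = (hexMat a).ap x :=
  gridTri.pl_zero a x

private theorem RelK_mv (z : Z2) (a : Lab 6) (i : ZMod 6) :
    mvR gridTri.mat z a (hexDir i) = z + hexDir (act a i) := by
  unfold mvR
  rw [show hexDir i = gridTri.dir i from rfl, gridTri.mat_dir]
  rfl

private theorem RelK_mv0 (z : Z2) (a : Lab 6) : mvR gridTri.mat z a 0 = z := by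
  unfold mvR
  rw [Mat.apZ_zero, add_zero]

private theorem RelK_dir3 (i : ZMod 6) : hexDir i + hexDir (i + 3) = 0 := by
  revert i
  decide

private theorem RelK_tile0 (T : Set V) : gridTri.tile T 0 (0, false) = T := by
  unfold Grid.tile
  have h : ∀ x ∈ T, gridTri.pl 0 (0, false) x = id x := by
    intro x _
    rw [gridTri.pl_one, toV_zero, zero_add]
    rfl
  rw [image_congr h, image_id]

private theorem RelK_UK (i : ZMod 6) : UK i = gridTri.pl 0 (aK i) '' kagU0 := by
  unfold UK
  exact image_congr fun x _ => (RelK_pl0 (aK i) x).symm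

private theorem RelK_refl : gridTri.pl (hexDir 0) (3, true) '' kagU0 = kagU0 := by
  have hpl : ∀ p : V, gridTri.pl (hexDir 0) (3, true) p = (1 - p.1 - p.2, p.2) := by
    intro p
    show toV (hexDir 0) + (hexMat (3, true)).ap p = (1 - p.1 - p.2, p.2)
    rw [show hexMat (3, true) = ⟨-1, -1, 0, 1⟩ from rfl, show hexDir 0 = (1, 0) from rfl]
    refine Prod.ext ?_ ?_
    · simp only [Mat.ap, toV, Prod.mk_add_mk]
      push_cast
      ring
    · simp only [Mat.ap, toV, Prod.mk_add_mk]
      push_cast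
      ring
  have hin : ∀ p ∈ kagU0, gridTri.pl (hexDir 0) (3, true) p ∈ kagU0 := by
    rintro p ⟨h1, h2, h3, h4⟩
    rw [hpl]
    refine ⟨?_, ?_, ?_, ?_⟩ <;> simp only <;> linarith
  apply Subset.antisymm
  · rintro _ ⟨p, hp, rfl⟩
    exact hin p hp
  · intro p hp
    refine ⟨_, hin p hp, ?_⟩
    rw [hpl, hpl]
    exact Prod.ext (by simp only; ring) rfl

theorem UK_act {a : Lab 6} (ha : OkK 0 a) {i : ZMod 6} (hi : ek i = true) :
    (hexMat a).ap '' UK i = UK (act a i) := by
  unfold UK
  rw [image_image, ← (aK_act ha hi).2]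
  refine image_congr fun x _ => ?_
  rw [GridHex_mul, Mat.ap_mul]

theorem UK_bK {i j : ZMod 6} {t : Bool} (hi : ek i = true) (hj : ek j = true)
    (ht : t = (ck i == ck j)) : gridTri.pl (hexDir j) (bK j i t) '' UK i = UK j := by
  have h1 : UK j = gridTri.pl 0 (aK j) '' (gridTri.pl (hexDir 0) (3, true) '' kagU0) := by
    rw [RelK_refl, RelK_UK]
  rw [h1, RelK_UK, image_image, image_image]
  refine image_congr fun x _ => ?_
  rw [gridTri.pl_pl, gridTri.pl_pl, bK_aK hi hj ht, RelK_mv0, RelK_mv, act_aK, zero_add]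

theorem UK_open (i : ZMod 6) : IsOpen (UK i) := by
  have h1 : IsOpen {p : V | 0 < p.1} := isOpen_lt (by fun_prop) (by fun_prop)
  have h2 : IsOpen {p : V | p.1 + p.2 < 1} := isOpen_lt (by fun_prop) (by fun_prop)
  have h3 : IsOpen {p : V | p.1 - p.2 < 1} := isOpen_lt (by fun_prop) (by fun_prop)
  have h4 : IsOpen {p : V | 0 < p.1 + 2 * p.2} := isOpen_lt (by fun_prop) (by fun_prop)
  have h5 : IsOpen kagU0 := h1.inter (h2.inter (h3.inter h4))
  rw [RelK_UK, ← gridTri.plH_coe]
  exact (gridTri.plH 0 (aK i)).isOpenMap _ h5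

theorem fitK_iff (T : Set V) {z : Z2} {d : ZMod 6} {a b : Lab 6} (h1 : OkK z a)
    (h2 : OkK (z + hexDir d) b) : FitK T z d a b ↔ Con 3 (relK T) d a b := by
  obtain ⟨c1, c2, c3⟩ := contactK h1 h2
  have key : FitK T z d a b ↔ Fit (UK (act (linv a) d)) T
      (gridTri.tile T (hexDir (act (linv a) d))
        (bK (act (linv a) d) (act (linv b) (d + 3)) (xor a.2 b.2))) := by
    rw [← fit_image (gridTri.plH z a), gridTri.plH_coe, gridTri.pl_tile, RelK_mv, act_act_linv,
      bK_eq]
    rfl
  rw [key]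
  exact ⟨fun h => ⟨c1, c2, c3, h⟩, fun h => h.2.2.2⟩

theorem relK_closed (T : Set V) : Closed (relK T) where
  symm i j t h := by
    obtain ⟨hi, hj, ht, hF⟩ := h
    refine ⟨hj, hi, ?_, ?_⟩
    · rw [ht]
      cases ck i <;> cases ck j <;> rfl
    · rw [← fit_image (gridTri.plH (hexDir j) (bK j i t)), gridTri.plH_coe, UK_bK hi hj ht,
        gridTri.pl_tile, RelK_mv, act_bK, RelK_dir3] at hF
      have h0 : lmul (bK j i t) (bK i j t) = (0, false) := by
        rw [← linv_bK j i t, lmul_linv]
      rw [h0, RelK_tile0] at hF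
      exact fit_symm hF
  chain i j k l s t u h1 h2 h3 := by
    obtain ⟨hi, hj, hs, hF1⟩ := h1
    obtain ⟨_, hk, ht, hF2⟩ := h2
    obtain ⟨_, hl, hu, hF3⟩ := h3
    have hact : act (lmul (bK i j s) (bK j k t)) k = i := by
      have h : ∀ (i j k : ZMod 6) (s t : Bool), act (lmul (bK i j s) (bK j k t)) k = i := by
        decide +kernel
      exact h i j k s t
    have hs' : s = (ck j == ck i) := by
      rw [hs]
      cases ck i <;> cases ck j <;> rfl
    refine ⟨hi, hl, ?_, ?_⟩
    · rw [hs, ht, hu]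
      cases ck i <;> cases ck j <;> cases ck k <;> cases ck l <;> rfl
    · rw [← fit_image (gridTri.plH (hexDir i) (bK i j s)), gridTri.plH_coe, UK_bK hj hi hs',
        gridTri.pl_tile, RelK_mv, act_bK, RelK_dir3] at hF2
      have hok : OkK 0 (lmul (bK i j s) (bK j k t)) := by
        have h := okK_mul (okK_bK hi hj hs) (okK_bK hj hk ht)
        have h0 : mvR hexMat (hexDir i) (bK i j s) (hexDir j) = 0 := by
          have := RelK_mv (hexDir i) (bK i j s) j
          rw [act_bK, RelK_dir3] at this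
          exact this
        rw [h0] at h
        exact h
      have hU : gridTri.pl 0 (lmul (bK i j s) (bK j k t)) '' UK k = UK i := by
        have h := UK_act hok hk
        rw [hact] at h
        rw [← h]
        exact image_congr fun x _ => RelK_pl0 _ x
      rw [← fit_image (gridTri.plH 0 (lmul (bK i j s) (bK j k t))), gridTri.plH_coe, hU,
        gridTri.pl_tile, RelK_mv, hact, zero_add, bK_mul] at hF3
      exact fit_chain hF1 hF2 hF3

theorem fitK_swap (T : Set V) {z : Z2} {d : ZMod 6} {a b : Lab 6} (h1 : OkK z a)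
    (h2 : OkK (z + hexDir d) b) : FitK T (z + hexDir d) (d + 3) b a ↔ FitK T z d a b := by
  have h1' : OkK (z + hexDir d + hexDir (d + 3)) a := by
    rw [add_assoc, RelK_dir3, add_zero]
    exact h1
  rw [fitK_iff T h2 h1', fitK_iff T h1 h2]
  unfold Con
  have hd : d + 3 + 3 = d := by
    rw [add_assoc, show (3 : ZMod 6) + 3 = 0 from by decide, add_zero]
  have hx : xor b.2 a.2 = xor a.2 b.2 := Bool.xor_comm _ _
  rw [hd, hx]
  exact ⟨(relK_closed T).symm _ _ _, (relK_closed T).symm _ _ _⟩

end Pool.H3JG
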